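import Mathlib

/-!
# LK3 Asy: the scale `yy A L = L log L / A`
-/

set_option autoImplicit false

namespace Pool.Agent.H96.LK3

open Filter Topology

noncomputable def yy (A L : ℝ) : ℝ := L * Real.log L / A

lemma yy_tendsto {A : ℝ} (hA : 0 < A) : Tendsto (yy A) atTop atTop :=
  (tendsto_id.atTop_mul_atTop₀ Real.tendsto_log_atTop).atTop_div_const hA

lemma log_yy {A L : ℝ} (hA : 0 < A) (hL : 1 < L) :
    Real.log (yy A L) = Real.log L + Real.log (Real.log L) - Real.log A := by
  have h1 : 0 < Real.log L := Real.log_pos hL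
  have h2 : 0 < L := by linarith
  rw [yy, Real.log_div (by positivity) hA.ne', Real.log_mul h2.ne' h1.ne']

/-- `y / log y ~ L / A` for `y = yy A L`. -/
lemma yy_ratio {A : ℝ} (hA : 0 < A) :
    Tendsto (fun L : ℝ => yy A L / Real.log (yy A L) / L) atTop (𝓝 (1 / A)) := by
  -- `log x / x → 0` at `x = log L`
  have h0 : Tendsto (fun x : ℝ => Real.log x / x) atTop (𝓝 0) := by
    have := Real.isLittleO_log_id_atTop.tendsto_div_nhds_zero
    simpa using this
  have h1 : Tendsto (fun L : ℝ => Real.log (Real.log L) / Real.log L) atTop (𝓝 0) :=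
    h0.comp Real.tendsto_log_atTop
  have h2 : Tendsto (fun L : ℝ => Real.log A / Real.log L) atTop (𝓝 0) :=
    Real.tendsto_log_atTop.const_div_atTop _
  have h3 : Tendsto (fun L : ℝ => 1 + Real.log (Real.log L) / Real.log L -
      Real.log A / Real.log L) atTop (𝓝 1) := by
    have := (h1.const_add 1).sub h2
    simpa using this
  have h4 : Tendsto (fun L : ℝ => 1 / A / (1 + Real.log (Real.log L) / Real.log L -
      Real.log A / Real.log L)) atTop (𝓝 (1 / A / 1)) :=
    tendsto_const_nhds.div h3 one_ne_zero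
  rw [div_one] at h4
  refine h4.congr' ?_
  filter_upwards [eventually_gt_atTop (1 : ℝ), (yy_tendsto hA).eventually_gt_atTop 1] with L hL hy
  have a1 : 0 < Real.log L := Real.log_pos hL
  have a2 : 0 < Real.log (yy A L) := Real.log_pos hy
  have a3 := log_yy hA hL
  have a4 : 1 + Real.log (Real.log L) / Real.log L - Real.log A / Real.log L =
      Real.log (yy A L) / Real.log L := by
    rw [a3]; field_simp
  rw [a4]
  have a5 : L ≠ 0 := by linarith
  generalize hM : Real.log (yy A L) = M at *
  rw [yy]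
  field_simp

lemma yy_small {A K : ℝ} (hA : 0 < A) (hK : 0 < K) :
    Tendsto (fun L : ℝ => Real.log (K * yy A L) ^ 2 / L) atTop (𝓝 0) := by
  have h0 : Tendsto (fun x : ℝ => Real.log x ^ 2 / x) atTop (𝓝 0) := by
    have := (Real.isLittleO_pow_log_id_atTop (n := 2)).tendsto_div_nhds_zero
    simpa using this
  have h1 : Tendsto (fun L : ℝ => 4 * (Real.log L ^ 2 / L)) atTop (𝓝 0) := by
    have := h0.const_mul 4
    simpa using this
  have h2 : Tendsto (fun x : ℝ => Real.log x / x) atTop (𝓝 0) := by
    have := Real.isLittleO_log_id_atTop.tendsto_div_nhds_zero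
    simpa using this
  have h3 : ∀ᶠ L : ℝ in atTop, K * yy A L ≤ L ^ 2 := by
    have h4 := h2.eventually_lt_const (u := A / K) (by positivity)
    filter_upwards [h4, eventually_gt_atTop (0 : ℝ)] with L hL hL0
    rw [div_lt_div_iff₀ hL0 hK] at hL
    rw [yy, ← mul_div_assoc, div_le_iff₀ hA]
    calc K * (L * Real.log L) = L * (Real.log L * K) := by ring
      _ ≤ L * (A * L) := mul_le_mul_of_nonneg_left hL.le hL0.le
      _ = L ^ 2 * A := by ring
  have h5 : ∀ᶠ L : ℝ in atTop, 1 ≤ K * yy A L := by
    have := ((yy_tendsto hA).const_mul_atTop hK).eventually_ge_atTop 1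
    exact this
  refine squeeze_zero' ?_ ?_ h1
  · filter_upwards [eventually_gt_atTop (0 : ℝ)] with L hL
    positivity
  · filter_upwards [h3, h5, eventually_gt_atTop (1 : ℝ)] with L a1 a2 a3
    have b1 : 0 ≤ Real.log (K * yy A L) := Real.log_nonneg a2
    have b2 : Real.log (K * yy A L) ≤ 2 * Real.log L := by
      have := Real.log_le_log (by linarith) a1
      rwa [Real.log_pow, Nat.cast_ofNat] at this
    have b3 : Real.log (K * yy A L) ^ 2 ≤ (2 * Real.log L) ^ 2 := pow_le_pow_left₀ b1 b2 2
    rw [← mul_div_assoc]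
    apply div_le_div_of_nonneg_right _ (by linarith)
    linarith [b3, (by ring : (2 * Real.log L) ^ 2 = 4 * Real.log L ^ 2)]

end Pool.Agent.H96.LK3
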