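import Pool.Agent.H96.LK3.Defs

/-!
# LK3 Constr: the new construction of large `k`-multiple-free sets

Adapt `H96/KMF/Jordan.lean` (`wt`, `jf`, `sum_jf`, `jordan_kmf`, `VV`, `compl_bound`, `sum_VV_le`,
`dyadic_bound`, `gk_ge_jordan`).  `Q` is a finite set of primes with `p^σ ≤ 2`.  New weight
`wt' x = ∏_{p ∣ x} (if p ∈ Q ∧ ¬ p^2 ∣ x then p^{-σ} else 1 - p^{-σ})`, `jf' x = x^σ wt' x`.
* `∑_{d ∣ x} jf' d ≤ x^σ ∏_{p ∈ Q} (2 p^{-σ})`: `jf'` is multiplicative; at `p ∈ Q`, `u = p^σ`,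
  the values at `1, p, p^2, p^3, ...` are `1, 1, u^2 - u, u^3 - u^2, ...`, with partial sums
  `1, 2, 2 + u^a - u` (`a ≥ 2`), and `2 + u^a - u ≤ 2 u^{a-1}` as `(u - 2) (u^{a-1} - 1) ≤ 0`; and
  `2 p^{-σ} ≥ 1` for the primes of `Q` which do not divide `x`.
* so `{x ≤ n : n^σ ∏_{p ∈ Q} (2 p^{-σ}) ≤ k jf' x}` is `k`-multiple-free.
* if `x` is not in the set: `k^{1/σ} x < n (∏_{p ∈ Q} (2 p^{-σ})^{1/σ}) V x`,
  `V x = ∏_{p ∣ x} (if p ∈ Q ∧ ¬ p^2 ∣ x then p else ww σ p)` (as `(p^{-σ})^{-1/σ} = p`), and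
  `ww σ p ≥ p` for `p ∈ Q` since `1 - p^{-σ} ≤ p^{-σ}`.
* `∑_{x ≤ z} V x ≤ z ∏_{p ≤ z} (p ∈ Q : 1 + (p-1)/p + (ww - p)/p^2 ≤ 2 + ww/p^2;
  else 1 + (ww - 1)/p)`: expand `V` over pairs of disjoint sets of primes (`p` divides `x`,
  contribution `V_p - 1`; `p^2` divides `x`, contribution `ww - p`), number of multiples of `d` up
  to `z` at most `z / d`.
* dyadic decomposition as in `dyadic_bound`.
-/

set_option autoImplicit false

namespace Pool.Agent.H96.LK3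

open Finset Filter Topology Pool.Agent.H96.KMF

/-- the local weight of the construction. -/
noncomputable def cLw (σ : ℝ) (Q : Finset ℕ) (x p : ℕ) : ℝ :=
  if p ∈ Q ∧ ¬ p ^ 2 ∣ x then (p : ℝ) ^ (-σ) else 1 - (p : ℝ) ^ (-σ)

/-- the weight of the construction. -/
noncomputable def cWt (σ : ℝ) (Q : Finset ℕ) (x : ℕ) : ℝ := ∏ p ∈ x.primeFactors, cLw σ Q x p

/-- the new multiplicative function. -/
noncomputable def cJf (σ : ℝ) (Q : Finset ℕ) (x : ℕ) : ℝ := (x : ℝ) ^ σ * cWt σ Q x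

/-- the bound of its divisor sums. -/
noncomputable def cB (σ : ℝ) (Q : Finset ℕ) (x : ℕ) : ℝ :=
  (x : ℝ) ^ σ * ∏ p ∈ Q, (if p ∣ x then 2 * (p : ℝ) ^ (-σ) else 1)

lemma cLw_mul {σ : ℝ} {Q : Finset ℕ} {m n p : ℕ} (h : Nat.Coprime m n)
    (hp : p ∈ m.primeFactors) : cLw σ Q (m * n) p = cLw σ Q m p := by
  have hpm := Nat.dvd_of_mem_primeFactors hp
  have hc : Nat.Coprime (p ^ 2) n := Nat.Coprime.pow_left 2 (Nat.Coprime.coprime_dvd_left hpm h)
  have h1 : p ^ 2 ∣ m * n ↔ p ^ 2 ∣ m :=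
    ⟨fun h => hc.dvd_of_dvd_mul_right h, fun h => h.mul_right n⟩
  unfold cLw
  simp only [h1]

lemma cWt_mul {σ : ℝ} {Q : Finset ℕ} {m n : ℕ} (h : Nat.Coprime m n) :
    cWt σ Q (m * n) = cWt σ Q m * cWt σ Q n := by
  unfold cWt
  rw [h.primeFactors_mul, Finset.prod_union h.disjoint_primeFactors]
  congr 1
  · exact Finset.prod_congr rfl fun p hp => cLw_mul h hp
  · refine Finset.prod_congr rfl fun p hp => ?_
    rw [mul_comm m n]; exact cLw_mul h.symm hp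

/-- the new function as an arithmetic function. -/
noncomputable def cJA (σ : ℝ) (Q : Finset ℕ) : ArithmeticFunction ℝ :=
  ⟨fun x => if x = 0 then 0 else cJf σ Q x, by simp⟩

lemma cJA_apply {σ : ℝ} {Q : Finset ℕ} {x : ℕ} (hx : x ≠ 0) : cJA σ Q x = cJf σ Q x := by
  unfold cJA; simp [hx]

lemma cJf_one (σ : ℝ) (Q : Finset ℕ) : cJf σ Q 1 = 1 := by
  unfold cJf cWt; simp

lemma cJA_mult (σ : ℝ) (Q : Finset ℕ) : (cJA σ Q).IsMultiplicative := by
  rw [ArithmeticFunction.IsMultiplicative.iff_ne_zero]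
  refine ⟨?_, ?_⟩
  · rw [cJA_apply one_ne_zero, cJf_one]
  · intro m n hm hn h
    rw [cJA_apply (mul_ne_zero hm hn), cJA_apply hm, cJA_apply hn]
    unfold cJf
    rw [cWt_mul h]
    push_cast
    rw [Real.mul_rpow (by positivity) (by positivity)]
    ring

lemma cS_eq (σ : ℝ) (Q : Finset ℕ) (x : ℕ) : ∑ d ∈ x.divisors, cJf σ Q d =
    (cJA σ Q * (ArithmeticFunction.zeta : ArithmeticFunction ℝ)) x := by
  rw [ArithmeticFunction.coe_mul_zeta_apply]
  refine Finset.sum_congr rfl fun d hd => ?_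
  rw [cJA_apply (Nat.pos_of_mem_divisors hd).ne']

lemma cS_mul (σ : ℝ) (Q : Finset ℕ) {m n : ℕ} (h : Nat.Coprime m n) :
    ∑ d ∈ (m * n).divisors, cJf σ Q d =
      (∑ d ∈ m.divisors, cJf σ Q d) * ∑ d ∈ n.divisors, cJf σ Q d := by
  rw [cS_eq, cS_eq, cS_eq]
  exact ((cJA_mult σ Q).mul
    ArithmeticFunction.isMultiplicative_zeta.natCast).map_mul_of_coprime h

lemma c_pow_rpow {p : ℕ} (hp : p.Prime) (σ : ℝ) (i : ℕ) :
    ((p ^ i : ℕ) : ℝ) ^ σ = ((p : ℝ) ^ σ) ^ i := by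
  have hpr : (0 : ℝ) < p := by exact_mod_cast hp.pos
  push_cast
  rw [← Real.rpow_natCast, ← Real.rpow_natCast, ← Real.rpow_mul hpr.le, ← Real.rpow_mul hpr.le,
    mul_comm]

lemma cJf_pp {σ : ℝ} {Q : Finset ℕ} {p : ℕ} (hp : p.Prime) {i : ℕ} (h : p ∉ Q ∨ 1 ≤ i) :
    cJf σ Q (p ^ (i + 1)) = ((p : ℝ) ^ σ) ^ (i + 1) - ((p : ℝ) ^ σ) ^ i := by
  have hpr : (0 : ℝ) < p := by exact_mod_cast hp.pos
  have hu : 0 < (p : ℝ) ^ σ := Real.rpow_pos_of_pos hpr σ
  have h1 : ¬ (p ∈ Q ∧ ¬ p ^ 2 ∣ p ^ (i + 1)) := by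
    rintro ⟨h2, h3⟩
    rcases h with h | h
    · exact h h2
    · exact h3 (pow_dvd_pow p (by omega))
  unfold cJf cWt
  rw [Nat.primeFactors_prime_pow (by omega) hp, Finset.prod_singleton, cLw, if_neg h1,
    c_pow_rpow hp, Real.rpow_neg hpr.le, pow_succ]
  field_simp

lemma cJf_p {σ : ℝ} {Q : Finset ℕ} {p : ℕ} (hp : p.Prime) (h : p ∈ Q) :
    cJf σ Q (p ^ 1) = 1 := by
  have hpr : (0 : ℝ) < p := by exact_mod_cast hp.pos
  have hu : 0 < (p : ℝ) ^ σ := Real.rpow_pos_of_pos hpr σ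
  have h1 : p ∈ Q ∧ ¬ p ^ 2 ∣ p ^ 1 := by
    refine ⟨h, fun h3 => ?_⟩
    rw [Nat.pow_dvd_pow_iff_le_right hp.one_lt] at h3
    omega
  unfold cJf cWt
  rw [Nat.primeFactors_prime_pow (by omega) hp, Finset.prod_singleton, cLw, if_pos h1,
    c_pow_rpow hp, Real.rpow_neg hpr.le, pow_one]
  field_simp

lemma cB_pp {σ : ℝ} {Q : Finset ℕ} (hQ : ∀ p ∈ Q, p.Prime) {p : ℕ} (hp : p.Prime) (i : ℕ) :
    cB σ Q (p ^ (i + 1)) = if p ∈ Q then 2 * ((p : ℝ) ^ σ) ^ i else ((p : ℝ) ^ σ) ^ (i + 1) := by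
  have hpr : (0 : ℝ) < p := by exact_mod_cast hp.pos
  have hu : 0 < (p : ℝ) ^ σ := Real.rpow_pos_of_pos hpr σ
  have h1 : ∏ q ∈ Q, (if q ∣ p ^ (i + 1) then 2 * (q : ℝ) ^ (-σ) else 1) =
      ∏ q ∈ Q, (if p = q then 2 * (q : ℝ) ^ (-σ) else 1) := by
    refine Finset.prod_congr rfl fun q hq => ?_
    have h2 : q ∣ p ^ (i + 1) ↔ p = q := by
      constructor
      · intro h
        exact ((Nat.prime_dvd_prime_iff_eq (hQ q hq) hp).1 ((hQ q hq).dvd_of_dvd_pow h)).symm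
      · rintro rfl
        exact dvd_pow_self _ (by omega)
    by_cases h3 : p = q
    · rw [if_pos h3, if_pos (h2.2 h3)]
    · rw [if_neg h3, if_neg (fun h => h3 (h2.1 h))]
  unfold cB
  rw [h1, Finset.prod_ite_eq, c_pow_rpow hp, Real.rpow_neg hpr.le]
  split_ifs
  · rw [pow_succ]; field_simp
  · rw [mul_one]

lemma c_pp_le {σ : ℝ} (hσ : 0 < σ) {Q : Finset ℕ} (hQ : ∀ p ∈ Q, p.Prime ∧ (p : ℝ) ^ σ ≤ 2)
    {p : ℕ} (hp : p.Prime) (i : ℕ) :
    ∑ d ∈ (p ^ (i + 1)).divisors, cJf σ Q d ≤ cB σ Q (p ^ (i + 1)) := by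
  rw [Nat.sum_divisors_prime_pow hp, cB_pp (fun q hq => (hQ q hq).1) hp]
  have hp1 : (1 : ℝ) < p := by exact_mod_cast hp.one_lt
  have hu1 : 1 < (p : ℝ) ^ σ := Real.one_lt_rpow hp1 hσ
  set u := (p : ℝ) ^ σ with hu
  by_cases hpQ : p ∈ Q
  · rw [if_pos hpQ]
    have hu2 : u ≤ 2 := (hQ p hpQ).2
    induction i with
    | zero =>
      rw [Finset.sum_range_succ, Finset.sum_range_succ, Finset.sum_range_zero, pow_zero, cJf_one,
        cJf_p hp hpQ]
      norm_num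
    | succ i ih =>
      rw [Finset.sum_range_succ, cJf_pp hp (Or.inr (by omega)), ← hu]
      have h3 : 0 < u ^ i := by positivity
      have h4 : 0 ≤ u ^ i * ((u - 1) * (2 - u)) :=
        mul_nonneg h3.le (mul_nonneg (by linarith) (by linarith))
      have e1 : u ^ (i + 1) = u ^ i * u := pow_succ _ _
      have e2 : u ^ (i + 1 + 1) = u ^ i * u * u := by rw [pow_succ, pow_succ]
      rw [e1] at *
      rw [e2]
      nlinarith
  · rw [if_neg hpQ]
    have h5 : ∀ i : ℕ, ∑ k ∈ Finset.range (i + 1), cJf σ Q (p ^ k) = u ^ i := by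
      intro i
      induction i with
      | zero => rw [Finset.sum_range_one, pow_zero, pow_zero, cJf_one]
      | succ i ih =>
        rw [Finset.sum_range_succ, ih, cJf_pp hp (Or.inl hpQ)]
        ring
    rw [h5]

lemma cLw_pos {σ : ℝ} (hσ : 0 < σ) (Q : Finset ℕ) (x : ℕ) {p : ℕ} (hp : p.Prime) :
    0 < cLw σ Q x p := by
  have hp1 : (1 : ℝ) < p := by exact_mod_cast hp.one_lt
  have h1 : (p : ℝ) ^ (-σ) < 1 := Real.rpow_lt_one_of_one_lt_of_neg hp1 (by linarith)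
  have h2 : 0 < (p : ℝ) ^ (-σ) := Real.rpow_pos_of_pos (by linarith) _
  unfold cLw
  split_ifs
  · exact h2
  · linarith

lemma cWt_pos {σ : ℝ} (hσ : 0 < σ) (Q : Finset ℕ) (x : ℕ) : 0 < cWt σ Q x :=
  Finset.prod_pos fun _ hp => cLw_pos hσ Q x (Nat.prime_of_mem_primeFactors hp)

lemma cJf_nonneg {σ : ℝ} (hσ : 0 < σ) (Q : Finset ℕ) (x : ℕ) : 0 ≤ cJf σ Q x := by
  unfold cJf
  have := cWt_pos hσ Q x
  positivity

lemma cB_nonneg (σ : ℝ) (Q : Finset ℕ) (x : ℕ) : 0 ≤ cB σ Q x := by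
  unfold cB
  refine mul_nonneg (by positivity) (Finset.prod_nonneg fun p _ => ?_)
  split_ifs <;> positivity

lemma cB_mul {σ : ℝ} {Q : Finset ℕ} (hQ : ∀ p ∈ Q, p.Prime) {m n : ℕ} (h : Nat.Coprime m n) :
    cB σ Q (m * n) = cB σ Q m * cB σ Q n := by
  unfold cB
  have h1 : ∏ p ∈ Q, (if p ∣ m * n then 2 * (p : ℝ) ^ (-σ) else 1) =
      (∏ p ∈ Q, (if p ∣ m then 2 * (p : ℝ) ^ (-σ) else 1)) *
        ∏ p ∈ Q, (if p ∣ n then 2 * (p : ℝ) ^ (-σ) else 1) := by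
    rw [← Finset.prod_mul_distrib]
    refine Finset.prod_congr rfl fun p hp => ?_
    have hpp := hQ p hp
    by_cases hm : p ∣ m
    · have hn : ¬ p ∣ n := fun hn => hpp.one_lt.ne'
        (Nat.eq_one_of_dvd_coprimes h hm hn)
      rw [if_pos hm, if_neg hn, if_pos (hm.mul_right n), mul_one]
    · by_cases hn : p ∣ n
      · rw [if_neg hm, if_pos hn, if_pos (hn.mul_left m), one_mul]
      · rw [if_neg hm, if_neg hn, if_neg, one_mul]
        intro h2
        rcases (Nat.Prime.dvd_mul hpp).1 h2 with h3 | h3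
        · exact hm h3
        · exact hn h3
  rw [h1]
  push_cast
  rw [Real.mul_rpow (by positivity) (by positivity)]
  ring

lemma c_sum_le {σ : ℝ} (hσ : 0 < σ) {Q : Finset ℕ} (hQ : ∀ p ∈ Q, p.Prime ∧ (p : ℝ) ^ σ ≤ 2)
    (x : ℕ) (hx : x ≠ 0) : ∑ d ∈ x.divisors, cJf σ Q d ≤ cB σ Q x := by
  induction x using Nat.recOnPosPrimePosCoprime with
  | prime_pow p n hp hn =>
    obtain ⟨i, rfl⟩ := Nat.exists_eq_add_of_lt hn
    rw [zero_add]
    exact c_pp_le hσ hQ hp i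
  | zero => exact absurd rfl hx
  | one =>
    have h1 : ∏ p ∈ Q, (if p ∣ 1 then 2 * (p : ℝ) ^ (-σ) else 1) = 1 := by
      refine Finset.prod_eq_one fun p hp => if_neg fun h => ?_
      exact (hQ p hp).1.one_lt.ne' (Nat.dvd_one.1 h)
    rw [Nat.divisors_one, Finset.sum_singleton, cJf_one]
    unfold cB
    rw [h1]; simp
  | coprime a b ha hb hab iha ihb =>
    rw [cS_mul σ Q hab, cB_mul (fun p hp => (hQ p hp).1) hab]
    exact mul_le_mul (iha (by omega)) (ihb (by omega))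
      (Finset.sum_nonneg fun d _ => cJf_nonneg hσ Q d) (cB_nonneg σ Q a)

/-- the constant of the construction. -/
noncomputable def cPi (σ : ℝ) (Q : Finset ℕ) : ℝ := ∏ p ∈ Q, (2 * (p : ℝ) ^ (-σ))

lemma c_fac {σ : ℝ} {Q : Finset ℕ} (hQ : ∀ p ∈ Q, p.Prime ∧ (p : ℝ) ^ σ ≤ 2) {p : ℕ}
    (hp : p ∈ Q) : 1 ≤ 2 * (p : ℝ) ^ (-σ) := by
  have hpr : (0 : ℝ) < p := by exact_mod_cast (hQ p hp).1.pos
  have hu : 0 < (p : ℝ) ^ σ := Real.rpow_pos_of_pos hpr σ
  rw [Real.rpow_neg hpr.le, ← div_eq_mul_inv, le_div_iff₀ hu, one_mul]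
  exact (hQ p hp).2

lemma cPi_pos {σ : ℝ} {Q : Finset ℕ} (hQ : ∀ p ∈ Q, p.Prime ∧ (p : ℝ) ^ σ ≤ 2) :
    0 < cPi σ Q :=
  Finset.prod_pos fun p hp => lt_of_lt_of_le one_pos (c_fac hQ hp)

lemma cB_le {σ : ℝ} {Q : Finset ℕ} (hQ : ∀ p ∈ Q, p.Prime ∧ (p : ℝ) ^ σ ≤ 2) (x : ℕ) :
    cB σ Q x ≤ (x : ℝ) ^ σ * cPi σ Q := by
  unfold cB cPi
  refine mul_le_mul_of_nonneg_left (Finset.prod_le_prod (fun p _ => ?_) fun p hp => ?_)
    (by positivity)
  · split_ifs <;> positivity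
  · split_ifs
    · exact le_rfl
    · exact c_fac hQ hp

theorem c_kmf {σ : ℝ} (hσ : 0 < σ) {Q : Finset ℕ} (hQ : ∀ p ∈ Q, p.Prime ∧ (p : ℝ) ^ σ ≤ 2)
    (k n : ℕ) (hk : 1 ≤ k) (hn : 1 ≤ n) :
    KMultipleFree k ((Finset.Icc 1 n).filter
      (fun x => (n : ℝ) ^ σ * cPi σ Q ≤ k * cJf σ Q x)) := by
  rw [kmf_iff]
  intro a ha
  have hPi := cPi_pos hQ
  set A := (Finset.Icc 1 n).filter (fun x => (n : ℝ) ^ σ * cPi σ Q ≤ k * cJf σ Q x) with hA
  set F := A.filter (fun b => b ∣ a ∧ b ≠ a) with hF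
  have ha' := ha
  rw [hA, Finset.mem_filter, Finset.mem_Icc] at ha'
  have hnr : (0 : ℝ) < n := by exact_mod_cast hn
  have hkr : (0 : ℝ) < k := by exact_mod_cast hk
  have hnσ : 0 < (n : ℝ) ^ σ * cPi σ Q := mul_pos (Real.rpow_pos_of_pos hnr σ) hPi
  have haF : a ∉ F := by rw [hF, Finset.mem_filter]; simp
  have hsub : insert a F ⊆ a.divisors := by
    intro b hb
    rw [Finset.mem_insert] at hb
    rw [Nat.mem_divisors]
    rcases hb with rfl | hb
    · exact ⟨dvd_rfl, by omega⟩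
    · rw [hF, Finset.mem_filter] at hb
      exact ⟨hb.2.1, by omega⟩
  have hlow : ∀ b ∈ insert a F, (n : ℝ) ^ σ * cPi σ Q / k ≤ cJf σ Q b := by
    intro b hb
    rw [Finset.mem_insert] at hb
    have hbA : b ∈ A := by
      rcases hb with rfl | hb
      · exact ha
      · rw [hF, Finset.mem_filter] at hb; exact hb.1
    rw [hA, Finset.mem_filter] at hbA
    rw [div_le_iff₀ hkr]
    linarith [hbA.2]
  have h2 : (a : ℝ) ^ σ * cPi σ Q ≤ (n : ℝ) ^ σ * cPi σ Q :=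
    mul_le_mul_of_nonneg_right
      (Real.rpow_le_rpow (by positivity) (by exact_mod_cast ha'.1.2) hσ.le) hPi.le
  have h1 : ((insert a F).card : ℝ) * ((n : ℝ) ^ σ * cPi σ Q / k) ≤ (n : ℝ) ^ σ * cPi σ Q := by
    calc ((insert a F).card : ℝ) * ((n : ℝ) ^ σ * cPi σ Q / k) =
          ∑ b ∈ insert a F, (n : ℝ) ^ σ * cPi σ Q / k := by
          rw [Finset.sum_const, nsmul_eq_mul]
      _ ≤ ∑ b ∈ insert a F, cJf σ Q b := Finset.sum_le_sum hlow
      _ ≤ ∑ b ∈ a.divisors, cJf σ Q b :=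
          Finset.sum_le_sum_of_subset_of_nonneg hsub fun b _ _ => cJf_nonneg hσ Q b
      _ ≤ cB σ Q a := c_sum_le hσ hQ a (by omega)
      _ ≤ (a : ℝ) ^ σ * cPi σ Q := cB_le hQ a
      _ ≤ _ := h2
  have h3 : ((insert a F).card : ℝ) ≤ k := by
    have h4 : ((insert a F).card : ℝ) * ((n : ℝ) ^ σ * cPi σ Q / k) ≤
        k * ((n : ℝ) ^ σ * cPi σ Q / k) := by
      rw [mul_div_cancel₀ _ hkr.ne']
      exact h1
    exact le_of_mul_le_mul_right h4 (by positivity)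
  rw [Finset.card_insert_of_notMem haF] at h3
  have h5 : F.card + 1 ≤ k := by exact_mod_cast h3
  omega

/-! ### the complement -/

/-- the local factors of `V`. -/
noncomputable def cLv (σ : ℝ) (Q : Finset ℕ) (x p : ℕ) : ℝ :=
  if p ∈ Q ∧ ¬ p ^ 2 ∣ x then (p : ℝ) else ww σ p

/-- `V x`. -/
noncomputable def cV (σ : ℝ) (Q : Finset ℕ) (x : ℕ) : ℝ := ∏ p ∈ x.primeFactors, cLv σ Q x p

lemma cV_eq {σ : ℝ} (hσ : 0 < σ) (Q : Finset ℕ) (x : ℕ) :
    cV σ Q x = (cWt σ Q x) ^ (-(1 / σ)) := by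
  unfold cV cWt
  rw [← Real.finsetProd_rpow _ _ fun p hp =>
    (cLw_pos hσ Q x (Nat.prime_of_mem_primeFactors hp)).le]
  refine Finset.prod_congr rfl fun p hp => ?_
  have hpr : (0 : ℝ) < p := by exact_mod_cast (Nat.prime_of_mem_primeFactors hp).pos
  unfold cLv cLw
  split_ifs
  · rw [← Real.rpow_mul hpr.le]
    have : -σ * -(1 / σ) = 1 := by field_simp
    rw [this, Real.rpow_one]
  · rfl

lemma cV_nonneg {σ : ℝ} (hσ : 0 < σ) (Q : Finset ℕ) (x : ℕ) : 0 ≤ cV σ Q x := by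
  rw [cV_eq hσ]
  exact Real.rpow_nonneg (cWt_pos hσ Q x).le _

lemma c_compl {σ : ℝ} (hσ : 0 < σ) {Q : Finset ℕ} (hQ : ∀ p ∈ Q, p.Prime ∧ (p : ℝ) ^ σ ≤ 2)
    {k n x : ℕ} (hk : 1 ≤ k) (hx : 1 ≤ x) (h : (k : ℝ) * cJf σ Q x < (n : ℝ) ^ σ * cPi σ Q) :
    (k : ℝ) ^ (1 / σ) * x < cPi σ Q ^ (1 / σ) * cV σ Q x * n := by
  have hkr : (0 : ℝ) < k := by exact_mod_cast hk
  have hxr : (0 : ℝ) < x := by exact_mod_cast hx
  have hw := cWt_pos hσ Q x
  have hPi := cPi_pos hQ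
  unfold cJf at h
  have h1 : (0 : ℝ) ≤ k * ((x : ℝ) ^ σ * cWt σ Q x) := by positivity
  have h2 := Real.rpow_lt_rpow h1 h (by positivity : 0 < 1 / σ)
  rw [Real.mul_rpow (by positivity) hPi.le,
    ← Real.rpow_mul (by positivity : (0 : ℝ) ≤ n), mul_one_div_cancel hσ.ne', Real.rpow_one,
    Real.mul_rpow hkr.le (by positivity), Real.mul_rpow (by positivity) hw.le,
    ← Real.rpow_mul hxr.le, mul_one_div_cancel hσ.ne', Real.rpow_one] at h2
  rw [cV_eq hσ, Real.rpow_neg hw.le]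
  have hw2 : 0 < cWt σ Q x ^ (1 / σ) := Real.rpow_pos_of_pos hw _
  have e : cPi σ Q ^ (1 / σ) * (cWt σ Q x ^ (1 / σ))⁻¹ * n =
      (n * cPi σ Q ^ (1 / σ)) / cWt σ Q x ^ (1 / σ) := by
    rw [div_eq_mul_inv]; ring
  rw [e, lt_div_iff₀ hw2]
  calc (k : ℝ) ^ (1 / σ) * x * cWt σ Q x ^ (1 / σ) =
        (k : ℝ) ^ (1 / σ) * (x * cWt σ Q x ^ (1 / σ)) := by ring
    _ < _ := h2

/-! ### the sum of `V` -/

lemma c_key (z : ℕ) (a b : ℕ → ℝ) (P : Finset ℕ) : (∀ p ∈ P, p.Prime) →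
    (∀ p ∈ P, 0 ≤ a p) → (∀ p ∈ P, 0 ≤ b p) → ∀ D : ℕ, 0 < D → (∀ p ∈ P, ¬ p ∣ D) →
    ∑ x ∈ Finset.Icc 1 z, (if D ∣ x then ∏ p ∈ P, (1 + (if p ∣ x then a p else 0) +
      (if p ^ 2 ∣ x then b p else 0)) else 0) ≤
      (z : ℝ) / D * ∏ p ∈ P, (1 + a p / p + b p / (p : ℝ) ^ 2) := by
  induction P using Finset.induction_on with
  | empty =>
    intro _ _ _ D hD _
    simp only [Finset.prod_empty, mul_one]
    rw [← Finset.sum_filter, Finset.sum_const, nsmul_eq_mul, mul_one]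
    have h5 : ((Finset.Icc 1 z).filter (fun x => D ∣ x)).card = z / D := by
      rw [← Nat.Ioc_filter_dvd_card_eq_div]
      congr 1
    rw [h5]
    exact Nat.cast_div_le
  | insert q P hq ih =>
    intro hP ha hb D hD hDP
    have hqp : q.Prime := hP q (Finset.mem_insert_self q P)
    have hqr : (0 : ℝ) < q := by exact_mod_cast hqp.pos
    have hDr : (0 : ℝ) < D := by exact_mod_cast hD
    have hqD : ¬ q ∣ D := hDP q (Finset.mem_insert_self q P)
    have hcop : Nat.Coprime D q := ((Nat.Prime.coprime_iff_not_dvd hqp).2 hqD).symm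
    have hP' : ∀ p ∈ P, p.Prime := fun p hp => hP p (Finset.mem_insert_of_mem hp)
    have ih' := ih hP' (fun p hp => ha p (Finset.mem_insert_of_mem hp))
      (fun p hp => hb p (Finset.mem_insert_of_mem hp))
    have hne : ∀ p ∈ P, ¬ p ∣ q := fun p hp h => by
      have := (Nat.prime_dvd_prime_iff_eq (hP' p hp) hqp).1 h
      subst this
      exact hq hp
    have i0 := ih' D hD fun p hp => hDP p (Finset.mem_insert_of_mem hp)
    have i1 := ih' (D * q) (Nat.mul_pos hD hqp.pos) fun p hp h => by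
      rcases (Nat.Prime.dvd_mul (hP' p hp)).1 h with h1 | h1
      · exact hDP p (Finset.mem_insert_of_mem hp) h1
      · exact hne p hp h1
    have i2 := ih' (D * q ^ 2) (Nat.mul_pos hD (pow_pos hqp.pos 2)) fun p hp h => by
      rcases (Nat.Prime.dvd_mul (hP' p hp)).1 h with h1 | h1
      · exact hDP p (Finset.mem_insert_of_mem hp) h1
      · exact hne p hp ((hP' p hp).dvd_of_dvd_pow h1)
    have hd1 : ∀ x : ℕ, D * q ∣ x ↔ D ∣ x ∧ q ∣ x := fun x =>
      ⟨fun h => ⟨(Dvd.intro _ rfl).trans h, (Dvd.intro_left _ rfl).trans h⟩,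
        fun h => hcop.mul_dvd_of_dvd_of_dvd h.1 h.2⟩
    have hd2 : ∀ x : ℕ, D * q ^ 2 ∣ x ↔ D ∣ x ∧ q ^ 2 ∣ x := fun x =>
      ⟨fun h => ⟨(Dvd.intro _ rfl).trans h, (Dvd.intro_left _ rfl).trans h⟩,
        fun h => (hcop.pow_right 2).mul_dvd_of_dvd_of_dvd h.1 h.2⟩
    have hsplit : ∀ x ∈ Finset.Icc 1 z, (if D ∣ x then ∏ p ∈ insert q P,
        (1 + (if p ∣ x then a p else 0) + (if p ^ 2 ∣ x then b p else 0)) else 0) =
        (if D ∣ x then ∏ p ∈ P,
          (1 + (if p ∣ x then a p else 0) + (if p ^ 2 ∣ x then b p else 0)) else 0) +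
        a q * (if D * q ∣ x then ∏ p ∈ P,
          (1 + (if p ∣ x then a p else 0) + (if p ^ 2 ∣ x then b p else 0)) else 0) +
        b q * (if D * q ^ 2 ∣ x then ∏ p ∈ P,
          (1 + (if p ∣ x then a p else 0) + (if p ^ 2 ∣ x then b p else 0)) else 0) := by
      intro x _
      rw [Finset.prod_insert hq]
      simp only [hd1, hd2]
      by_cases h0 : D ∣ x
      · by_cases h1 : q ∣ x
        · by_cases h2 : q ^ 2 ∣ x
          · simp only [h0, h1, h2, and_self, if_true]; ring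
          · simp only [h0, h1, h2, and_self, and_false, if_true, if_false]; ring
        · by_cases h2 : q ^ 2 ∣ x
          · exact absurd ((dvd_pow_self q two_ne_zero).trans h2) h1
          · simp only [h0, h1, h2, and_false, if_true, if_false]; ring
      · simp only [h0, false_and, if_false]; ring
    rw [Finset.sum_congr rfl hsplit, Finset.sum_add_distrib, Finset.sum_add_distrib,
      ← Finset.mul_sum, ← Finset.mul_sum, Finset.prod_insert hq]
    have haq := ha q (Finset.mem_insert_self q P)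
    have hbq := hb q (Finset.mem_insert_self q P)
    refine (add_le_add (add_le_add i0 (mul_le_mul_of_nonneg_left i1 haq))
      (mul_le_mul_of_nonneg_left i2 hbq)).trans (le_of_eq ?_)
    push_cast
    field_simp

lemma c_ww_ge {σ : ℝ} (hσ : 0 < σ) {Q : Finset ℕ} (hQ : ∀ p ∈ Q, p.Prime ∧ (p : ℝ) ^ σ ≤ 2)
    {p : ℕ} (hp : p ∈ Q) : (p : ℝ) ≤ ww σ p := by
  have hp1 : (1 : ℝ) < p := by exact_mod_cast (hQ p hp).1.one_lt
  have hpr : (0 : ℝ) < p := by linarith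
  have h1 : (p : ℝ) ^ (-σ) < 1 := Real.rpow_lt_one_of_one_lt_of_neg hp1 (by linarith)
  have h2 := c_fac hQ hp
  have h3 : (p : ℝ) = ((p : ℝ) ^ (-σ)) ^ (-(1 / σ)) := by
    rw [← Real.rpow_mul hpr.le]
    have : -σ * -(1 / σ) = 1 := by field_simp
    rw [this, Real.rpow_one]
  unfold ww
  conv_lhs => rw [h3]
  refine Real.rpow_le_rpow_of_nonpos (by linarith) (by linarith) ?_
  have : 0 < 1 / σ := by positivity
  linarith

lemma c_sum_V {σ : ℝ} (hσ : 0 < σ) {Q : Finset ℕ} (hQ : ∀ p ∈ Q, p.Prime ∧ (p : ℝ) ^ σ ≤ 2)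
    (z Z : ℕ) (hzZ : z ≤ Z) : ∑ x ∈ Finset.Icc 1 z, cV σ Q x ≤
      z * ∏ p ∈ Nat.primesBelow (Z + 1),
        (if p ∈ Q then 2 + ww σ p / (p : ℝ) ^ 2 else 1 + (ww σ p - 1) / p) := by
  classical
  set P := Nat.primesBelow (Z + 1) with hP
  have hPp : ∀ p ∈ P, p.Prime := fun p hp => Nat.prime_of_mem_primesBelow hp
  set a : ℕ → ℝ := fun p => if p ∈ Q then (p : ℝ) - 1 else ww σ p - 1 with ha
  set b : ℕ → ℝ := fun p => if p ∈ Q then ww σ p - p else 0 with hb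
  have ha0 : ∀ p ∈ P, 0 ≤ a p := by
    intro p hp
    have h1 := ww_one_le hσ (hPp p hp).one_lt
    have h2 : (1 : ℝ) < p := by exact_mod_cast (hPp p hp).one_lt
    simp only [ha]
    split_ifs <;> linarith
  have hb0 : ∀ p ∈ P, 0 ≤ b p := by
    intro p hp
    simp only [hb]
    split_ifs with h
    · have := c_ww_ge hσ hQ h; linarith
    · exact le_rfl
  have h1 : ∀ x ∈ Finset.Icc 1 z, cV σ Q x = (if 1 ∣ x then ∏ p ∈ P,
      (1 + (if p ∣ x then a p else 0) + (if p ^ 2 ∣ x then b p else 0)) else 0) := by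
    intro x hx
    rw [Finset.mem_Icc] at hx
    rw [if_pos (one_dvd x)]
    unfold cV
    have hsub : x.primeFactors ⊆ P := by
      intro p hp
      rw [Nat.mem_primeFactors] at hp
      rw [hP, Nat.mem_primesBelow]
      have := Nat.le_of_dvd (by omega) hp.2.1
      exact ⟨by omega, hp.1⟩
    rw [← Finset.prod_subset hsub (f := fun p => (1 + (if p ∣ x then a p else 0) +
      (if p ^ 2 ∣ x then b p else 0)))]
    · refine Finset.prod_congr rfl fun p hp => ?_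
      have hd : p ∣ x := Nat.dvd_of_mem_primeFactors hp
      unfold cLv
      simp only [ha, hb, hd, if_true]
      by_cases hpQ : p ∈ Q
      · by_cases h2 : p ^ 2 ∣ x
        · simp only [hpQ, h2, not_true_eq_false, and_false, if_false, if_true]; ring
        · simp only [hpQ, h2, not_false_eq_true, and_self, if_false, if_true]; ring
      · simp only [hpQ, false_and, if_false, ite_self]; ring
    · intro p hp hpn
      have hd : ¬ p ∣ x := fun h => hpn (Nat.mem_primeFactors.2 ⟨hPp p hp, h, by omega⟩)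
      have hd2 : ¬ p ^ 2 ∣ x := fun h => hd ((dvd_pow_self p two_ne_zero).trans h)
      rw [if_neg hd, if_neg hd2, add_zero, add_zero]
  rw [Finset.sum_congr rfl h1]
  refine (c_key z a b P hPp ha0 hb0 1 one_pos fun p hp h =>
    (hPp p hp).one_lt.ne' (Nat.dvd_one.1 h)).trans ?_
  rw [Nat.cast_one, div_one]
  refine mul_le_mul_of_nonneg_left (Finset.prod_le_prod (fun p hp => ?_) fun p hp => ?_)
    (by positivity)
  · have h2 := ha0 p hp
    have h3 := hb0 p hp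
    positivity
  · have hpr : (0 : ℝ) < p := by exact_mod_cast (hPp p hp).pos
    simp only [ha, hb]
    split_ifs with h
    · have e : 1 + ((p : ℝ) - 1) / p + (ww σ p - p) / (p : ℝ) ^ 2 =
          2 + ww σ p / (p : ℝ) ^ 2 - 2 / p := by
        field_simp; ring
      rw [e]
      have : 0 < 2 / (p : ℝ) := by positivity
      linarith
    · simp

/-! ### dyadic decomposition -/

lemma c_dyadic {n : ℕ} (hn : 1 ≤ n) (B : ℕ → Prop) [DecidablePred B] (V : ℕ → ℝ)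
    (hV : ∀ x, 0 ≤ V x) {C T : ℝ} (hT : 0 < T)
    (hc : ∀ x, 1 ≤ x → B x → T * x < V x * n)
    (hs : ∀ z, z ≤ n → ∑ x ∈ Finset.Icc 1 z, V x ≤ z * C) (hC : 0 ≤ C) (J : ℕ) :
    (((Finset.Icc 1 n).filter (fun x : ℕ => B x ∧ n < x * 2 ^ J)).card : ℝ) ≤
      J * (2 * n * C / T) := by
  have hnr : (0 : ℝ) < n := by exact_mod_cast hn
  induction J with
  | zero =>
    have : (Finset.Icc 1 n).filter (fun x : ℕ => B x ∧ n < x * 2 ^ 0) = ∅ := by
      rw [Finset.filter_eq_empty_iff]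
      intro x hx
      rw [Finset.mem_Icc] at hx
      rw [pow_zero, mul_one]
      omega
    rw [this]; simp
  | succ J ih =>
    set D := (Finset.Icc 1 (n / 2 ^ J)).filter (fun x : ℕ => B x ∧ n < x * 2 ^ (J + 1)) with hD
    have hsub : (Finset.Icc 1 n).filter (fun x : ℕ => B x ∧ n < x * 2 ^ (J + 1)) ⊆
        (Finset.Icc 1 n).filter (fun x : ℕ => B x ∧ n < x * 2 ^ J) ∪ D := by
      intro x hx
      rw [Finset.mem_filter, Finset.mem_Icc] at hx
      rw [Finset.mem_union, hD, Finset.mem_filter, Finset.mem_filter, Finset.mem_Icc,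
        Finset.mem_Icc]
      by_cases h : n < x * 2 ^ J
      · left; exact ⟨hx.1, hx.2.1, h⟩
      · right
        push Not at h
        refine ⟨⟨hx.1.1, ?_⟩, hx.2⟩
        rw [Nat.le_div_iff_mul_le (by positivity)]
        exact h
    have hDc : (D.card : ℝ) ≤ 2 * n * C / T := by
      have h1 : (D.card : ℝ) * (T / 2 ^ (J + 1)) ≤ ((n / 2 ^ J : ℕ) : ℝ) * C := by
        calc (D.card : ℝ) * (T / 2 ^ (J + 1)) = ∑ x ∈ D, T / 2 ^ (J + 1) := by
              rw [Finset.sum_const, nsmul_eq_mul]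
          _ ≤ ∑ x ∈ D, V x := by
              refine Finset.sum_le_sum fun x hx => ?_
              rw [hD, Finset.mem_filter, Finset.mem_Icc] at hx
              have h2 := hc x hx.1.1 hx.2.1
              have h3 : (n : ℝ) < x * 2 ^ (J + 1) := by exact_mod_cast hx.2.2
              rw [div_le_iff₀ (by positivity)]
              have hx0 : (0 : ℝ) < x := by exact_mod_cast hx.1.1
              have h7 : T * x ≤ V x * 2 ^ (J + 1) * x := by
                calc T * x ≤ V x * n := h2.le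
                  _ ≤ V x * (x * 2 ^ (J + 1)) := mul_le_mul_of_nonneg_left h3.le (hV x)
                  _ = _ := by ring
              exact le_of_mul_le_mul_right h7 hx0
          _ ≤ ∑ x ∈ Finset.Icc 1 (n / 2 ^ J), V x :=
              Finset.sum_le_sum_of_subset_of_nonneg (Finset.filter_subset _ _)
                fun x _ _ => hV x
          _ ≤ _ := hs _ (Nat.div_le_self _ _)
      have h8 : ((n / 2 ^ J : ℕ) : ℝ) ≤ n / 2 ^ J := by
        have := Nat.cast_div_le (α := ℝ) (m := n) (n := 2 ^ J)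
        push_cast at this; exact this
      rw [le_div_iff₀ hT]
      have h9 : (D.card : ℝ) * (T / 2 ^ (J + 1)) ≤ (n / 2 ^ J) * C :=
        h1.trans (mul_le_mul_of_nonneg_right h8 hC)
      have hp2 : (0 : ℝ) < 2 ^ (J + 1) := by positivity
      have h10 := mul_le_mul_of_nonneg_right h9 hp2.le
      have e1 : (D.card : ℝ) * (T / 2 ^ (J + 1)) * 2 ^ (J + 1) = D.card * T := by
        field_simp
      have e2 : ((n : ℝ) / 2 ^ J) * C * 2 ^ (J + 1) = 2 * n * C := by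
        rw [pow_succ]; field_simp
      rw [e1, e2] at h10
      exact h10
    have hcard := (Finset.card_le_card hsub).trans (Finset.card_union_le _ _)
    have hcard' : (((Finset.Icc 1 n).filter
        (fun x : ℕ => B x ∧ n < x * 2 ^ (J + 1))).card : ℝ) ≤
        (((Finset.Icc 1 n).filter (fun x : ℕ => B x ∧ n < x * 2 ^ J)).card : ℝ) + D.card := by
      exact_mod_cast hcard
    push_cast
    linarith

theorem gk_ge_quick {σ : ℝ} (hσ : 0 < σ) (Q : Finset ℕ)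
    (hQ : ∀ p ∈ Q, p.Prime ∧ (p : ℝ) ^ σ ≤ 2) (k n : ℕ) (hk : 1 ≤ k) (hn : 1 ≤ n) (J : ℕ) :
    (n : ℝ) - J * (2 * n * EQ σ Q n / (k : ℝ) ^ (1 / σ)) - n / 2 ^ J ≤ gk k n := by
  classical
  have hkr : (0 : ℝ) < k := by exact_mod_cast hk
  have hPi := cPi_pos hQ
  have hPs : cPi σ Q ^ (1 / σ) = ∏ p ∈ Q, (2 * (p : ℝ) ^ (-σ)) ^ (1 / σ) := by
    unfold cPi
    rw [Real.finsetProd_rpow]
    intro p hp
    exact (zero_le_one.trans (c_fac hQ hp))
  have hPp : 0 < cPi σ Q ^ (1 / σ) := Real.rpow_pos_of_pos hPi _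
  have hs : ∀ z, z ≤ n → ∑ x ∈ Finset.Icc 1 z, cPi σ Q ^ (1 / σ) * cV σ Q x ≤
      z * EQ σ Q n := by
    intro z hz
    rw [← Finset.mul_sum]
    have h1 := mul_le_mul_of_nonneg_left (c_sum_V hσ hQ z n hz) hPp.le
    refine h1.trans (le_of_eq ?_)
    unfold EQ
    rw [hPs]; ring
  have hC : 0 ≤ EQ σ Q n := by
    have h1 := hs n le_rfl
    have h2 : 0 ≤ ∑ x ∈ Finset.Icc 1 n, cPi σ Q ^ (1 / σ) * cV σ Q x :=
      Finset.sum_nonneg fun x _ => mul_nonneg hPp.le (cV_nonneg hσ Q x)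
    have h3 : (0 : ℝ) < n := by exact_mod_cast hn
    by_contra h4
    push Not at h4
    have := mul_neg_of_pos_of_neg h3 h4
    linarith
  have h1 := le_opt (Finset.filter_subset _ _) (c_kmf hσ hQ k n hk hn)
  rw [← gk_eq_opt] at h1
  have h2 := c_dyadic hn (fun x : ℕ => (k : ℝ) * cJf σ Q x < (n : ℝ) ^ σ * cPi σ Q)
    (fun x => cPi σ Q ^ (1 / σ) * cV σ Q x) (fun x => mul_nonneg hPp.le (cV_nonneg hσ Q x))
    (Real.rpow_pos_of_pos hkr (1 / σ)) (fun x hx hB => c_compl hσ hQ hk hx hB) hs hC J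
  set A := (Finset.Icc 1 n).filter (fun x => (n : ℝ) ^ σ * cPi σ Q ≤ k * cJf σ Q x) with hA
  set B := (Finset.Icc 1 n).filter (fun x : ℕ => (k : ℝ) * cJf σ Q x < (n : ℝ) ^ σ * cPi σ Q ∧
      n < x * 2 ^ J) with hB
  have hcov : Finset.Icc 1 n ⊆ A ∪ (B ∪ Finset.Icc 1 (n / 2 ^ J)) := by
    intro x hx
    have hx' := hx
    rw [Finset.mem_Icc] at hx'
    rw [Finset.mem_union, Finset.mem_union, hA, hB, Finset.mem_filter, Finset.mem_filter]
    by_cases h : (n : ℝ) ^ σ * cPi σ Q ≤ k * cJf σ Q x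
    · left; exact ⟨hx, h⟩
    · right
      push Not at h
      by_cases h' : n < x * 2 ^ J
      · left; exact ⟨hx, h, h'⟩
      · right
        push Not at h'
        rw [Finset.mem_Icc]
        refine ⟨hx'.1, ?_⟩
        rw [Nat.le_div_iff_mul_le (by positivity)]
        exact h'
  have h3 := Finset.card_le_card hcov
  have h4 := Finset.card_union_le A (B ∪ Finset.Icc 1 (n / 2 ^ J))
  have h5 := Finset.card_union_le B (Finset.Icc 1 (n / 2 ^ J))
  rw [Nat.card_Icc, Nat.add_sub_cancel] at h3 h5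
  have h6 : (n : ℝ) ≤ A.card + (B.card + ((n / 2 ^ J : ℕ) : ℝ)) := by
    exact_mod_cast (h3.trans (h4.trans (Nat.add_le_add_left h5 _)))
  have h7 : ((n / 2 ^ J : ℕ) : ℝ) ≤ n / 2 ^ J := by
    have := Nat.cast_div_le (α := ℝ) (m := n) (n := 2 ^ J)
    push_cast at this; exact this
  have h8 : (A.card : ℝ) ≤ gk k n := by exact_mod_cast h1
  linarith

end Pool.Agent.H96.LK3
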