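import Pool.Agent.H96.LK3.Core
import Pool.Agent.H96.KMF.Upper

/-!
# LK3 Conv: from families of sets of primes to the limit density
-/

set_option autoImplicit false

namespace Pool.Agent.H96.LK3

open Finset Filter Topology Pool.Agent.H96.KMF

private lemma Conv_inj {P D D' : Finset ℕ} (hP : ∀ p ∈ P, p.Prime) (h1 : D ⊆ P) (h2 : D' ⊆ P)
    (h : ∏ p ∈ D, p = ∏ p ∈ D', p) : D = D' := by
  rw [← Nat.primeFactors_prod fun p hp => hP p (h1 hp),
    ← Nat.primeFactors_prod fun p hp => hP p (h2 hp), h]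

private lemma Conv_pos {P D : Finset ℕ} (hP : ∀ p ∈ P, p.Prime) (h1 : D ⊆ P) :
    0 < ∏ p ∈ D, p := Finset.prod_pos fun p hp => (hP p (h1 hp)).pos

private lemma Conv_smo {P D : Finset ℕ} (hP : ∀ p ∈ P, p.Prime) (h1 : D ⊆ P) :
    Smo (∏ p ∈ P, p) (∏ p ∈ D, p) :=
  ⟨(Conv_pos hP h1).ne', fun _ _ hp => hp.trans (Finset.prod_dvd_prod_of_subset _ _ _ h1)⟩

private lemma Conv_fam {P : Finset ℕ} (hP : ∀ p ∈ P, p.Prime) {k t : ℕ} (ht : 0 < t)
    {A : Finset ℕ} (hA : KMultipleFree k A) :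
    ∀ M ∈ P.powerset.filter (fun M => t * ∏ p ∈ M, p ∈ A), M ⊆ P →
      (M.powerset.filter (fun D => D ∈ P.powerset.filter (fun M => t * ∏ p ∈ M, p ∈ A))).card
        ≤ k := by
  classical
  intro M hM hMP
  rw [Finset.mem_filter] at hM
  have h1 := (kmf_iff k A).mp hA _ hM.2
  have h2 : ((M.powerset.filter (fun D => D ∈ P.powerset.filter
      (fun M => t * ∏ p ∈ M, p ∈ A))).erase M).image (fun D => t * ∏ p ∈ D, p) ⊆
      A.filter (fun b => b ∣ t * ∏ p ∈ M, p ∧ b ≠ t * ∏ p ∈ M, p) := by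
    intro b hb
    rw [Finset.mem_image] at hb
    obtain ⟨D, hD, rfl⟩ := hb
    rw [Finset.mem_erase, Finset.mem_filter, Finset.mem_filter, Finset.mem_powerset] at hD
    rw [Finset.mem_filter]
    refine ⟨hD.2.2.2, Nat.mul_dvd_mul_left t
      (Finset.prod_dvd_prod_of_subset _ _ _ hD.2.1), fun h => hD.1 ?_⟩
    exact Conv_inj hP (hD.2.1.trans hMP) hMP (Nat.eq_of_mul_eq_mul_left ht h)
  have h3 := Finset.card_le_card h2
  rw [Finset.card_image_of_injOn] at h3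
  · have hmem : M ∈ M.powerset.filter (fun D => D ∈ P.powerset.filter
        (fun M => t * ∏ p ∈ M, p ∈ A)) := by
      rw [Finset.mem_filter, Finset.mem_filter]
      exact ⟨Finset.mem_powerset.mpr (Finset.Subset.refl M), hM⟩
    rw [Finset.card_erase_of_mem hmem] at h3
    omega
  · intro D hD D' hD' h
    rw [Finset.mem_coe, Finset.mem_erase, Finset.mem_filter, Finset.mem_powerset] at hD hD'
    exact Conv_inj hP (hD.2.1.trans hMP) (hD'.2.1.trans hMP) (Nat.eq_of_mul_eq_mul_left ht h)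

private lemma Conv_gk (P : Finset ℕ) (hP : ∀ p ∈ P, p.Prime) (k m n : ℕ) (hm : 1 ≤ m) (B : ℝ)
    (hB : ∀ S : Finset (Finset ℕ),
      (∀ A ∈ S, A ⊆ P → (A.powerset.filter (fun D => D ∈ S)).card ≤ k) →
      B ≤ ((P.powerset.filter (fun M => ∏ p ∈ M, p ≤ m ∧ M ∉ S)).card : ℝ)) :
    (gk k n : ℝ) + B * cnt (∏ p ∈ P, p) (n / m) ≤ n := by
  classical
  obtain ⟨A, hA, hAf, hAc⟩ := exists_opt k (Finset.Icc 1 n)
  set N := ∏ p ∈ P, p with hN
  set G : ℕ → Finset (Finset ℕ) := fun t => P.powerset.filter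
    (fun M => ∏ p ∈ M, p ≤ m ∧ M ∉ P.powerset.filter (fun M => t * ∏ p ∈ M, p ∈ A)) with hG
  have h1 : ∀ t ∈ rgh N (n / m), B ≤ ((G t).card : ℝ) := by
    intro t ht
    rw [mem_rgh] at ht
    exact hB _ (Conv_fam hP ht.1.1 hAf)
  have h2 : B * cnt N (n / m) ≤ (((rgh N (n / m)).sigma G).card : ℝ) := by
    rw [Finset.card_sigma]
    push_cast
    calc B * cnt N (n / m) = ∑ t ∈ rgh N (n / m), B := by
          rw [Finset.sum_const, nsmul_eq_mul]; unfold cnt; ring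
      _ ≤ _ := Finset.sum_le_sum h1
  have h3 : ((rgh N (n / m)).sigma G).card ≤ (Finset.Icc 1 n \ A).card := by
    apply Finset.card_le_card_of_injOn (fun x => x.1 * ∏ p ∈ x.2, p)
    · rintro ⟨t, M⟩ hx
      rw [Finset.mem_coe, Finset.mem_sigma] at hx
      obtain ⟨ht, hM⟩ := hx
      dsimp only at ht hM
      rw [hG, Finset.mem_filter, Finset.mem_filter, Finset.mem_powerset] at hM
      rw [mem_rgh] at ht
      have hp := Conv_pos hP hM.1
      rw [Finset.mem_coe, Finset.mem_sdiff, Finset.mem_Icc]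
      refine ⟨⟨Nat.mul_pos ht.1.1 hp, ?_⟩, fun h => hM.2.2 ⟨hM.1, h⟩⟩
      calc t * ∏ p ∈ M, p ≤ (n / m) * m := Nat.mul_le_mul ht.1.2 hM.2.1
        _ ≤ n := Nat.div_mul_le_self n m
    · rintro ⟨t, M⟩ hx ⟨t', M'⟩ hx' h
      rw [Finset.mem_coe, Finset.mem_sigma] at hx hx'
      obtain ⟨ht, hM⟩ := hx
      obtain ⟨ht', hM'⟩ := hx'
      dsimp only at ht hM ht' hM' h
      rw [hG, Finset.mem_filter, Finset.mem_powerset] at hM hM'
      rw [mem_rgh] at ht ht'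
      obtain ⟨e1, e2⟩ := decomp_unique ht.2 ht'.2 (Conv_smo hP hM.1) (Conv_smo hP hM'.1) h
      have e3 := Conv_inj hP hM.1 hM'.1 e2
      subst e1 e3
      rfl
  rw [gk_eq_opt, ← hAc]
  have h4 := Finset.card_sdiff_of_subset hA
  have h5 := Finset.card_le_card hA
  rw [Nat.card_Icc] at h4 h5
  have h6 : ((rgh N (n / m)).sigma G).card + A.card ≤ n := by omega
  have h7 : (((rgh N (n / m)).sigma G).card : ℝ) + A.card ≤ n := by exact_mod_cast h6
  linarith

/-- If every family `S` of subsets of `P` in which no member has more than `k` subsets in `S` misses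
at least `B` of the sets with product at most `mr` then `1 - c_k ≥ B / (X mr)`. -/
theorem conv (P : Finset ℕ) (hP : ∀ p ∈ P, p.Prime) (X : ℕ) (hX : 1 ≤ X)
    (hPX : ∀ p ∈ P, p ≤ X) (k : ℕ) (mr B : ℝ) (hm : 1 ≤ mr) (hB0 : 0 ≤ B)
    (hB : ∀ S : Finset (Finset ℕ),
      (∀ A ∈ S, A ⊆ P → (A.powerset.filter (fun D => D ∈ S)).card ≤ k) →
      B ≤ ((P.powerset.filter (fun M => ((∏ p ∈ M, p : ℕ) : ℝ) ≤ mr ∧ M ∉ S)).card : ℝ))
    (c : ℝ) (hc : Tendsto (fun n : ℕ => (gk k n : ℝ) / n) atTop (𝓝 c)) :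
    B / (X * mr) ≤ 1 - c := by
  classical
  set m := ⌊mr⌋₊ with hmdef
  have hm1 : 1 ≤ m := Nat.le_floor (by exact_mod_cast hm)
  have hmr : (m : ℝ) ≤ mr := Nat.floor_le (by linarith)
  set N := ∏ p ∈ P, p with hN
  have hN1 : 0 < N := Finset.prod_pos fun p hp => (hP p hp).pos
  have hB' : ∀ S : Finset (Finset ℕ),
      (∀ A ∈ S, A ⊆ P → (A.powerset.filter (fun D => D ∈ S)).card ≤ k) →
      B ≤ ((P.powerset.filter (fun M => ∏ p ∈ M, p ≤ m ∧ M ∉ S)).card : ℝ) := by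
    intro S hS
    refine (hB S hS).trans ?_
    have : P.powerset.filter (fun M => ((∏ p ∈ M, p : ℕ) : ℝ) ≤ mr ∧ M ∉ S) ⊆
        P.powerset.filter (fun M => ∏ p ∈ M, p ≤ m ∧ M ∉ S) := by
      intro M hM
      rw [Finset.mem_filter] at hM ⊢
      exact ⟨hM.1, Nat.le_floor hM.2.1, hM.2.2⟩
    exact_mod_cast Finset.card_le_card this
  have h1 := hc.add ((tendsto_cnt_div N m hN1 (by omega)).const_mul B)
  have h2 : c + B * ((Nat.totient N : ℝ) / N * (1 / m)) ≤ 1 := by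
    refine le_of_tendsto' h1 fun n => ?_
    rcases Nat.eq_zero_or_pos n with rfl | hn
    · simp
    · have hnr : (0 : ℝ) < n := by exact_mod_cast hn
      have h3 := Conv_gk P hP k m n hm1 B hB'
      rw [← mul_div_assoc, ← add_div, div_le_one hnr]
      exact h3
  have h3 : 1 / (X : ℝ) ≤ (Nat.totient N : ℝ) / N := by
    rw [hN, prod_primes_totient P hP]
    exact prod_lower P X hX fun p hp => ⟨(hP p hp).two_le, hPX p hp⟩
  have hXr : (0 : ℝ) < X := by exact_mod_cast hX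
  have hmr0 : (0 : ℝ) < m := by exact_mod_cast hm1
  have h4 : 1 / mr ≤ 1 / (m : ℝ) := one_div_le_one_div_of_le hmr0 hmr
  have h5 : 1 / (X : ℝ) * (1 / mr) ≤ (Nat.totient N : ℝ) / N * (1 / m) :=
    mul_le_mul h3 h4 (by positivity) (by positivity)
  have h6 := mul_le_mul_of_nonneg_left h5 hB0
  have h7 : B * (1 / (X : ℝ) * (1 / mr)) = B / (X * mr) := by
    rw [one_div_mul_one_div, mul_one_div]
  rw [h7] at h6
  linarith

end Pool.Agent.H96.LK3
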