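import Pool.Agent.H96.LK3.Tail

/-!
# LK3 Core: the finite counting lemma

`S` is a family of subsets of `P` such that every member of `S` has at most `k` subsets in `S`.
Joint weight of `(A, D)`, `D ⊆ A ⊆ P`: `W P q A * 2^{-|A|}`.  Its first marginal is `W P q`, its
second marginal is `W P (q/2)` (`∑_{D ⊆ A ⊆ P} W P q A 2^{-|A|} = W P (q/2) D`,
`Finset.prod_add` on `P \ D`).  If `A ∈ S` and `|A| ≥ r` then the part of the `D ⊆ A` in `S` is at
most `k 2^{-|A|} ≤ k 2^{-r} ≤ 1/4`.  So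
`1 ≤ W(|A| < r) + W(∏ A > m) + 1/4 + W P q (R) + W P (q/2) (R)`,
`R = {M ⊆ P : ∏ M ≤ m, M ∉ S}` (`∏ D ≤ ∏ A`), one of the last two is `≥ 1/4`, and `W_family_le`
(with `exp (-η δ + η^2 |P|) ≤ 1/8`, as `exp 3 ≥ 8`) gives `|R| ≥ exp (E - δ) / 8`.
-/

set_option autoImplicit false

namespace Pool.Agent.H96.LK3

open Finset Filter Topology

private theorem core_nonneg {P : Finset ℕ} {q : ℕ → ℝ} (hq : ∀ p ∈ P, 0 ≤ q p ∧ q p ≤ 1)
    {A : Finset ℕ} (hA : A ⊆ P) : 0 ≤ W P q A := by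
  unfold W
  refine mul_nonneg (prod_nonneg fun p hp => (hq p (hA hp)).1) (prod_nonneg fun p hp => ?_)
  have := (hq p (mem_sdiff.1 hp).1).2
  linarith

private theorem core_sum (P : Finset ℕ) (q : ℕ → ℝ) : ∑ A ∈ P.powerset, W P q A = 1 := by
  unfold W
  rw [← prod_add]
  refine prod_eq_one fun p _ => ?_
  ring

private theorem core_half (q : ℕ → ℝ) (D : Finset ℕ) :
    ∏ p ∈ D, q p / 2 = (∏ p ∈ D, q p) * (1 / 2 : ℝ) ^ D.card := by
  rw [← prod_const, ← prod_mul_distrib]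
  refine prod_congr rfl fun p _ => ?_
  ring

private theorem core_marg {P : Finset ℕ} (q : ℕ → ℝ) {D : Finset ℕ} (hD : D ⊆ P) :
    ∑ A ∈ P.powerset.filter (fun A => D ⊆ A), W P q A * (1 / 2 : ℝ) ^ A.card =
      W P (fun p => q p / 2) D := by
  have h1 : W P (fun p => q p / 2) D =
      ∑ B ∈ (P \ D).powerset, (∏ p ∈ D, q p / 2) *
        ((∏ p ∈ B, q p / 2) * ∏ p ∈ (P \ D) \ B, (1 - q p)) := by
    unfold W
    rw [← mul_sum, ← prod_add]
    congr 1
    refine prod_congr rfl fun p _ => ?_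
    ring
  rw [h1]
  refine sum_nbij' (fun A => A \ D) (fun B => D ∪ B) ?_ ?_ ?_ ?_ ?_
  · intro A hA
    rw [mem_filter, mem_powerset] at hA
    rw [mem_powerset]
    exact sdiff_subset_sdiff hA.1 subset_rfl
  · intro B hB
    rw [mem_powerset] at hB
    rw [mem_filter, mem_powerset]
    exact ⟨union_subset hD (hB.trans sdiff_subset), subset_union_left⟩
  · intro A hA
    rw [mem_filter] at hA
    exact union_sdiff_of_subset hA.2
  · intro B hB
    rw [mem_powerset] at hB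
    have h2 : Disjoint D B := disjoint_of_subset_right hB disjoint_sdiff
    exact union_sdiff_cancel_left h2
  · intro A hA
    rw [mem_filter, mem_powerset] at hA
    have h2 : (P \ D) \ (A \ D) = P \ A := by
      ext p
      simp only [Finset.mem_sdiff]
      constructor
      · rintro ⟨⟨h3, h4⟩, h5⟩
        exact ⟨h3, fun h6 => h5 ⟨h6, h4⟩⟩
      · rintro ⟨h3, h4⟩
        exact ⟨⟨h3, fun h5 => h4 (hA.2 h5)⟩, fun h5 => h4 h5.1⟩
    have h3 : ∏ p ∈ A, q p / 2 = (∏ p ∈ A \ D, q p / 2) * ∏ p ∈ D, q p / 2 :=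
      (prod_sdiff hA.2).symm
    rw [h2]
    unfold W
    calc (∏ p ∈ A, q p) * (∏ p ∈ P \ A, (1 - q p)) * (1 / 2 : ℝ) ^ A.card
        = ((∏ p ∈ A, q p) * (1 / 2 : ℝ) ^ A.card) * ∏ p ∈ P \ A, (1 - q p) := by ring
      _ = (∏ p ∈ A, q p / 2) * ∏ p ∈ P \ A, (1 - q p) := by rw [core_half]
      _ = _ := by
        rw [h3]
        ring

private theorem core_prod_le {P : Finset ℕ} (hP : ∀ p ∈ P, p.Prime) {A D : Finset ℕ} (hA : A ⊆ P)
    (hD : D ⊆ A) : ((∏ p ∈ D, p : ℕ) : ℝ) ≤ ((∏ p ∈ A, p : ℕ) : ℝ) := by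
  have h1 : ∏ p ∈ D, p ∣ ∏ p ∈ A, p := prod_dvd_prod_of_subset _ _ _ hD
  have h2 : 0 < ∏ p ∈ A, p := prod_pos fun p hp => (hP p (hA hp)).pos
  exact_mod_cast Nat.le_of_dvd h2 h1

theorem core (P : Finset ℕ) (hP : ∀ p ∈ P, p.Prime) (q : ℕ → ℝ)
    (hq : ∀ p ∈ P, 0 ≤ q p ∧ q p ≤ 1) (k : ℕ) (S : Finset (Finset ℕ))
    (hS : ∀ A ∈ S, A ⊆ P → (A.powerset.filter (fun D => D ∈ S)).card ≤ k)
    (r m η δ E : ℝ)
    (h1 : ∑ A ∈ P.powerset.filter (fun A => (A.card : ℝ) < r), W P q A ≤ 1 / 8)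
    (h2 : ∑ A ∈ P.powerset.filter (fun A => m < ((∏ p ∈ A, p : ℕ) : ℝ)), W P q A ≤ 1 / 8)
    (h3 : 4 * (k : ℝ) ≤ (2 : ℝ) ^ r)
    (h4 : 0 < η) (h5 : η ≤ 1) (h6 : -η * δ + η ^ 2 * P.card ≤ -3)
    (h7 : E ≤ ∑ p ∈ P, Real.binEntropy (q p)) (h8 : E ≤ ∑ p ∈ P, Real.binEntropy (q p / 2)) :
    Real.exp (E - δ) / 8 ≤
      ((P.powerset.filter (fun M => ((∏ p ∈ M, p : ℕ) : ℝ) ≤ m ∧ M ∉ S)).card : ℝ) := by
  set R : Finset (Finset ℕ) := P.powerset.filter (fun M => ((∏ p ∈ M, p : ℕ) : ℝ) ≤ m ∧ M ∉ S)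
    with hR
  have hRP : R ⊆ P.powerset := filter_subset _ _
  have hW : ∀ A ∈ P.powerset, 0 ≤ W P q A := fun A hA => core_nonneg hq (mem_powerset.1 hA)
  have hhalf : ∀ A : Finset ℕ, (0 : ℝ) < (1 / 2 : ℝ) ^ A.card := fun A => by positivity
  -- the pointwise inequality
  have hpt : ∀ A ∈ P.powerset, W P q A ≤ (if (A.card : ℝ) < r then W P q A else 0) +
      (if m < ((∏ p ∈ A, p : ℕ) : ℝ) then W P q A else 0) + (if A ∈ R then W P q A else 0) +
      1 / 4 * W P q A + ∑ D ∈ R, if D ⊆ A then W P q A * (1 / 2 : ℝ) ^ A.card else 0 := by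
    intro A hA
    have hA0 := hW A hA
    have hi1 : 0 ≤ (if (A.card : ℝ) < r then W P q A else 0) := by split_ifs <;> simp [hA0]
    have hi2 : 0 ≤ (if m < ((∏ p ∈ A, p : ℕ) : ℝ) then W P q A else 0) := by
      split_ifs <;> simp [hA0]
    have hi3 : 0 ≤ (if A ∈ R then W P q A else 0) := by split_ifs <;> simp [hA0]
    have hi4 : 0 ≤ ∑ D ∈ R, if D ⊆ A then W P q A * (1 / 2 : ℝ) ^ A.card else 0 := by
      refine sum_nonneg fun D _ => ?_
      split_ifs
      · exact mul_nonneg hA0 (hhalf A).le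
      · exact le_rfl
    by_cases hc1 : (A.card : ℝ) < r
    · rw [if_pos hc1]
      linarith
    by_cases hc2 : m < ((∏ p ∈ A, p : ℕ) : ℝ)
    · rw [if_pos hc2]
      linarith
    by_cases hc3 : A ∈ R
    · rw [if_pos hc3]
      linarith
    have hAP : A ⊆ P := mem_powerset.1 hA
    have hAS : A ∈ S := by
      by_contra hn
      exact hc3 (mem_filter.2 ⟨hA, not_lt.1 hc2, hn⟩)
    have hk := hS A hAS hAP
    have e1 : (A.powerset.filter (fun D => D ∈ S)).card + (A.powerset.filter (fun D => D ∉ S)).card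
        = 2 ^ A.card := by
      rw [card_filter_add_card_filter_not, card_powerset]
    have e2 : A.powerset.filter (fun D => D ∉ S) ⊆ R.filter (fun D => D ⊆ A) := by
      intro D hD
      rw [mem_filter, mem_powerset] at hD
      rw [mem_filter, hR, mem_filter, mem_powerset]
      exact ⟨⟨hD.1.trans hAP, (core_prod_le hP hAP hD.1).trans (not_lt.1 hc2), hD.2⟩, hD.1⟩
    have e3 : (2 : ℝ) ^ A.card ≤ k + ((R.filter (fun D => D ⊆ A)).card : ℝ) := by
      have e4 : 2 ^ A.card ≤ k + (R.filter (fun D => D ⊆ A)).card := by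
        rw [← e1]
        exact add_le_add hk (card_le_card e2)
      exact_mod_cast e4
    have e4 : (2 : ℝ) ^ r ≤ (2 : ℝ) ^ A.card := by
      rw [← Real.rpow_natCast]
      exact Real.rpow_le_rpow_of_exponent_le (by norm_num) (not_lt.1 hc1)
    have e5 : ∑ D ∈ R, (if D ⊆ A then W P q A * (1 / 2 : ℝ) ^ A.card else 0) =
        ((R.filter (fun D => D ⊆ A)).card : ℝ) * (W P q A * (1 / 2 : ℝ) ^ A.card) := by
      rw [← sum_filter, sum_const, nsmul_eq_mul]
    have e6 : (2 : ℝ) ^ A.card * (1 / 2 : ℝ) ^ A.card = 1 := by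
      rw [← mul_pow]
      norm_num
    have e7 : 3 / 4 ≤ ((R.filter (fun D => D ⊆ A)).card : ℝ) * (1 / 2 : ℝ) ^ A.card := by
      have e8 : 3 / 4 * (2 : ℝ) ^ A.card ≤ ((R.filter (fun D => D ⊆ A)).card : ℝ) := by linarith
      calc (3 / 4 : ℝ) = 3 / 4 * (2 : ℝ) ^ A.card * (1 / 2 : ℝ) ^ A.card := by
            rw [mul_assoc, e6, mul_one]
        _ ≤ _ := mul_le_mul_of_nonneg_right e8 (hhalf A).le
    have e8 : 3 / 4 * W P q A ≤ ∑ D ∈ R, (if D ⊆ A then W P q A * (1 / 2 : ℝ) ^ A.card else 0) := by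
      rw [e5]
      calc 3 / 4 * W P q A ≤ ((R.filter (fun D => D ⊆ A)).card : ℝ) * (1 / 2 : ℝ) ^ A.card *
            W P q A := mul_le_mul_of_nonneg_right e7 hA0
        _ = _ := by ring
    linarith
  -- the sum
  have hsum := sum_le_sum hpt
  rw [sum_add_distrib, sum_add_distrib, sum_add_distrib, sum_add_distrib, ← mul_sum, core_sum,
    ← sum_filter, ← sum_filter, ← sum_filter] at hsum
  have hRf : P.powerset.filter (fun A => A ∈ R) = R := by
    ext A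
    rw [mem_filter]
    exact ⟨fun h => h.2, fun h => ⟨hRP h, h⟩⟩
  have hcomm : ∑ A ∈ P.powerset, ∑ D ∈ R, (if D ⊆ A then W P q A * (1 / 2 : ℝ) ^ A.card else 0) =
      ∑ D ∈ R, W P (fun p => q p / 2) D := by
    rw [sum_comm]
    refine sum_congr rfl fun D hD => ?_
    rw [← sum_filter]
    exact core_marg q (mem_powerset.1 (hRP hD))
  rw [hRf, hcomm] at hsum
  have hw : 1 / 2 ≤ ∑ A ∈ R, W P q A + ∑ D ∈ R, W P (fun p => q p / 2) D := by linarith
  have hexp3 : Real.exp (-η * δ + η ^ 2 * P.card) ≤ 1 / 8 := by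
    have e1 : Real.exp (-η * δ + η ^ 2 * P.card) ≤ Real.exp (-3) := Real.exp_le_exp.2 h6
    have e2 : (8 : ℝ) ≤ Real.exp 3 := by
      have e3 : Real.exp 3 = Real.exp 1 ^ 3 := by
        rw [← Real.exp_nat_mul]
        norm_num
      have e4 : (2 : ℝ) ≤ Real.exp 1 := by
        have := Real.exp_one_gt_d9
        linarith
      rw [e3]
      calc (8 : ℝ) = 2 ^ 3 := by norm_num
        _ ≤ _ := pow_le_pow_left₀ (by norm_num) e4 3
    have e3 : Real.exp (-3) ≤ 1 / 8 := by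
      rw [Real.exp_neg, inv_eq_one_div]
      exact one_div_le_one_div_of_le (by norm_num) e2
    exact e1.trans e3
  have hfin : ∀ H : ℝ, E ≤ H → 1 / 4 ≤ Real.exp (-H + δ) * R.card +
      Real.exp (-η * δ + η ^ 2 * P.card) → Real.exp (E - δ) / 8 ≤ (R.card : ℝ) := by
    intro H hH h9
    have e1 : Real.exp (-H + δ) ≤ Real.exp (-(E - δ)) := Real.exp_le_exp.2 (by linarith)
    have e2 : 1 / 8 ≤ Real.exp (-(E - δ)) * R.card := by
      have := mul_le_mul_of_nonneg_right e1 (Nat.cast_nonneg R.card)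
      linarith
    have e3 : Real.exp (E - δ) * Real.exp (-(E - δ)) = 1 := by
      rw [← Real.exp_add]
      simp
    have e4 := mul_le_mul_of_nonneg_left e2 (Real.exp_pos (E - δ)).le
    rw [← mul_assoc, e3, one_mul] at e4
    linarith
  rcases le_total (1 / 4) (∑ A ∈ R, W P q A) with h9 | h9
  · exact hfin _ h7 (h9.trans (W_family_le P q hq R hRP η δ h4 h5))
  · have h10 : 1 / 4 ≤ ∑ D ∈ R, W P (fun p => q p / 2) D := by linarith
    refine hfin _ h8 (h10.trans (W_family_le P (fun p => q p / 2) (fun p hp => ?_) R hRP η δ h4 h5))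
    have := hq p hp
    show 0 ≤ q p / 2 ∧ q p / 2 ≤ 1
    constructor <;> linarith

end Pool.Agent.H96.LK3
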