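import Pool.Agent.H96.KMF.ESum

/-!
# Project LK3 (MP_afae12_nt): the density of `k`-multiple-free sets for large `k`, third term

Aim: `-log (1 - c_k) * (log 2 / log k) = log log k + log log log k - log (1 + π/2) - log log 2 - 1
+ o(1)`.

Both bounds are expressed through `Lam y = ∑_{p ≤ y} log (2y/p) + ∑_{p > y} log (1 + (y/p)^2)` and
its derivative `rb y = ∑_p fa y p`.
-/

set_option autoImplicit false

namespace Pool.Agent.H96.LK3

open Finset Filter Topology Pool.Agent.H96.KMF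

/-- the primes up to `X`. -/
noncomputable def PP (X : ℝ) : Finset ℕ := Nat.primesLE ⌊X⌋₊

/-- probability that `p` divides a typical bad integer. -/
noncomputable def fa (y : ℝ) (p : ℕ) : ℝ :=
  if (p : ℝ) ≤ y then 1 else 2 / (1 + ((p : ℝ) / y) ^ 2)

/-- `log (2y/p)` for `p ≤ y` and `log (1 + (y/p)^2)` for `p > y`. -/
noncomputable def la (y : ℝ) (p : ℕ) : ℝ :=
  if (p : ℝ) ≤ y then Real.log (2 * y / p) else Real.log (1 + (y / p) ^ 2)

noncomputable def rb (y K : ℝ) : ℝ := ∑ p ∈ PP (K * y), fa y p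

noncomputable def Lam (y K : ℝ) : ℝ := ∑ p ∈ PP (K * y), la y p

/-- the primes `p ≤ y` with `p > y^{4/5}`. -/
noncomputable def QY (y : ℝ) : Finset ℕ := (PP y).filter (fun p : ℕ => y ^ 4 < (p : ℝ) ^ 5)

/-- the Euler product of the new construction (`Q` is a finite set of primes `p`, `p^σ ≤ 2`). -/
noncomputable def EQ (σ : ℝ) (Q : Finset ℕ) (z : ℕ) : ℝ :=
  (∏ p ∈ Q, (2 * (p : ℝ) ^ (-σ)) ^ (1 / σ)) *
    ∏ p ∈ Nat.primesBelow (z + 1),
      (if p ∈ Q then 2 + ww σ p / (p : ℝ) ^ 2 else 1 + (ww σ p - 1) / p)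

/-- product weight of a subset `A` of `P`. -/
noncomputable def W (P : Finset ℕ) (q : ℕ → ℝ) (A : Finset ℕ) : ℝ :=
  (∏ p ∈ A, q p) * ∏ p ∈ P \ A, (1 - q p)

end Pool.Agent.H96.LK3
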