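import Pool.Agent.H96.LK3.Defs

/-!
# LK3 EQB: bound of the Euler product `EQ`

`σ = log 2 / log y`, `Q = QY y` (primes with `y^4 < p^5`, `p ≤ y`), `(2 p^{-σ})^{1/σ} = y / p`.
Logarithms of the factors:
* `p ∈ Q`: `log (y/p) + log (2 + ww/p^2) ≤ log (2y/p) + y^3/(2 p^4)` (`ww_region2`), and
  `y^3/p^4 ≤ y^{-1/5}`, so the sum of the second terms is at most `y^{4/5}`.
  (The primes of `Q` above `z` contribute `y/p ≤ 2y/p`.)
* `p ≤ y`, `p ∉ Q`: at most `y^{4/5}` primes, each at most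
  `7 log^2 y + log 2 + 3 log y` (`factor_le`, `bb`).
* `y < p ≤ Ky`: `ww/p ≤ (y/p)^2 exp δ` with `δ = log^2 K * log 2 / log y → 0`: with
  `a = σ log (p/y)`, `p^{-σ} = exp (-a) / 2`, `1 - p^{-σ} = (2 - exp (-a)) / 2` and
  `log (2 - exp (-a)) ≥ a - a^2`; `log (1 + (y/p)^2 e^δ) ≤ log (1 + (y/p)^2) + δ`.  The number
  of these primes is at most `5 K y / log y`.
* `p > Ky`: as in `H96/KMF/ESum.lean`: `∑ (y/p)^{3/2} ≤ 100 K^{-1/2} y / log y` over
  `Ky < p ≤ y^2` (`sum_c'` with `Ky` in the place of `y`), and `sum_d`.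
-/

set_option autoImplicit false

namespace Pool.Agent.H96.LK3

open Finset Filter Topology Pool.Agent.H96.KMF

private lemma EQB_two {y : ℝ} (hy : 1 < y) {p : ℕ} (hp : 0 < p) :
    (2 * (p : ℝ) ^ (-(Real.log 2 / Real.log y))) ^ (1 / (Real.log 2 / Real.log y)) = y / p := by
  have hΛ : 0 < Real.log y := Real.log_pos hy
  have hl2 : 0 < Real.log 2 := Real.log_pos (by norm_num)
  have hpr : (0 : ℝ) < p := by exact_mod_cast hp
  have hσ : Real.log 2 / Real.log y ≠ 0 := by positivity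
  rw [Real.mul_rpow (by norm_num) (by positivity), two_rpow_inv hy, ← Real.rpow_mul hpr.le,
    neg_mul, mul_one_div_cancel hσ, Real.rpow_neg_one]
  rfl

private lemma EQB_log {a : ℝ} (ha : 0 ≤ a) : a - a ^ 2 ≤ Real.log (2 - Real.exp (-a)) := by
  set s := 1 - Real.exp (-a) with hs
  have h1 : Real.exp (-a) ≤ 1 - a + a ^ 2 / 2 := by
    have e1 := Real.quadratic_le_exp_of_nonneg ha
    have e2 : Real.exp (-a) * Real.exp a = 1 := by rw [← Real.exp_add]; simp
    have e3 : 0 < Real.exp (-a) := Real.exp_pos _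
    have e4 : (1 + a + a ^ 2 / 2) * Real.exp (-a) ≤ 1 := by
      have := mul_le_mul_of_nonneg_left e1 e3.le
      linarith
    have e5 : 1 ≤ (1 + a + a ^ 2 / 2) * (1 - a + a ^ 2 / 2) := by
      have : (1 + a + a ^ 2 / 2) * (1 - a + a ^ 2 / 2) = 1 + a ^ 4 / 4 := by ring
      rw [this]
      have : 0 ≤ a ^ 4 := by positivity
      linarith
    have e6 : 0 < 1 + a + a ^ 2 / 2 := by positivity
    exact le_of_mul_le_mul_left (e4.trans e5) e6
  have hs0 : 0 ≤ s := by
    have := Real.exp_le_one_iff.2 (by linarith : -a ≤ 0)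
    linarith
  have hsa : s ≤ a := by
    have := Real.add_one_le_exp (-a)
    linarith
  have h2 := Real.le_log_one_add_of_nonneg hs0
  have h3 : s - s ^ 2 / 2 ≤ 2 * s / (s + 2) := by
    rw [le_div_iff₀ (by linarith)]
    nlinarith [pow_nonneg hs0 3]
  have h4 : 1 + s = 2 - Real.exp (-a) := by rw [hs]; ring
  rw [h4] at h2
  nlinarith

private lemma EQB_mid {y K : ℝ} (hy : 1 < y) {p : ℕ} (h1 : y < p)
    (h2 : (p : ℝ) ≤ K * y) :
    ww (Real.log 2 / Real.log y) p / p ≤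
      (y / p) ^ 2 * Real.exp (Real.log 2 / Real.log y * Real.log K ^ 2) := by
  have hΛ : 0 < Real.log y := Real.log_pos hy
  have hl2 : 0 < Real.log 2 := Real.log_pos (by norm_num)
  have hpr : (0 : ℝ) < p := by linarith
  have hy0 : 0 < y := by linarith
  set σ := Real.log 2 / Real.log y with hσd
  have hσ : 0 < σ := by positivity
  set b := Real.log (p / y) with hb
  have hb0 : 0 ≤ b := Real.log_nonneg (by rw [le_div_iff₀ hy0]; linarith)
  have hbK : b ≤ Real.log K := Real.log_le_log (by positivity) (by rw [div_le_iff₀ hy0]; exact h2)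
  have hlp : Real.log p = Real.log y + b := by
    rw [hb, Real.log_div hpr.ne' hy0.ne']; ring
  have hpσ : (p : ℝ) ^ (-σ) = Real.exp (-(σ * b)) / 2 := by
    rw [Real.rpow_def_of_pos hpr, hlp]
    have e : (Real.log y + b) * -σ = -Real.log 2 + -(σ * b) := by
      have : Real.log y * σ = Real.log 2 := by rw [hσd]; field_simp
      linear_combination -this
    rw [e, Real.exp_add, Real.exp_neg (Real.log 2), Real.exp_log (by norm_num)]
    ring
  have he1 : Real.exp (-(σ * b)) ≤ 1 := Real.exp_le_one_iff.2 (by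
    have : 0 ≤ σ * b := by positivity
    linarith)
  have hpos : 0 < 2 - Real.exp (-(σ * b)) := by linarith
  have hw : ww σ p = y * Real.exp (-(1 / σ * Real.log (2 - Real.exp (-(σ * b))))) := by
    unfold ww
    rw [hpσ]
    have e1 : 1 - Real.exp (-(σ * b)) / 2 = (2 - Real.exp (-(σ * b))) / 2 := by ring
    rw [e1, Real.rpow_def_of_pos (by positivity), Real.log_div hpos.ne' (by norm_num)]
    have e2 : (Real.log (2 - Real.exp (-(σ * b))) - Real.log 2) * -(1 / σ) =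
        Real.log y + -(1 / σ * Real.log (2 - Real.exp (-(σ * b)))) := by
      have : Real.log 2 * (1 / σ) = Real.log y := by rw [hσd]; field_simp
      linear_combination this
    rw [e2, Real.exp_add, Real.exp_log hy0]
  have hle : -(1 / σ * Real.log (2 - Real.exp (-(σ * b)))) ≤ -b + σ * Real.log K ^ 2 := by
    have e1 := EQB_log (a := σ * b) (by positivity)
    have e2 := mul_le_mul_of_nonneg_left e1 (by positivity : 0 ≤ 1 / σ)
    have e3 : 1 / σ * (σ * b - (σ * b) ^ 2) = b - σ * b ^ 2 := by field_simp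
    rw [e3] at e2
    have e4 : b ^ 2 ≤ Real.log K ^ 2 := pow_le_pow_left₀ hb0 hbK 2
    have e5 := mul_le_mul_of_nonneg_left e4 hσ.le
    linarith
  have hexp : Real.exp (-b) = y / p := by
    rw [Real.exp_neg, hb, Real.exp_log (by positivity), inv_div]
  rw [hw, div_le_iff₀ hpr]
  calc y * Real.exp (-(1 / σ * Real.log (2 - Real.exp (-(σ * b))))) ≤
        y * Real.exp (-b + σ * Real.log K ^ 2) :=
        mul_le_mul_of_nonneg_left (Real.exp_le_exp.2 hle) hy0.le
    _ = (y / p) ^ 2 * Real.exp (σ * Real.log K ^ 2) * p := by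
        rw [Real.exp_add, hexp]
        field_simp

private lemma EQB_mem {y : ℝ} {p : ℕ} (hy : 0 ≤ y) :
    p ∈ PP y ↔ (p : ℝ) ≤ y ∧ p.Prime := by
  rw [PP, Nat.mem_primesLE, Nat.le_floor_iff hy]

/-- the factors with `p ∈ Q`. -/
private lemma EQB_Q {y : ℝ} (hy : 1 < y) {p : ℕ} (hp : p ∈ QY y) :
    (y / p) * (2 + ww (Real.log 2 / Real.log y) p / (p : ℝ) ^ 2) ≤
      Real.exp (la y p + y ^ (-(1 / 5) : ℝ)) := by
  have hy0 : 0 < y := by linarith
  rw [QY, Finset.mem_filter, EQB_mem hy0.le] at hp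
  obtain ⟨⟨hpy, hpp⟩, h5⟩ := hp
  have hpr : (0 : ℝ) < p := by exact_mod_cast hpp.pos
  have hp1 : 1 < p := hpp.one_lt
  have hsq : y ≤ (p : ℝ) ^ 2 := by
    by_contra h
    push Not at h
    have e1 : ((p : ℝ) ^ 5) ^ 2 < y ^ 5 := by
      have : ((p : ℝ) ^ 5) ^ 2 = ((p : ℝ) ^ 2) ^ 5 := by ring
      rw [this]
      exact pow_lt_pow_left₀ h (by positivity) (by norm_num)
    have e2 : (y ^ 4) ^ 2 < ((p : ℝ) ^ 5) ^ 2 := pow_lt_pow_left₀ h5 (by positivity) (by norm_num)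
    have e3 : y ^ 5 ≤ (y ^ 4) ^ 2 := by
      rw [← pow_mul]
      exact pow_le_pow_right₀ hy.le (by norm_num)
    linarith
  have hw := ww_region2 hy hp1 hsq hpy
  have hsmall : y ^ 3 / (p : ℝ) ^ 4 ≤ y ^ (-(1 / 5) : ℝ) := by
    have e1 : (y ^ 3 / (p : ℝ) ^ 4) ^ 5 ≤ (y ^ (-(1 / 5) : ℝ)) ^ 5 := by
      have e2 : (y ^ (-(1 / 5) : ℝ)) ^ 5 = 1 / y := by
        rw [← Real.rpow_natCast, ← Real.rpow_mul hy0.le]
        norm_num
        exact Real.rpow_neg_one y
      rw [e2, div_pow, div_le_div_iff₀ (by positivity) hy0, one_mul]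
      have e3 : (y ^ 4) ^ 4 ≤ ((p : ℝ) ^ 5) ^ 4 := pow_le_pow_left₀ (by positivity) h5.le 4
      calc (y ^ 3) ^ 5 * y = (y ^ 4) ^ 4 := by ring
        _ ≤ ((p : ℝ) ^ 5) ^ 4 := e3
        _ = ((p : ℝ) ^ 4) ^ 5 := by ring
    exact le_of_pow_le_pow_left₀ (by norm_num) (by positivity) e1
  have hla : Real.exp (la y p) = 2 * y / p := by
    rw [la, if_pos hpy, Real.exp_log (by positivity)]
  rw [Real.exp_add, hla]
  have h1 : ww (Real.log 2 / Real.log y) p / (p : ℝ) ^ 2 ≤ y ^ (-(1 / 5) : ℝ) := by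
    refine le_trans ?_ hsmall
    rw [div_le_div_iff₀ (by positivity) (by positivity)]
    rw [le_div_iff₀ (by positivity)] at hw
    have := mul_le_mul_of_nonneg_right hw (by positivity : 0 ≤ (p : ℝ) ^ 2)
    calc ww (Real.log 2 / Real.log y) p * (p : ℝ) ^ 4 =
          ww (Real.log 2 / Real.log y) p * (p : ℝ) ^ 2 * (p : ℝ) ^ 2 := by ring
      _ ≤ _ := this
  have h2 := Real.add_one_le_exp (y ^ (-(1 / 5) : ℝ))
  have h3 : 0 ≤ y ^ (-(1 / 5) : ℝ) := by positivity
  calc (y / p) * (2 + ww (Real.log 2 / Real.log y) p / (p : ℝ) ^ 2) ≤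
        (y / p) * (2 * Real.exp (y ^ (-(1 / 5) : ℝ))) :=
        mul_le_mul_of_nonneg_left (by linarith) (by positivity)
    _ = 2 * y / p * Real.exp (y ^ (-(1 / 5) : ℝ)) := by ring

/-- bound for the logarithms of the other factors. -/
private noncomputable def EQB_cc (y K : ℝ) (p : ℕ) : ℝ :=
  (if (p : ℝ) ≤ y then 7 * Real.log y ^ 2 + Real.log 2 + 3 * Real.log y else 0) +
  (if y < (p : ℝ) ∧ (p : ℝ) ≤ K * y then
    la y p + Real.log 2 / Real.log y * Real.log K ^ 2 else 0) +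
  K ^ (-(3 / 2) : ℝ) * (if K * y < (p : ℝ) ∧ (p : ℝ) ≤ (K * y) ^ 2 then
    (K * y / p) ^ (3 / 2 : ℝ) else 0) +
  2 * Real.log y * Real.sqrt y * (p : ℝ) ^ (-1 - (Real.log 2 / Real.log y))

private lemma EQB_other {y K : ℝ} (hy : Real.exp 1 ≤ y) (hK : 1 ≤ K) {p : ℕ} (hp : 1 < p) :
    1 + (ww (Real.log 2 / Real.log y) p - 1) / p ≤ Real.exp (EQB_cc y K p) := by
  have hy1 : 1 < y := lt_of_lt_of_le (by
    have := Real.add_one_lt_exp (one_ne_zero); linarith) hy
  have hΛ : 0 < Real.log y := Real.log_pos hy1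
  have hl2 : 0 < Real.log 2 := Real.log_pos (by norm_num)
  have hy0 : 0 < y := by linarith
  have hpr1 : (1 : ℝ) < p := by exact_mod_cast hp
  have hpr : (0 : ℝ) < p := by linarith
  have hKy : y ≤ K * y := by nlinarith
  have hlast : 0 ≤ 2 * Real.log y * Real.sqrt y * (p : ℝ) ^ (-1 - (Real.log 2 / Real.log y)) := by
    positivity
  by_cases c1 : (p : ℝ) ≤ y
  · refine (factor_le hy hp).trans (Real.exp_le_exp.2 ?_)
    unfold bb EQB_cc
    have i1 : ¬ (y < (p : ℝ) ∧ (p : ℝ) ≤ y ^ 2) := fun h => by linarith [h.1]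
    have i2 : ¬ (y < (p : ℝ) ∧ (p : ℝ) ≤ K * y) := fun h => by linarith [h.1]
    have i3 : ¬ (K * y < (p : ℝ) ∧ (p : ℝ) ≤ (K * y) ^ 2) := fun h => by linarith [h.1]
    rw [if_pos c1, if_neg i1, if_pos c1, if_neg i2, if_neg i3]
    have e1 : (if (p : ℝ) ^ 2 < y then 7 * Real.log y ^ 2 else 0) ≤ 7 * Real.log y ^ 2 := by
      split_ifs
      · exact le_rfl
      · positivity
    have e2 : Real.log (y / p) ≤ Real.log y :=
      Real.log_le_log (by positivity) (div_le_self hy0.le hpr1.le)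
    linarith
  · push Not at c1
    by_cases c2 : (p : ℝ) ≤ K * y
    · unfold EQB_cc
      rw [if_neg (by linarith), if_pos ⟨c1, c2⟩, if_neg (by intro h; linarith [h.1])]
      have h1 := EQB_mid hy1 c1 c2
      set δ := Real.log 2 / Real.log y * Real.log K ^ 2 with hδ
      have hδ0 : 0 ≤ δ := by positivity
      have h2 : 1 ≤ Real.exp δ := Real.one_le_exp hδ0
      have hla : Real.exp (la y p) = 1 + (y / p) ^ 2 := by
        rw [la, if_neg (by linarith), Real.exp_log (by positivity)]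
      have h3 : (ww (Real.log 2 / Real.log y) p - 1) / p ≤
          ww (Real.log 2 / Real.log y) p / p := by
        apply div_le_div_of_nonneg_right _ hpr.le
        linarith
      calc 1 + (ww (Real.log 2 / Real.log y) p - 1) / p ≤
            1 * Real.exp δ + (y / p) ^ 2 * Real.exp δ := by linarith
        _ = Real.exp (la y p + δ) := by rw [Real.exp_add, hla]; ring
        _ ≤ _ := Real.exp_le_exp.2 (by linarith)
    · push Not at c2
      refine (factor_le hy hp).trans (Real.exp_le_exp.2 ?_)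
      unfold bb EQB_cc
      rw [if_neg (by nlinarith), if_neg (by linarith), if_neg (by linarith : ¬ (p : ℝ) ≤ y),
        if_neg (by intro h; linarith [h.2] : ¬ (y < (p : ℝ) ∧ (p : ℝ) ≤ K * y))]
      have e0 : (K ^ (-(3 / 2) : ℝ)) * (K * y / p) ^ (3 / 2 : ℝ) = (y / p) ^ (3 / 2 : ℝ) := by
        rw [mul_div_assoc, Real.mul_rpow (by linarith) (by positivity), ← mul_assoc,
          ← Real.rpow_add (by linarith)]
        norm_num
      have e1 : (if y < (p : ℝ) ∧ (p : ℝ) ≤ y ^ 2 then (y / p) ^ (3 / 2 : ℝ) else 0) ≤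
          K ^ (-(3 / 2) : ℝ) * (if K * y < (p : ℝ) ∧ (p : ℝ) ≤ (K * y) ^ 2 then
            (K * y / p) ^ (3 / 2 : ℝ) else 0) := by
        split_ifs with a b b
        · rw [e0]
        · exfalso
          apply b
          refine ⟨c2, a.2.trans ?_⟩
          exact pow_le_pow_left₀ hy0.le hKy 2
        · positivity
        · simp
      linarith

private lemma EQB_card {y : ℝ} (hy : 1 < y) (z : ℕ) :
    ((((Nat.primesBelow (z + 1)) \ QY y).filter (fun p : ℕ => (p : ℝ) ≤ y)).card : ℝ) ≤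
      y ^ (4 / 5 : ℝ) := by
  have hy0 : 0 < y := by linarith
  have hsub : ((Nat.primesBelow (z + 1)) \ QY y).filter (fun p : ℕ => (p : ℝ) ≤ y) ⊆
      Finset.Icc 1 ⌊y ^ (4 / 5 : ℝ)⌋₊ := by
    intro p hp
    rw [Finset.mem_filter, Finset.mem_sdiff, QY, Finset.mem_filter, EQB_mem hy0.le] at hp
    have hpp := Nat.prime_of_mem_primesBelow hp.1.1
    rw [Finset.mem_Icc]
    refine ⟨hpp.one_lt.le, Nat.le_floor ?_⟩
    have h5 : (p : ℝ) ^ 5 ≤ y ^ 4 := by
      by_contra h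
      push Not at h
      exact hp.1.2 ⟨⟨hp.2, hpp⟩, h⟩
    have h6 : (y ^ (4 / 5 : ℝ)) ^ 5 = y ^ 4 := by
      rw [← Real.rpow_natCast, ← Real.rpow_mul hy0.le]
      norm_num
    exact le_of_pow_le_pow_left₀ (by norm_num : (5 : ℕ) ≠ 0) (by positivity) (by rw [h6]; exact h5)
  calc _ ≤ ((Finset.Icc 1 ⌊y ^ (4 / 5 : ℝ)⌋₊).card : ℝ) := by
        exact_mod_cast Finset.card_le_card hsub
    _ = (⌊y ^ (4 / 5 : ℝ)⌋₊ : ℝ) := by simp
    _ ≤ y ^ (4 / 5 : ℝ) := Nat.floor_le (by positivity)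

private lemma EQB_cardQ {y : ℝ} (hy : 1 < y) : ((QY y).card : ℝ) ≤ y := by
  have hy0 : 0 < y := by linarith
  have hsub : QY y ⊆ Finset.Icc 1 ⌊y⌋₊ := by
    intro p hp
    rw [QY, Finset.mem_filter, EQB_mem hy0.le] at hp
    rw [Finset.mem_Icc]
    exact ⟨hp.1.2.one_lt.le, Nat.le_floor hp.1.1⟩
  calc ((QY y).card : ℝ) ≤ ((Finset.Icc 1 ⌊y⌋₊).card : ℝ) := by
        exact_mod_cast Finset.card_le_card hsub
    _ = (⌊y⌋₊ : ℝ) := by simp
    _ ≤ y := Nat.floor_le hy0.le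

private lemma EQB_la_nonneg {y : ℝ} (hy : 0 < y) {p : ℕ} (hp : 0 < p) : 0 ≤ la y p := by
  have hpr : (0 : ℝ) < p := by exact_mod_cast hp
  rw [la]
  split_ifs with h
  · apply Real.log_nonneg
    rw [le_div_iff₀ hpr]
    linarith
  · apply Real.log_nonneg
    have : 0 ≤ (y / p) ^ 2 := by positivity
    linarith

private lemma EQB_sumB {y K : ℝ} (hy : 1 < y) (hK : 1 ≤ K) {δ : ℝ} (hδ : 0 ≤ δ) (z : ℕ) :
    ∑ p ∈ QY y, la y p + ∑ p ∈ Nat.primesBelow (z + 1) \ QY y,
      (if y < (p : ℝ) ∧ (p : ℝ) ≤ K * y then la y p + δ else 0) ≤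
      Lam y K + δ * (5 * (K * y) / Real.log (K * y)) := by
  have hy0 : 0 < y := by linarith
  have hKy : y ≤ K * y := by nlinarith
  have hKy0 : 0 ≤ K * y := by linarith
  have hQ : QY y ⊆ PP (K * y) := by
    intro p hp
    rw [QY, Finset.mem_filter, EQB_mem hy0.le] at hp
    rw [EQB_mem hKy0]
    exact ⟨hp.1.1.trans hKy, hp.1.2⟩
  have h1 : ∑ p ∈ Nat.primesBelow (z + 1) \ QY y,
      (if y < (p : ℝ) ∧ (p : ℝ) ≤ K * y then la y p + δ else 0) ≤
      ∑ p ∈ PP (K * y) \ QY y, (la y p + δ) := by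
    rw [← Finset.sum_filter]
    apply Finset.sum_le_sum_of_subset_of_nonneg
    · intro p hp
      rw [Finset.mem_filter, Finset.mem_sdiff] at hp
      rw [Finset.mem_sdiff, EQB_mem hKy0]
      exact ⟨⟨hp.2.2, Nat.prime_of_mem_primesBelow hp.1.1⟩, hp.1.2⟩
    · intro p hp _
      rw [Finset.mem_sdiff, EQB_mem hKy0] at hp
      have := EQB_la_nonneg hy0 hp.1.2.pos
      linarith
  rw [Finset.sum_add_distrib, Finset.sum_const, nsmul_eq_mul] at h1
  have h2 : ∑ p ∈ PP (K * y) \ QY y, la y p + ∑ p ∈ QY y, la y p = Lam y K :=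
    Finset.sum_sdiff hQ
  have h3 : (((PP (K * y)) \ QY y).card : ℝ) ≤ 5 * (K * y) / Real.log (K * y) := by
    have e1 : (((PP (K * y)) \ QY y).card : ℝ) ≤ ((PP (K * y)).card : ℝ) := by
      exact_mod_cast Finset.card_le_card Finset.sdiff_subset
    have e2 : ((PP (K * y)).card : ℝ) = (Nat.primeCounting ⌊K * y⌋₊ : ℝ) := by
      rw [PP]; simp
    have e3 := pi_le_five (x := K * y) (by linarith)
    linarith
  have h4 := mul_le_mul_of_nonneg_right h3 hδ
  linarith

private lemma EQB_total {y K : ℝ} (hy : Real.exp 1 ≤ y) (hK : 1 ≤ K) (z : ℕ) :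
    EQ (Real.log 2 / Real.log y) (QY y) z ≤
      Real.exp (Lam y K + (y ^ (4 / 5 : ℝ) +
        y ^ (4 / 5 : ℝ) * (7 * Real.log y ^ 2 + Real.log 2 + 3 * Real.log y) +
        Real.log 2 / Real.log y * Real.log K ^ 2 * (5 * (K * y) / Real.log (K * y)) +
        K ^ (-(3 / 2) : ℝ) * (40 * (K * y) / Real.log (K * y)) +
        3 * Real.log y ^ 2 * Real.sqrt y)) := by
  have hy1 : 1 < y := lt_of_lt_of_le (by
    have := Real.add_one_lt_exp (one_ne_zero); linarith) hy
  have hΛ : 0 < Real.log y := Real.log_pos hy1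
  have hl2 : 0 < Real.log 2 := Real.log_pos (by norm_num)
  have hy0 : 0 < y := by linarith
  have hσ : 0 < Real.log 2 / Real.log y := by positivity
  have hKy1 : 1 < K * y := by nlinarith
  set σ := Real.log 2 / Real.log y with hσd
  set N := Nat.primesBelow (z + 1) with hN
  have hQp : ∀ p ∈ QY y, (p : ℝ) ≤ y ∧ p.Prime := by
    intro p hp
    rw [QY, Finset.mem_filter, EQB_mem hy0.le] at hp
    exact hp.1
  have hww0 : ∀ p : ℕ, 0 < p → 0 ≤ ww σ p := fun p hp => by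
    unfold ww
    apply Real.rpow_nonneg
    have hp1 : (1 : ℝ) ≤ p := by exact_mod_cast hp
    have := Real.rpow_le_one_of_one_le_of_nonpos hp1 (by linarith : -σ ≤ 0)
    linarith
  have hfac : ∀ p ∈ QY y, (1 : ℝ) ≤ 2 + ww σ p / (p : ℝ) ^ 2 := fun p hp => by
    have h1 := hww0 p (hQp p hp).2.pos
    have : 0 ≤ ww σ p / (p : ℝ) ^ 2 := by positivity
    linarith
  have hsplit : ∏ p ∈ N, (if p ∈ QY y then 2 + ww σ p / (p : ℝ) ^ 2 else 1 + (ww σ p - 1) / p) =
      (∏ p ∈ N.filter (fun p => p ∈ QY y), (2 + ww σ p / (p : ℝ) ^ 2)) *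
        ∏ p ∈ N.filter (fun p => ¬ p ∈ QY y), (1 + (ww σ p - 1) / p) := by
    rw [Finset.prod_ite]
  have hA : ∏ p ∈ N.filter (fun p => p ∈ QY y), (2 + ww σ p / (p : ℝ) ^ 2) ≤
      ∏ p ∈ QY y, (2 + ww σ p / (p : ℝ) ^ 2) := by
    apply Finset.prod_le_prod_of_subset_of_one_le
    · intro p hp
      exact (Finset.mem_filter.1 hp).2
    · intro p hp
      linarith [hfac p (Finset.mem_filter.1 hp).2]
    · intro p hp _
      exact hfac p hp
  have hB : ∏ p ∈ N.filter (fun p => ¬ p ∈ QY y), (1 + (ww σ p - 1) / p) ≤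
      Real.exp (∑ p ∈ N \ QY y, EQB_cc y K p) := by
    rw [Real.exp_sum, Finset.filter_notMem_eq_sdiff]
    apply Finset.prod_le_prod
    · intro p hp
      rw [Finset.mem_sdiff] at hp
      have := ww_one_le hσ (Nat.prime_of_mem_primesBelow hp.1).one_lt
      have h2 : 0 ≤ (ww σ p - 1) / p := div_nonneg (by linarith) (by positivity)
      linarith
    · intro p hp
      rw [Finset.mem_sdiff] at hp
      exact EQB_other hy hK (Nat.prime_of_mem_primesBelow hp.1).one_lt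
  have hB0 : 0 ≤ ∏ p ∈ N.filter (fun p => ¬ p ∈ QY y), (1 + (ww σ p - 1) / p) := by
    apply Finset.prod_nonneg
    intro p hp
    rw [Finset.mem_filter] at hp
    have := ww_one_le hσ (Nat.prime_of_mem_primesBelow hp.1).one_lt
    have h2 : 0 ≤ (ww σ p - 1) / p := div_nonneg (by linarith) (by positivity)
    linarith
  have hC : (∏ p ∈ QY y, (2 * (p : ℝ) ^ (-σ)) ^ (1 / σ)) *
      ∏ p ∈ QY y, (2 + ww σ p / (p : ℝ) ^ 2) ≤
      Real.exp (∑ p ∈ QY y, (la y p + y ^ (-(1 / 5) : ℝ))) := by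
    rw [← Finset.prod_mul_distrib, Real.exp_sum]
    apply Finset.prod_le_prod
    · intro p hp
      have := hfac p hp
      positivity
    · intro p hp
      rw [hσd, EQB_two hy1 (hQp p hp).2.pos]
      exact EQB_Q hy1 hp
  have hP0 : 0 ≤ ∏ p ∈ QY y, (2 * (p : ℝ) ^ (-σ)) ^ (1 / σ) :=
    Finset.prod_nonneg fun p _ => by positivity
  have hmain : EQ σ (QY y) z ≤ Real.exp (∑ p ∈ QY y, (la y p + y ^ (-(1 / 5) : ℝ)) +
      ∑ p ∈ N \ QY y, EQB_cc y K p) := by
    rw [EQ, hsplit, ← mul_assoc, Real.exp_add]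
    refine mul_le_mul ?_ hB hB0 (Real.exp_pos _).le
    exact (mul_le_mul_of_nonneg_left hA hP0).trans hC
  refine hmain.trans (Real.exp_le_exp.2 ?_)
  -- the sums
  have s1 : ∑ p ∈ N \ QY y,
      (if (p : ℝ) ≤ y then 7 * Real.log y ^ 2 + Real.log 2 + 3 * Real.log y else 0) ≤
      y ^ (4 / 5 : ℝ) * (7 * Real.log y ^ 2 + Real.log 2 + 3 * Real.log y) := by
    rw [← Finset.sum_filter, Finset.sum_const, nsmul_eq_mul]
    exact mul_le_mul_of_nonneg_right (EQB_card hy1 z) (by positivity)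
  have s2 := EQB_sumB hy1 hK (δ := σ * Real.log K ^ 2) (by positivity) z
  have s3 : ∑ p ∈ N \ QY y,
      K ^ (-(3 / 2) : ℝ) * (if K * y < (p : ℝ) ∧ (p : ℝ) ≤ (K * y) ^ 2 then
        (K * y / p) ^ (3 / 2 : ℝ) else 0) ≤
      K ^ (-(3 / 2) : ℝ) * (40 * (K * y) / Real.log (K * y)) := by
    rw [← Finset.mul_sum]
    apply mul_le_mul_of_nonneg_left _ (by positivity)
    refine le_trans ?_ (sum_c' hKy1 z)
    apply Finset.sum_le_sum_of_subset_of_nonneg Finset.sdiff_subset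
    intro p _ _
    split_ifs
    · positivity
    · exact le_rfl
  have s4 : ∑ p ∈ N \ QY y, 2 * Real.log y * Real.sqrt y * (p : ℝ) ^ (-1 - σ) ≤
      3 * Real.log y ^ 2 * Real.sqrt y := by
    refine le_trans ?_ (sum_d hy1 z)
    apply Finset.sum_le_sum_of_subset_of_nonneg Finset.sdiff_subset
    intro p _ _
    positivity
  have s5 : ∑ p ∈ QY y, (la y p + y ^ (-(1 / 5) : ℝ)) ≤ ∑ p ∈ QY y, la y p + y ^ (4 / 5 : ℝ) := by
    rw [Finset.sum_add_distrib, Finset.sum_const, nsmul_eq_mul]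
    have e1 : y ^ (4 / 5 : ℝ) = y * y ^ (-(1 / 5) : ℝ) := by
      nth_rewrite 2 [← Real.rpow_one y]
      rw [← Real.rpow_add hy0]
      norm_num
    rw [e1]
    have := mul_le_mul_of_nonneg_right (EQB_cardQ hy1) (by positivity : 0 ≤ y ^ (-(1 / 5) : ℝ))
    linarith
  have s6 : ∑ p ∈ N \ QY y, EQB_cc y K p =
      ∑ p ∈ N \ QY y,
        (if (p : ℝ) ≤ y then 7 * Real.log y ^ 2 + Real.log 2 + 3 * Real.log y else 0) +
      ∑ p ∈ N \ QY y,
        (if y < (p : ℝ) ∧ (p : ℝ) ≤ K * y then la y p + σ * Real.log K ^ 2 else 0) +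
      ∑ p ∈ N \ QY y,
        K ^ (-(3 / 2) : ℝ) * (if K * y < (p : ℝ) ∧ (p : ℝ) ≤ (K * y) ^ 2 then
        (K * y / p) ^ (3 / 2 : ℝ) else 0) +
      ∑ p ∈ N \ QY y, 2 * Real.log y * Real.sqrt y * (p : ℝ) ^ (-1 - σ) := by
    rw [← Finset.sum_add_distrib, ← Finset.sum_add_distrib, ← Finset.sum_add_distrib]
    rfl
  rw [s6]
  linarith

theorem EQ_bound {K : ℝ} (hK : 1 ≤ K) {ε : ℝ} (hε : 0 < ε) : ∀ᶠ y : ℝ in atTop, ∀ z : ℕ,
    EQ (Real.log 2 / Real.log y) (QY y) z ≤
      Real.exp (Lam y K + (ε + 200 / Real.sqrt K) * (y / Real.log y)) := by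
  have hlit := (isLittleO_log_rpow_rpow_atTop (3 : ℝ) (by norm_num : (0 : ℝ) < 1 / 5)).bound
    (by positivity : 0 < ε / 30)
  have hlog := Real.tendsto_log_atTop.eventually_ge_atTop
    (10 * K * Real.log K ^ 2 * Real.log 2 / ε)
  filter_upwards [hlit, hlog, eventually_ge_atTop (Real.exp 1), eventually_ge_atTop (2 : ℝ)] with
    y h1 h2 h3 h4 z
  have hy1 : 1 < y := by linarith
  have hΛ : 0 < Real.log y := Real.log_pos hy1
  have hΛ1 : 1 ≤ Real.log y := by
    rw [Real.le_log_iff_exp_le (by linarith)]; exact h3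
  have hl2 : 0 < Real.log 2 := Real.log_pos (by norm_num)
  have hl2' : Real.log 2 < 0.6931471808 := Real.log_two_lt_d9
  have hy0 : 0 < y := by linarith
  have hK0 : 0 < K := by linarith
  have hKy : y ≤ K * y := by nlinarith
  have hlK : Real.log y ≤ Real.log (K * y) := Real.log_le_log hy0 hKy
  refine (EQB_total h3 hK z).trans (Real.exp_le_exp.2 ?_)
  set V := y ^ (4 / 5 : ℝ) with hV
  have hV0 : 0 < V := by positivity
  have hVs : Real.sqrt y ≤ V := by
    rw [Real.sqrt_eq_rpow, hV]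
    exact Real.rpow_le_rpow_of_exponent_le hy1.le (by norm_num)
  have e1 : V + V * (7 * Real.log y ^ 2 + Real.log 2 + 3 * Real.log y) +
      3 * Real.log y ^ 2 * Real.sqrt y ≤ ε / 2 * (y / Real.log y) := by
    rw [Real.norm_eq_abs, Real.norm_eq_abs, abs_of_nonneg (by positivity),
      abs_of_nonneg (by positivity),
      show (3 : ℝ) = ((3 : ℕ) : ℝ) by norm_num, Real.rpow_natCast] at h1
    have a1 : V * y ^ (1 / 5 : ℝ) = y := by
      rw [hV, ← Real.rpow_add hy0]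
      norm_num
    have a2 : V + V * (7 * Real.log y ^ 2 + Real.log 2 + 3 * Real.log y) +
        3 * Real.log y ^ 2 * Real.sqrt y ≤ 15 * Real.log y ^ 2 * V := by
      have b1 : 1 + (7 * Real.log y ^ 2 + Real.log 2 + 3 * Real.log y) ≤
          12 * Real.log y ^ 2 := by nlinarith
      have b2 := mul_le_mul_of_nonneg_left b1 hV0.le
      have b3 := mul_le_mul_of_nonneg_left hVs (by positivity : 0 ≤ 3 * Real.log y ^ 2)
      linarith
    refine a2.trans ?_
    have a3 : 15 * Real.log y ^ 3 * V ≤ ε / 2 * y := by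
      calc 15 * Real.log y ^ 3 * V ≤ 15 * (ε / 30 * y ^ (1 / 5 : ℝ)) * V := by
            apply mul_le_mul_of_nonneg_right _ hV0.le
            linarith
        _ = ε / 2 * (V * y ^ (1 / 5 : ℝ)) := by ring
        _ = ε / 2 * y := by rw [a1]
    have a4 : ε / 2 * (y / Real.log y) = ε / 2 * y / Real.log y := by ring
    rw [a4, le_div_iff₀ hΛ]
    calc 15 * Real.log y ^ 2 * V * Real.log y = 15 * Real.log y ^ 3 * V := by ring
      _ ≤ _ := a3
  have e2 : Real.log 2 / Real.log y * Real.log K ^ 2 * (5 * (K * y) / Real.log (K * y)) ≤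
      ε / 2 * (y / Real.log y) := by
    have a1 : 5 * (K * y) / Real.log (K * y) ≤ 5 * (K * y) / Real.log y :=
      div_le_div_of_nonneg_left (by positivity) hΛ hlK
    refine (mul_le_mul_of_nonneg_left a1 (by positivity)).trans ?_
    rw [div_le_iff₀ hε] at h2
    have a2 : Real.log 2 / Real.log y * Real.log K ^ 2 * (5 * (K * y) / Real.log y) =
        (5 * K * Real.log K ^ 2 * Real.log 2 / Real.log y) * (y / Real.log y) := by
      field_simp
    rw [a2]
    apply mul_le_mul_of_nonneg_right _ (by positivity)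
    rw [div_le_iff₀ hΛ]
    linarith
  have e3 : K ^ (-(3 / 2) : ℝ) * (40 * (K * y) / Real.log (K * y)) ≤
      200 / Real.sqrt K * (y / Real.log y) := by
    have a1 : 40 * (K * y) / Real.log (K * y) ≤ 40 * (K * y) / Real.log y :=
      div_le_div_of_nonneg_left (by positivity) hΛ hlK
    refine (mul_le_mul_of_nonneg_left a1 (by positivity)).trans ?_
    have a2 : K ^ (-(3 / 2) : ℝ) * K = 1 / Real.sqrt K := by
      rw [Real.sqrt_eq_rpow, one_div (K ^ (1 / 2 : ℝ)), ← Real.rpow_neg hK0.le]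
      nth_rewrite 2 [← Real.rpow_one K]
      rw [← Real.rpow_add hK0]
      norm_num
    have a3 : K ^ (-(3 / 2) : ℝ) * (40 * (K * y) / Real.log y) =
        40 * (1 / Real.sqrt K) * (y / Real.log y) := by
      rw [← a2]; ring
    have a4 : 0 ≤ 1 / Real.sqrt K := by positivity
    have a5 : 200 / Real.sqrt K = 200 * (1 / Real.sqrt K) := by ring
    rw [a3, a5]
    apply mul_le_mul_of_nonneg_right _ (by positivity)
    linarith
  have e4 : (ε + 200 / Real.sqrt K) * (y / Real.log y) = ε / 2 * (y / Real.log y) +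
      ε / 2 * (y / Real.log y) + 200 / Real.sqrt K * (y / Real.log y) := by ring
  rw [e4]
  linarith

end Pool.Agent.H96.LK3
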