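import Pool.Agent.H96.LK3.Defs

/-!
# LK3 EntI: inequalities for the binary entropy

* `ent_minor`: `E f = H f - H (f/2) - 1.13 f + (1.13 + log 2) f^2`, `E 0 = E 1 = 0`,
  `E'' f = 2 (1.13 + log 2) - 1 / (f (1 - f) (2 - f))`.  `E` is concave on `[0, .185]` and on
  `[.7, 1]`, and `E'' ≥ - .0168` on `[.185, .7]`.  At `f = 1/3`:
  `H (1/3) - H (1/6) = (5/6) log (5/4)`, `E (1/3) = .0118`,
  `E' (1/3) = (2/3) log 2 - log (5/4) / 2 - 1.13 / 3 = -.0261`.  On `[.185, .7]`
  `E + .0084 (f - 1/3)^2` is convex, hence above its tangent at `1/3`, which is larger than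
  `.0084 (f - 1/3)^2` there; on the two other parts `E` is above the chords.
* `fa_ident`: with `ρ = p/y`, `h = fa/2`; for `p > y`: `H h = log (1 + ρ^{-2}) + h log ρ^2`.
* `ent_scale`: concavity of `H` and `H 0 = 0`.
-/

set_option autoImplicit false

namespace Pool.Agent.H96.LK3

open Finset Filter Topology

private noncomputable def EntI_E (f : ℝ) : ℝ :=
  Real.binEntropy f - Real.binEntropy (f / 2) - 1.13 * f + (1.13 + Real.log 2) * f ^ 2

private noncomputable def EntI_dE (f : ℝ) : ℝ :=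
  (Real.log (1 - f) - Real.log f) - (Real.log (1 - f / 2) - Real.log (f / 2)) / 2 - 1.13 +
    2 * (1.13 + Real.log 2) * f

private noncomputable def EntI_ddE (f : ℝ) : ℝ :=
  2 * (1.13 + Real.log 2) - 1 / (f * (1 - f) * (2 - f))

private theorem EntI_hd {f : ℝ} (h0 : 0 < f) (h1 : f < 1) : HasDerivAt EntI_E (EntI_dE f) f := by
  have a := Real.hasDerivAt_binEntropy h0.ne' h1.ne
  have b : HasDerivAt (fun x : ℝ => x / 2) (1 / 2) f := (hasDerivAt_id f).div_const 2
  have c := (Real.hasDerivAt_binEntropy (p := f / 2) (by linarith) (by linarith)).comp f b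
  have d : HasDerivAt (fun x : ℝ => 1.13 * x) (1.13 * 1) f := (hasDerivAt_id f).const_mul _
  have e : HasDerivAt (fun x : ℝ => (1.13 + Real.log 2) * x ^ 2)
      ((1.13 + Real.log 2) * (2 * f)) f := by
    simpa using (hasDerivAt_pow 2 f).const_mul (1.13 + Real.log 2)
  have g := ((a.sub c).sub d).add e
  refine g.congr_deriv ?_
  unfold EntI_dE
  ring

private theorem EntI_hdd {f : ℝ} (h0 : 0 < f) (h1 : f < 1) :
    HasDerivAt EntI_dE (EntI_ddE f) f := by
  have a : HasDerivAt (fun x : ℝ => Real.log (1 - x)) (-1 / (1 - f)) f :=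
    ((hasDerivAt_id f).const_sub 1).log (by simp only [id]; linarith)
  have b : HasDerivAt (fun x : ℝ => Real.log x) (1 / f) f := (hasDerivAt_id f).log h0.ne'
  have b2 : HasDerivAt (fun x : ℝ => x / 2) (1 / 2) f := (hasDerivAt_id f).div_const 2
  have c : HasDerivAt (fun x : ℝ => Real.log (1 - x / 2)) (-(1 / 2) / (1 - f / 2)) f :=
    (b2.const_sub 1).log (by linarith)
  have d : HasDerivAt (fun x : ℝ => Real.log (x / 2)) ((1 / 2) / (f / 2)) f :=
    b2.log (by linarith)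
  have e : HasDerivAt (fun x : ℝ => 2 * (1.13 + Real.log 2) * x) (2 * (1.13 + Real.log 2) * 1) f :=
    (hasDerivAt_id f).const_mul _
  have g := (((a.sub b).sub ((c.sub d).div_const 2)).sub_const 1.13).add e
  refine g.congr_deriv ?_
  unfold EntI_ddE
  have h2 : 1 - f ≠ 0 := by linarith
  have h3 : 2 - f ≠ 0 := by linarith
  have h4 : 1 - f / 2 ≠ 0 := by linarith
  have h5 : f ≠ 0 := h0.ne'
  field_simp
  ring

private theorem EntI_cont : Continuous EntI_E := by
  unfold EntI_E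
  fun_prop

private theorem EntI_log2 : 0.693147 < Real.log 2 ∧ Real.log 2 < 0.693148 :=
  ⟨by linarith [Real.log_two_gt_d9], by linarith [Real.log_two_lt_d9]⟩

/-- `E'' ≤ 0` off `(.185, .7)`. -/
private theorem EntI_neg {f : ℝ} (h0 : 0 < f) (h1 : f < 1) (h : f ≤ 0.185 ∨ 0.7 ≤ f) :
    EntI_ddE f ≤ 0 := by
  have hp : 0 < f * (1 - f) * (2 - f) :=
    mul_pos (mul_pos h0 (by linarith)) (by linarith)
  have h2 : f * (1 - f) * (2 - f) ≤ 0.2737 := by
    rcases h with h | h
    · nlinarith [mul_nonneg h0.le (sub_nonneg.mpr h), mul_nonneg (sub_nonneg.mpr h)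
        (mul_nonneg h0.le h0.le)]
    · nlinarith [mul_nonneg (sub_nonneg.mpr h) (sub_nonneg.mpr h1.le),
        mul_nonneg (mul_nonneg (sub_nonneg.mpr h) (sub_nonneg.mpr h1.le)) h0.le]
  have h3 : 1 / 0.2737 ≤ 1 / (f * (1 - f) * (2 - f)) := one_div_le_one_div_of_le hp h2
  have h4 := EntI_log2
  unfold EntI_ddE
  have h5 : (3.6536 : ℝ) ≤ 1 / 0.2737 := by norm_num
  linarith

/-- `E'' ≥ - .0168` on `[.185, .7]`. -/
private theorem EntI_pos {f : ℝ} (h0 : 0.185 ≤ f) (h1 : f ≤ 0.7) :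
    -0.0168 ≤ EntI_ddE f := by
  have h2 : 0.273 ≤ f * (1 - f) * (2 - f) := by
    nlinarith [mul_nonneg (sub_nonneg.mpr h0) (sub_nonneg.mpr h1),
        mul_nonneg (mul_nonneg (sub_nonneg.mpr h0) (sub_nonneg.mpr h1)) (by linarith : 0 ≤ f)]
  have h3 : 1 / (f * (1 - f) * (2 - f)) ≤ 1 / 0.273 := one_div_le_one_div_of_le (by norm_num) h2
  have h4 := EntI_log2
  unfold EntI_ddE
  have h5 : (1 : ℝ) / 0.273 ≤ 3.663004 := by norm_num
  linarith

private theorem EntI_left : ConcaveOn ℝ (Set.Icc 0 0.185) EntI_E := by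
  refine concaveOn_of_hasDerivWithinAt2_nonpos (convex_Icc _ _) EntI_cont.continuousOn
    (f' := EntI_dE) (f'' := EntI_ddE) ?_ ?_ ?_ <;> rw [interior_Icc] <;> intro x hx
  · exact (EntI_hd hx.1 (by linarith [hx.2])).hasDerivWithinAt
  · exact (EntI_hdd hx.1 (by linarith [hx.2])).hasDerivWithinAt
  · exact EntI_neg hx.1 (by linarith [hx.2]) (Or.inl hx.2.le)

private theorem EntI_right : ConcaveOn ℝ (Set.Icc 0.7 1) EntI_E := by
  refine concaveOn_of_hasDerivWithinAt2_nonpos (convex_Icc _ _) EntI_cont.continuousOn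
    (f' := EntI_dE) (f'' := EntI_ddE) ?_ ?_ ?_ <;> rw [interior_Icc] <;> intro x hx
  · exact (EntI_hd (by linarith [hx.1]) hx.2).hasDerivWithinAt
  · exact (EntI_hdd (by linarith [hx.1]) hx.2).hasDerivWithinAt
  · exact EntI_neg (by linarith [hx.1]) hx.2 (Or.inr hx.1.le)

/-- `E + .0084 (f - 1/3)^2`. -/
private noncomputable def EntI_G (f : ℝ) : ℝ := EntI_E f + 0.0084 * (f - 1 / 3) ^ 2

private theorem EntI_hG {f : ℝ} (h0 : 0 < f) (h1 : f < 1) :
    HasDerivAt EntI_G (EntI_dE f + 0.0168 * (f - 1 / 3)) f := by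
  have a : HasDerivAt (fun x : ℝ => 0.0084 * (x - 1 / 3) ^ 2) (0.0084 * (2 * (f - 1 / 3))) f := by
    have := ((hasDerivAt_id f).sub_const (1 / 3 : ℝ)).pow 2
    simpa using this.const_mul (0.0084 : ℝ)
  refine ((EntI_hd h0 h1).add a).congr_deriv ?_
  ring

private theorem EntI_hhG {f : ℝ} (h0 : 0 < f) (h1 : f < 1) :
    HasDerivAt (fun x => EntI_dE x + 0.0168 * (x - 1 / 3)) (EntI_ddE f + 0.0168) f := by
  have a : HasDerivAt (fun x : ℝ => 0.0168 * (x - 1 / 3)) (0.0168 * 1) f :=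
    ((hasDerivAt_id f).sub_const (1 / 3 : ℝ)).const_mul _
  refine ((EntI_hdd h0 h1).add a).congr_deriv ?_
  ring

private theorem EntI_conv : ConvexOn ℝ (Set.Icc 0.185 0.7) EntI_G := by
  have hc : Continuous EntI_G := by
    unfold EntI_G
    exact EntI_cont.add (by fun_prop)
  refine convexOn_of_hasDerivWithinAt2_nonneg (convex_Icc _ _) hc.continuousOn
    (f' := fun x => EntI_dE x + 0.0168 * (x - 1 / 3)) (f'' := fun x => EntI_ddE x + 0.0168)
    ?_ ?_ ?_ <;> rw [interior_Icc] <;> intro x hx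
  · exact (EntI_hG (by linarith [hx.1]) (by linarith [hx.2])).hasDerivWithinAt
  · exact (EntI_hhG (by linarith [hx.1]) (by linarith [hx.2])).hasDerivWithinAt
  · have := EntI_pos hx.1.le hx.2.le
    linarith

private theorem EntI_third : EntI_E (1 / 3) = (5 / 6) * Real.log (5 / 4) - 1.13 / 3 +
      (1.13 + Real.log 2) / 9 ∧
    EntI_dE (1 / 3) = (2 / 3) * Real.log 2 - Real.log (5 / 4) / 2 - 1.13 / 3 := by
  have h3 : Real.log (5 / 4) = Real.log 5 - 2 * Real.log 2 := by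
    rw [Real.log_div (by norm_num) (by norm_num), show (4 : ℝ) = 2 ^ 2 by norm_num, Real.log_pow]
    norm_num
  have h6 : Real.log 6 = Real.log 2 + Real.log 3 := by
    rw [show (6 : ℝ) = 2 * 3 by norm_num, Real.log_mul (by norm_num) (by norm_num)]
  have e1 : Real.binEntropy (1 / 3) = Real.log 3 - (2 / 3) * Real.log 2 := by
    unfold Real.binEntropy
    rw [show ((1 : ℝ) / 3)⁻¹ = 3 by norm_num, show ((1 : ℝ) - 1 / 3)⁻¹ = 3 / 2 by norm_num,
      Real.log_div (by norm_num) (by norm_num)]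
    ring
  have e2 : Real.binEntropy (1 / 3 / 2) = Real.log 6 - (5 / 6) * Real.log 5 := by
    unfold Real.binEntropy
    rw [show ((1 : ℝ) / 3 / 2)⁻¹ = 6 by norm_num, show ((1 : ℝ) - 1 / 3 / 2)⁻¹ = 6 / 5 by norm_num,
      Real.log_div (by norm_num) (by norm_num)]
    ring
  constructor
  · unfold EntI_E
    rw [e1, e2, h3, h6]
    ring
  · unfold EntI_dE
    rw [show (1 : ℝ) - 1 / 3 = 2 / 3 by norm_num, show (1 : ℝ) - 1 / 3 / 2 = 5 / 6 by norm_num,
      show (1 : ℝ) / 3 / 2 = 1 / 6 by norm_num, Real.log_div (by norm_num) (by norm_num),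
      Real.log_div (by norm_num) (by norm_num), Real.log_div (by norm_num) (by norm_num),
      Real.log_div (by norm_num) (by norm_num), h3]
    norm_num
    ring

private theorem EntI_mid {f : ℝ} (h0 : 0.185 ≤ f) (h1 : f ≤ 0.7) : 0 ≤ EntI_E f := by
  obtain ⟨e1, e2⟩ := EntI_third
  obtain ⟨l1, l2⟩ := EntI_log2
  have ht : (Real.log 2 - 0.024) / 3 ≤ Real.log (5 / 4) := by
    have a : Real.log (1.024 : ℝ) ≤ 0.024 := by
      have := Real.log_le_sub_one_of_pos (show (0 : ℝ) < 1.024 by norm_num)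
      linarith
    have b : Real.log 2 = 3 * Real.log (5 / 4) + Real.log 1.024 := by
      rw [show (3 : ℝ) * Real.log (5 / 4) = Real.log ((5 / 4) ^ 3) by rw [Real.log_pow]; norm_num,
        ← Real.log_mul (by norm_num) (by norm_num)]
      norm_num
    linarith
  have hG : EntI_G (1 / 3) = EntI_E (1 / 3) := by simp [EntI_G]
  have key : EntI_E (1 / 3) + EntI_dE (1 / 3) * (f - 1 / 3) ≤ EntI_G f := by
    rcases lt_trichotomy f (1 / 3) with h | h | h
    · have hs := EntI_conv.slope_le_of_hasDerivAt (x := f) (y := 1 / 3) ⟨h0, h1⟩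
        ⟨by norm_num, by norm_num⟩ h (EntI_hG (by norm_num) (by norm_num))
      rw [slope_def_field, div_le_iff₀ (by linarith), hG] at hs
      linarith
    · subst h
      rw [hG]
      simp
    · have hs := EntI_conv.le_slope_of_hasDerivAt (x := 1 / 3) (y := f)
        ⟨by norm_num, by norm_num⟩ ⟨h0, h1⟩ h (EntI_hG (by norm_num) (by norm_num))
      rw [slope_def_field, le_div_iff₀ (by linarith), hG] at hs
      linarith
  unfold EntI_G at key
  rw [e1, e2] at key
  have h3 : 0 ≤ 5 / 6 - (f - 1 / 3) / 2 := by linarith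
  have h4 := mul_le_mul_of_nonneg_left ht h3
  nlinarith [mul_nonneg (sub_nonneg.mpr h0) (sub_nonneg.mpr h1)]

theorem ent_minor {f : ℝ} (h0 : 0 ≤ f) (h1 : f ≤ 1) :
    1.13 * f - (1.13 + Real.log 2) * f ^ 2 ≤ Real.binEntropy f - Real.binEntropy (f / 2) := by
  suffices h : 0 ≤ EntI_E f by
    unfold EntI_E at h
    linarith
  rcases le_total f 0.185 with h2 | h2
  · have h3 := EntI_left.min_le_of_mem_Icc (x := 0) (y := 0.185) (z := f)
      ⟨le_refl _, by norm_num⟩ ⟨by norm_num, le_refl _⟩ ⟨h0, h2⟩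
    have h4 : EntI_E 0 = 0 := by simp [EntI_E]
    have h5 : 0 ≤ EntI_E 0.185 := EntI_mid le_rfl (by norm_num)
    rw [h4, min_eq_left h5] at h3
    exact h3
  · rcases le_total f 0.7 with h3 | h3
    · exact EntI_mid h2 h3
    · have h4 := EntI_right.min_le_of_mem_Icc (x := 0.7) (y := 1) (z := f)
        ⟨le_refl _, by norm_num⟩ ⟨by norm_num, le_refl _⟩ ⟨h3, h1⟩
      have h5 : EntI_E 1 = 0 := by
        have : Real.binEntropy (1 / 2) = Real.log 2 := by
          rw [one_div]; exact Real.binEntropy_two_inv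
        simp only [EntI_E, this, Real.binEntropy_one]
        ring
      have h6 : 0 ≤ EntI_E 0.7 := EntI_mid (by norm_num) le_rfl
      rw [h5, min_eq_right h6] at h4
      exact h4

theorem ent_scale {c x : ℝ} (hc0 : 0 ≤ c) (hc1 : c ≤ 1) (hx0 : 0 ≤ x) (hx1 : x ≤ 1) :
    c * Real.binEntropy x ≤ Real.binEntropy (c * x) := by
  have h := Real.strictConcave_binEntropy.concaveOn.2 (x := x) (y := 0) ⟨hx0, hx1⟩
    ⟨le_refl 0, zero_le_one⟩ hc0 (by linarith : 0 ≤ 1 - c) (by ring)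
  simpa using h

theorem fa_ident {y : ℝ} (hy : 0 < y) {p : ℕ} (hp : 1 ≤ p) :
    fa y p * Real.log p - Real.binEntropy (fa y p / 2) = fa y p * Real.log y - la y p := by
  have hp0 : (0 : ℝ) < p := by exact_mod_cast hp
  by_cases h : (p : ℝ) ≤ y
  · simp only [fa, la, h, if_true]
    have h1 : Real.binEntropy (1 / 2) = Real.log 2 := by
      rw [one_div]; exact Real.binEntropy_two_inv
    rw [h1, Real.log_div (by positivity) hp0.ne', Real.log_mul two_ne_zero hy.ne']
    ring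
  · simp only [fa, la, h, if_false]
    have hy2 : (0 : ℝ) < y ^ 2 := by positivity
    have hp2 : (0 : ℝ) < (p : ℝ) ^ 2 := by positivity
    have e1 : 2 / (1 + ((p : ℝ) / y) ^ 2) / 2 = y ^ 2 / (y ^ 2 + p ^ 2) := by
      field_simp
    have e2 : 2 / (1 + ((p : ℝ) / y) ^ 2) = 2 * (y ^ 2 / (y ^ 2 + p ^ 2)) := by
      field_simp
    have e3 : 1 + (y / (p : ℝ)) ^ 2 = (y ^ 2 + p ^ 2) / p ^ 2 := by
      field_simp
      ring
    have e4 : 1 - y ^ 2 / (y ^ 2 + (p : ℝ) ^ 2) = p ^ 2 / (y ^ 2 + p ^ 2) := by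
      field_simp
      ring
    have hs : (0 : ℝ) < y ^ 2 + p ^ 2 := by positivity
    rw [e1, e2, e3]
    unfold Real.binEntropy
    rw [e4, inv_div, inv_div, Real.log_div hs.ne' hy2.ne', Real.log_div hs.ne' hp2.ne',
      Real.log_pow, Real.log_pow]
    have e5 : (p : ℝ) ^ 2 / (y ^ 2 + p ^ 2) = 1 - y ^ 2 / (y ^ 2 + p ^ 2) := e4.symm
    rw [e5]
    push_cast
    ring

end Pool.Agent.H96.LK3
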