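import Pool.Agent.H96.LK3.Vag

/-!
# LK3 SumB: asymptotics of `Lam`

`Lam y K = ∑_{p ≤ y} log (2y/p) + ∑_{y < p ≤ Ky} log (1 + (y/p)^2)`.  The function
`F x = log (2/x)` for `x ≤ 1`, `log (1 + x^{-2})` for `x > 1` is antitone on `(0, ∞)`;
`∫_a^1 log (2/x) = (1 - a) (1 + log 2) + a log a`, and
`∫_1^K log (1 + x^{-2}) = [x log (1 + x^{-2}) + 2 arctan x]_1^K`
`= K log (1 + K^{-2}) + 2 arctan K - log 2 - π/2`, which lies between `2 arctan K - log 2 - π/2`
and `π/2 - log 2`.  The primes `p ≤ ay`: with `x = ay`,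
`∑_{p ≤ x} log (2y/p) = π(x) log (2/a) + (π(x) log x - θ(x)) ≤ C (1 + log (2/a)) x / log x`
(`Chebyshev.primeCounting_sub_theta_div_log_isBigO`, `pi_le_five`; see the end of
`H96/KMF/ESum.lean`), small for small `a`.
-/

set_option autoImplicit false

namespace Pool.Agent.H96.LK3

open Finset Filter Topology

/-- `la y p` as a function of `p / y` -/
private noncomputable def SumB_F (x : ℝ) : ℝ :=
  if x ≤ 1 then Real.log (2 / x) else Real.log (1 + x⁻¹ ^ 2)

private theorem SumB_la {y : ℝ} (hy : 0 < y) (p : ℕ) : la y p = SumB_F ((p : ℝ) / y) := by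
  unfold la SumB_F
  have h1 : ((p : ℝ) / y ≤ 1) ↔ (p : ℝ) ≤ y := div_le_one hy
  by_cases h : (p : ℝ) ≤ y
  · rw [if_pos h, if_pos (h1.2 h), div_div_eq_mul_div]
  · rw [if_neg h, if_neg fun h2 => h (h1.1 h2), inv_div]

private theorem SumB_anti {a b : ℝ} (ha : 0 < a) : AntitoneOn SumB_F (Set.Icc a b) := by
  intro x hx x' hx' h
  have hx0 : 0 < x := ha.trans_le hx.1
  have hx'0 : 0 < x' := ha.trans_le hx'.1
  unfold SumB_F
  by_cases h1 : x' ≤ 1
  · rw [if_pos h1, if_pos (h.trans h1)]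
    exact Real.log_le_log (by positivity) (div_le_div_of_nonneg_left (by norm_num) hx0 h)
  · rw [if_neg h1]
    by_cases h2 : x ≤ 1
    · rw [if_pos h2]
      apply Real.log_le_log (by positivity)
      have h3 : x'⁻¹ ^ 2 ≤ 1 := pow_le_one₀ (by positivity) (inv_le_one_of_one_le₀ (not_le.1 h1).le)
      have h4 : 2 ≤ 2 / x := by rw [le_div_iff₀ hx0]; linarith
      linarith
    · rw [if_neg h2]
      apply Real.log_le_log (by positivity)
      have h3 : x'⁻¹ ≤ x⁻¹ := inv_anti₀ hx0 h
      have h4 := pow_le_pow_left₀ (by positivity) h3 2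
      linarith

private theorem SumB_log {x : ℝ} (hx : 0 < x) :
    Real.log (1 + x⁻¹ ^ 2) = Real.log (1 + x ^ 2) - 2 * Real.log x := by
  have h1 : 1 + x⁻¹ ^ 2 = (1 + x ^ 2) / x ^ 2 := by
    field_simp
    ring
  rw [h1, Real.log_div (by positivity) (by positivity), Real.log_pow]
  norm_num

private theorem SumB_deriv {x : ℝ} (hx : 0 < x) :
    HasDerivAt (fun x : ℝ => x * (Real.log (1 + x ^ 2) - 2 * Real.log x) + 2 * Real.arctan x)
      (Real.log (1 + x⁻¹ ^ 2)) x := by
  have h1 : HasDerivAt (fun x : ℝ => 1 + x ^ 2) (2 * x) x := by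
    simpa using (hasDerivAt_pow 2 x).const_add 1
  have h2 : HasDerivAt (fun x : ℝ => Real.log (1 + x ^ 2)) (2 * x / (1 + x ^ 2)) x :=
    h1.log (by positivity)
  have h3 : HasDerivAt (fun x : ℝ => 2 * Real.log x) (2 * x⁻¹) x :=
    (Real.hasDerivAt_log hx.ne').const_mul 2
  have h4 := ((hasDerivAt_id x).mul (h2.sub h3)).add ((Real.hasDerivAt_arctan x).const_mul 2)
  have h5 : Real.log (1 + x⁻¹ ^ 2) = 1 * (Real.log (1 + x ^ 2) - 2 * Real.log x) +
      id x * (2 * x / (1 + x ^ 2) - 2 * x⁻¹) + 2 * (1 / (1 + x ^ 2)) := by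
    rw [SumB_log hx]
    have h6 : (1 + x ^ 2) ≠ 0 := by positivity
    simp only [id]
    field_simp
    ring
  rw [h5]
  exact h4

private theorem SumB_atan {t : ℝ} (ht : 0 ≤ t) : Real.log (1 + t ^ 2) ≤ 2 * (t * Real.arctan t) := by
  have hd : ∀ x : ℝ, HasDerivAt (fun x : ℝ => 2 * (x * Real.arctan x) - Real.log (1 + x ^ 2))
      (2 * Real.arctan x) x := by
    intro x
    have h1 : HasDerivAt (fun x : ℝ => 1 + x ^ 2) (2 * x) x := by
      simpa using (hasDerivAt_pow 2 x).const_add 1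
    have h2 : HasDerivAt (fun x : ℝ => Real.log (1 + x ^ 2)) (2 * x / (1 + x ^ 2)) x :=
      h1.log (by positivity)
    have h4 := (((hasDerivAt_id x).mul (Real.hasDerivAt_arctan x)).const_mul 2).sub h2
    have h5 : 2 * Real.arctan x = 2 * (1 * Real.arctan x + id x * (1 / (1 + x ^ 2))) -
        2 * x / (1 + x ^ 2) := by
      simp only [id]
      ring
    rw [h5]
    exact h4
  have hmono : MonotoneOn (fun x : ℝ => 2 * (x * Real.arctan x) - Real.log (1 + x ^ 2))
      (Set.Ici 0) := by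
    apply monotoneOn_of_deriv_nonneg (convex_Ici 0)
    · exact fun x _ => (hd x).continuousAt.continuousWithinAt
    · exact fun x _ => (hd x).differentiableAt.differentiableWithinAt
    · intro x hx
      rw [interior_Ici] at hx
      rw [(hd x).deriv]
      have := Real.arctan_nonneg.2 (le_of_lt hx)
      linarith
  have h1 := hmono (Set.mem_Ici.2 le_rfl) (Set.mem_Ici.2 ht) ht
  simp at h1
  linarith

private theorem SumB_int {a K : ℝ} (ha : 0 < a) (ha1 : a ≤ 1) (hK : 1 ≤ K) :
    ∫ x in a..K, SumB_F x = (1 - a) * (1 + Real.log 2) + a * Real.log a +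
      (K * Real.log (1 + K⁻¹ ^ 2) + 2 * Real.arctan K - Real.log 2 - Real.pi / 2) := by
  have hi1 : IntervalIntegrable SumB_F MeasureTheory.volume a 1 := by
    apply AntitoneOn.intervalIntegrable
    rw [Set.uIcc_of_le ha1]
    exact SumB_anti ha
  have hi2 : IntervalIntegrable SumB_F MeasureTheory.volume 1 K := by
    apply AntitoneOn.intervalIntegrable
    rw [Set.uIcc_of_le hK]
    exact SumB_anti one_pos
  rw [← intervalIntegral.integral_add_adjacent_intervals hi1 hi2]
  congr 1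
  · have h1 : ∫ x in a..1, SumB_F x = ∫ x in a..1, (Real.log 2 - Real.log x) := by
      apply intervalIntegral.integral_congr
      intro x hx
      rw [Set.uIcc_of_le ha1] at hx
      have hx0 : 0 < x := ha.trans_le hx.1
      simp only [SumB_F]
      rw [if_pos hx.2, Real.log_div (by norm_num) hx0.ne']
    rw [h1, intervalIntegral.integral_sub (by simp) intervalIntegral.intervalIntegrable_log',
      intervalIntegral.integral_const, integral_log]
    simp only [Real.log_one, smul_eq_mul]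
    ring
  · have h1 : ∫ x in (1 : ℝ)..K, SumB_F x = ∫ x in (1 : ℝ)..K, Real.log (1 + x⁻¹ ^ 2) := by
      apply intervalIntegral.integral_congr
      intro x hx
      rw [Set.uIcc_of_le hK] at hx
      simp only [SumB_F]
      by_cases h2 : x ≤ 1
      · have h3 : x = 1 := le_antisymm h2 hx.1
        subst h3
        norm_num
      · rw [if_neg h2]
    rw [h1, intervalIntegral.integral_eq_sub_of_hasDerivAt (f := fun x : ℝ =>
      x * (Real.log (1 + x ^ 2) - 2 * Real.log x) + 2 * Real.arctan x)]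
    · rw [SumB_log (by linarith : (0 : ℝ) < K)]
      norm_num [Real.arctan_one]
      ring
    · intro x hx
      rw [Set.uIcc_of_le hK] at hx
      exact SumB_deriv (by linarith [hx.1])
    · apply ContinuousOn.intervalIntegrable
      rw [Set.uIcc_of_le hK]
      refine ContinuousOn.log (continuousOn_const.add ((continuousOn_id.inv₀ ?_).pow 2)) ?_
      · intro x hx
        exact (by linarith [hx.1] : (0 : ℝ) < x).ne'
      · intro x hx
        positivity

private theorem SumB_int_le {a K : ℝ} (ha : 0 < a) (ha1 : a ≤ 1) (hK : 1 ≤ K) :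
    ∫ x in a..K, SumB_F x ≤ 1 + Real.pi / 2 := by
  rw [SumB_int ha ha1 hK]
  have hK0 : 0 < K := by linarith
  have h1 := SumB_atan (t := K⁻¹) (by positivity)
  have h2 : Real.arctan K⁻¹ = Real.pi / 2 - Real.arctan K := Real.arctan_inv_of_pos hK0
  rw [h2] at h1
  have h3 : K * Real.log (1 + K⁻¹ ^ 2) ≤ 2 * (Real.pi / 2 - Real.arctan K) := by
    have h4 := mul_le_mul_of_nonneg_left h1 hK0.le
    have h5 : K * (2 * (K⁻¹ * (Real.pi / 2 - Real.arctan K))) =
        2 * (Real.pi / 2 - Real.arctan K) := by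
      field_simp
    linarith
  have h6 : a * Real.log a ≤ 0 := mul_nonpos_of_nonneg_of_nonpos ha.le (Real.log_nonpos ha.le ha1)
  have h7 : 0 < Real.log 2 := Real.log_pos (by norm_num)
  nlinarith

private theorem SumB_le_int {a K : ℝ} (ha : 0 < a) (ha1 : a ≤ 1) (hK : 1 ≤ K) :
    1 + 2 * Real.arctan K - Real.pi / 2 - (a * (1 + Real.log 2) - a * Real.log a) ≤
      ∫ x in a..K, SumB_F x := by
  rw [SumB_int ha ha1 hK]
  have h1 : 0 ≤ K * Real.log (1 + K⁻¹ ^ 2) := by
    apply mul_nonneg (by linarith)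
    apply Real.log_nonneg
    have : 0 ≤ K⁻¹ ^ 2 := by positivity
    linarith
  linarith

/-- the small primes -/
private theorem SumB_small : ∃ C : ℝ, 0 < C ∧ ∀ a : ℝ, 0 < a → a ≤ 1 → ∀ᶠ y : ℝ in atTop,
    ∑ p ∈ PP (a * y), Real.log (2 * y / p) ≤
      2 * a * (5 * Real.log (2 / a) + C) * (y / Real.log y) := by
  obtain ⟨C0, hC0, hB⟩ := Chebyshev.primeCounting_sub_theta_div_log_isBigO.exists_pos
  refine ⟨C0, hC0, fun a ha ha1 => ?_⟩
  have ht : Tendsto (fun y : ℝ => a * y) atTop atTop := tendsto_id.const_mul_atTop ha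
  filter_upwards [ht.eventually hB.bound, ht.eventually (eventually_gt_atTop 1),
    eventually_gt_atTop (1 : ℝ), Real.tendsto_log_atTop.eventually (eventually_ge_atTop
      (-(2 * Real.log a)))] with y h1 h2 h3 h4
  have hy0 : 0 < y := by linarith
  have hΛ : 0 < Real.log y := Real.log_pos h3
  set x : ℝ := a * y with hx
  have hx0 : 0 < x := by linarith
  have hΛx : 0 < Real.log x := Real.log_pos h2
  have hlx : Real.log y / 2 ≤ Real.log x := by
    rw [hx, Real.log_mul ha.ne' hy0.ne']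
    linarith
  have hsum : ∑ p ∈ PP x, Real.log (2 * y / p) =
      (Nat.primeCounting ⌊x⌋₊ : ℝ) * Real.log (2 / a) +
        ((Nat.primeCounting ⌊x⌋₊ : ℝ) * Real.log x - Chebyshev.theta x) := by
    have e1 : ∀ p ∈ PP x, Real.log (2 * y / p) = Real.log (2 / a) + Real.log x - Real.log p := by
      intro p hp
      have hp0 : (0 : ℝ) < p := by
        have := Nat.two_le_of_mem_primesLE hp
        exact_mod_cast (by omega : 0 < p)
      have e2 : 2 * y / p = 2 / a * x / p := by
        rw [hx]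
        field_simp
      rw [e2, Real.log_div (by positivity) hp0.ne', Real.log_mul (by positivity) hx0.ne']
    rw [Finset.sum_congr rfl e1, Finset.sum_sub_distrib, Finset.sum_const, nsmul_eq_mul,
      Chebyshev.theta_eq_sum_primesLE]
    unfold PP
    rw [Nat.primesLE_card_eq_primeCounting]
    ring
  rw [hsum]
  have h5 : (Nat.primeCounting ⌊x⌋₊ : ℝ) ≤ 5 * (x / Real.log x) := by
    have := Pool.Agent.H96.KMF.pi_le_five h2
    rwa [mul_div_assoc] at this
  have h6 : (Nat.primeCounting ⌊x⌋₊ : ℝ) * Real.log x - Chebyshev.theta x ≤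
      C0 * (x / Real.log x) := by
    rw [Real.norm_eq_abs, Real.norm_eq_abs, abs_of_nonneg (by positivity : 0 ≤ x / Real.log x ^ 2)]
      at h1
    have a1 := (le_abs_self _).trans h1
    have a2 := mul_le_mul_of_nonneg_right a1 hΛx.le
    have a3 : ((Nat.primeCounting ⌊x⌋₊ : ℝ) - Chebyshev.theta x / Real.log x) * Real.log x =
        Nat.primeCounting ⌊x⌋₊ * Real.log x - Chebyshev.theta x := by field_simp
    have a4 : C0 * (x / Real.log x ^ 2) * Real.log x = C0 * (x / Real.log x) := by field_simp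
    rw [a3, a4] at a2
    exact a2
  have h7 : 0 ≤ Real.log (2 / a) := by
    apply Real.log_nonneg
    rw [le_div_iff₀ ha]
    linarith
  have h8 : x / Real.log x ≤ 2 * a * (y / Real.log y) := by
    rw [div_le_iff₀ hΛx]
    have h9 : 2 * a * (y / Real.log y) * (Real.log y / 2) = x := by
      rw [hx]
      field_simp
    have h10 : 0 ≤ 2 * a * (y / Real.log y) := by positivity
    calc x = 2 * a * (y / Real.log y) * (Real.log y / 2) := h9.symm
      _ ≤ 2 * a * (y / Real.log y) * Real.log x := mul_le_mul_of_nonneg_left hlx h10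
  calc (Nat.primeCounting ⌊x⌋₊ : ℝ) * Real.log (2 / a) +
        ((Nat.primeCounting ⌊x⌋₊ : ℝ) * Real.log x - Chebyshev.theta x)
      ≤ 5 * (x / Real.log x) * Real.log (2 / a) + C0 * (x / Real.log x) :=
        add_le_add (mul_le_mul_of_nonneg_right h5 h7) h6
    _ = (5 * Real.log (2 / a) + C0) * (x / Real.log x) := by ring
    _ ≤ (5 * Real.log (2 / a) + C0) * (2 * a * (y / Real.log y)) :=
        mul_le_mul_of_nonneg_left h8 (by positivity)
    _ = 2 * a * (5 * Real.log (2 / a) + C0) * (y / Real.log y) := by ring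

/-- the choice of `a` -/
private theorem SumB_choice (C : ℝ) {ε : ℝ} (hε : 0 < ε) : ∃ a : ℝ, 0 < a ∧ a ≤ 1 ∧
    2 * a * (5 * Real.log (2 / a) + C) ≤ ε ∧ a * (1 + Real.log 2) - a * Real.log a ≤ ε := by
  have hc1 : Continuous fun a : ℝ => 10 * Real.log 2 * a - 10 * (a * Real.log a) + 2 * C * a :=
    ((continuous_const.mul continuous_id).sub (continuous_const.mul Real.continuous_mul_log)).add
      (continuous_const.mul continuous_id)
  have hc2 : Continuous fun a : ℝ => a * (1 + Real.log 2) - a * Real.log a :=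
    (continuous_id.mul continuous_const).sub Real.continuous_mul_log
  have h1 : ∀ᶠ a : ℝ in 𝓝 0, 10 * Real.log 2 * a - 10 * (a * Real.log a) + 2 * C * a < ε := by
    have := hc1.tendsto 0
    exact this.eventually_lt_const (by simpa using hε)
  have h2 : ∀ᶠ a : ℝ in 𝓝 0, a * (1 + Real.log 2) - a * Real.log a < ε := by
    have := hc2.tendsto 0
    exact this.eventually_lt_const (by simpa using hε)
  have h3 : ∀ᶠ a : ℝ in 𝓝[>] 0, (10 * Real.log 2 * a - 10 * (a * Real.log a) + 2 * C * a < ε ∧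
      a * (1 + Real.log 2) - a * Real.log a < ε) ∧ a ∈ Set.Ioo (0 : ℝ) 1 :=
    ((h1.and h2).filter_mono nhdsWithin_le_nhds).and (Ioo_mem_nhdsGT one_pos)
  obtain ⟨a, ⟨h4, h5⟩, h6, h7⟩ := h3.exists
  refine ⟨a, h6, h7.le, ?_, h5.le⟩
  rw [Real.log_div (by norm_num) h6.ne']
  linarith

private theorem SumB_cancel {y : ℝ} (hy : 0 < y) (hΛ : 0 < Real.log y) {S : ℝ} :
    Real.log y / y * S * (y / Real.log y) = S := by
  field_simp

/-- the sum over the primes `p > ay` -/
private theorem SumB_split {K a y : ℝ} (hy : 1 < y) :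
    Lam y K = ∑ p ∈ (PP (K * y)).filter (fun p : ℕ => a * y < (p : ℝ)), SumB_F ((p : ℝ) / y) +
      ∑ p ∈ (PP (K * y)).filter (fun p : ℕ => ¬ a * y < (p : ℝ)), la y p := by
  unfold Lam
  rw [← Finset.sum_filter_add_sum_filter_not (PP (K * y)) (fun p : ℕ => a * y < (p : ℝ))]
  congr 1
  exact Finset.sum_congr rfl fun p _ => SumB_la (by linarith) p

private theorem SumB_la_small {a : ℝ} (ha1 : a ≤ 1) {y : ℝ} (hy : 1 < y) {p : ℕ}
    (hp : (p : ℝ) ≤ a * y) : la y p = Real.log (2 * y / p) := by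
  unfold la
  rw [if_pos (hp.trans (by nlinarith))]

private theorem SumB_log_nonneg {a : ℝ} (ha1 : a ≤ 1) {y : ℝ} (hy : 1 < y) {p : ℕ}
    (hp1 : 1 ≤ p) (hp : (p : ℝ) ≤ a * y) : 0 ≤ Real.log (2 * y / p) := by
  apply Real.log_nonneg
  have h1 : (1 : ℝ) ≤ p := by exact_mod_cast hp1
  rw [le_div_iff₀ (by linarith)]
  nlinarith

theorem Lam_upper {K : ℝ} (hK : 1 ≤ K) {ε : ℝ} (hε : 0 < ε) : ∀ᶠ y : ℝ in atTop,
    Lam y K ≤ (1 + Real.pi / 2 + ε) * (y / Real.log y) := by
  obtain ⟨C, hC, hsmall⟩ := SumB_small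
  obtain ⟨a, ha, ha1, h1, -⟩ := SumB_choice C (half_pos hε)
  have h2 := sum_prime_tendsto (F := SumB_F) ha (ha1.trans hK) (SumB_anti ha)
  have h3 := SumB_int_le ha ha1 hK
  filter_upwards [hsmall a ha ha1, h2.eventually_lt_const (u := 1 + Real.pi / 2 + ε / 2)
    (by linarith), eventually_gt_atTop (1 : ℝ)] with y h4 h5 hy
  have hy0 : 0 < y := by linarith
  have hΛ : 0 < Real.log y := Real.log_pos hy
  have hq : 0 < y / Real.log y := by positivity
  rw [SumB_split (a := a) hy]
  have h6 : ∑ p ∈ (PP (K * y)).filter (fun p : ℕ => a * y < (p : ℝ)), SumB_F ((p : ℝ) / y) ≤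
      (1 + Real.pi / 2 + ε / 2) * (y / Real.log y) := by
    have h7 := mul_le_mul_of_nonneg_right h5.le hq.le
    rwa [SumB_cancel hy0 hΛ] at h7
  have h8 : ∑ p ∈ (PP (K * y)).filter (fun p : ℕ => ¬ a * y < (p : ℝ)), la y p ≤
      ε / 2 * (y / Real.log y) := by
    calc ∑ p ∈ (PP (K * y)).filter (fun p : ℕ => ¬ a * y < (p : ℝ)), la y p
        = ∑ p ∈ (PP (K * y)).filter (fun p : ℕ => ¬ a * y < (p : ℝ)), Real.log (2 * y / p) :=
          Finset.sum_congr rfl fun p hp =>
            SumB_la_small ha1 hy (not_lt.1 (Finset.mem_filter.1 hp).2)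
      _ ≤ ∑ p ∈ PP (a * y), Real.log (2 * y / p) := by
          apply Finset.sum_le_sum_of_subset_of_nonneg
          · intro p hp
            rw [Finset.mem_filter] at hp
            unfold PP at hp ⊢
            rw [Nat.mem_primesLE] at hp ⊢
            exact ⟨Nat.le_floor (not_lt.1 hp.2), hp.1.2⟩
          · intro p hp _
            unfold PP at hp
            have h9 := Nat.mem_primesLE.1 hp
            refine SumB_log_nonneg ha1 hy h9.2.one_lt.le ?_
            exact (Nat.le_floor_iff (by positivity)).1 h9.1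
      _ ≤ 2 * a * (5 * Real.log (2 / a) + C) * (y / Real.log y) := h4
      _ ≤ ε / 2 * (y / Real.log y) := mul_le_mul_of_nonneg_right h1 hq.le
  calc _ ≤ (1 + Real.pi / 2 + ε / 2) * (y / Real.log y) + ε / 2 * (y / Real.log y) :=
        add_le_add h6 h8
    _ = (1 + Real.pi / 2 + ε) * (y / Real.log y) := by ring

theorem Lam_lower {K : ℝ} (hK : 1 ≤ K) {ε : ℝ} (hε : 0 < ε) : ∀ᶠ y : ℝ in atTop,
    (1 + 2 * Real.arctan K - Real.pi / 2 - ε) * (y / Real.log y) ≤ Lam y K := by
  obtain ⟨a, ha, ha1, -, h1⟩ := SumB_choice 0 (half_pos hε)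
  have h2 := sum_prime_tendsto (F := SumB_F) ha (ha1.trans hK) (SumB_anti ha)
  have h3 := SumB_le_int ha ha1 hK
  filter_upwards [h2.eventually_const_lt (u := 1 + 2 * Real.arctan K - Real.pi / 2 - ε)
    (by linarith), eventually_gt_atTop (1 : ℝ)] with y h5 hy
  have hy0 : 0 < y := by linarith
  have hΛ : 0 < Real.log y := Real.log_pos hy
  have hq : 0 < y / Real.log y := by positivity
  rw [SumB_split (a := a) hy]
  have h6 : (1 + 2 * Real.arctan K - Real.pi / 2 - ε) * (y / Real.log y) ≤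
      ∑ p ∈ (PP (K * y)).filter (fun p : ℕ => a * y < (p : ℝ)), SumB_F ((p : ℝ) / y) := by
    have h7 := mul_le_mul_of_nonneg_right h5.le hq.le
    rwa [SumB_cancel hy0 hΛ] at h7
  have h8 : 0 ≤ ∑ p ∈ (PP (K * y)).filter (fun p : ℕ => ¬ a * y < (p : ℝ)), la y p := by
    apply Finset.sum_nonneg
    intro p hp
    rw [Finset.mem_filter] at hp
    have h9 : 1 ≤ p := by
      have := Nat.two_le_of_mem_primesLE hp.1
      omega
    rw [SumB_la_small ha1 hy (not_lt.1 hp.2)]
    exact SumB_log_nonneg ha1 hy h9 (not_lt.1 hp.2)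
  linarith

end Pool.Agent.H96.LK3
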