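import Pool.Agent.H96.LK3.LowDet
import Pool.Agent.H96.LK3.EQB
import Pool.Agent.H96.LK3.SumB
import Pool.Agent.H96.LK3.Asy

/-!
# LK3 LowAs: asymptotic lower bound for `-log (1 - c_k)`
-/

set_option autoImplicit false

namespace Pool.Agent.H96.LK3

open Finset Filter Topology Pool.Agent.H96.KMF

lemma exists_K' {e : ℝ} (he : 0 < e) : ∃ K : ℝ, 1 ≤ K ∧ 200 / Real.sqrt K ≤ e := by
  refine ⟨(200 / e) ^ 2 + 1, by nlinarith [sq_nonneg (200 / e)], ?_⟩
  have h0 : 0 < 200 / e := by positivity
  have h1 : 200 / e ≤ Real.sqrt ((200 / e) ^ 2 + 1) := by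
    apply Real.le_sqrt_of_sq_le; linarith
  rw [div_le_iff₀ (by linarith)]
  rw [div_le_iff₀ he] at h1
  linarith

lemma lower_L {ε : ℝ} (hε : 0 < ε) : ∀ᶠ L : ℝ in atTop, ∀ k : ℕ, Real.log k = L → ∀ c : ℝ,
    c < 1 → Tendsto (fun n : ℕ => (gk k n : ℝ) / n) atTop (𝓝 c) →
    Real.log L + Real.log (Real.log L) -
      (1 + Real.log (1 + Real.pi / 2) + Real.log (Real.log 2)) - ε ≤
      -Real.log (1 - c) * (Real.log 2 / L) := by
  set e := min (ε / 16) (1 / 100) with he
  have he0 : 0 < e := lt_min (by positivity) (by norm_num)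
  have he1 : e ≤ 1 / 100 := min_le_right _ _
  have heε : 16 * e ≤ ε := by
    have : e ≤ ε / 16 := min_le_left _ _
    linarith
  obtain ⟨K, hK, hKe⟩ := exists_K' he0
  have hpi1 := Real.pi_gt_d2
  set a := 1 + Real.pi / 2 with ha
  have ha1 : 1 ≤ a := by linarith
  have ha0 : 0 < a := by linarith
  have hl2 : 0 < Real.log 2 := Real.log_pos (by norm_num)
  have hl2b := Real.log_two_lt_d9
  set A := a * Real.log 2 with hA
  have hA0 : 0 < A := by positivity
  have hr := (yy_ratio hA0).eventually_lt_const (u := (1 + e) / A)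
    (by apply div_lt_div_of_pos_right _ hA0; linarith)
  have hs := (yy_small (K := 1) hA0 (by norm_num)).eventually_lt_const (u := 1) (by norm_num)
  have hexp : ∀ᶠ L : ℝ in atTop, (e * L) ^ 2 * Real.exp (-(e * L)) < e ^ 2 / 10 :=
    ((Real.tendsto_pow_mul_exp_neg_atTop_nhds_zero 2).comp
      (tendsto_id.const_mul_atTop he0)).eventually_lt_const (by positivity)
  filter_upwards [eventually_ge_atTop (100 : ℝ), (yy_tendsto hA0).eventually_ge_atTop 16,
    (yy_tendsto hA0).eventually (EQ_bound hK he0), (yy_tendsto hA0).eventually (Lam_upper hK he0),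
    hr, hs, hexp] with L hL1 hy g1 g2 hr hs hexp k hk c hc1 hc
  have hL0 : 0 < L := by linarith
  set y := yy A L with hyd
  have hy0 : 0 < y := by linarith
  have hlogy : Real.log y = Real.log L + Real.log (Real.log L) - Real.log A :=
    log_yy hA0 (by linarith)
  have hΛ : 0 < Real.log y := Real.log_pos (by linarith)
  have hN0 : 0 < y / Real.log y := by positivity
  have hyL : Real.log y ≤ L := by
    rw [one_mul, div_lt_one hL0] at hs
    have h1 : Real.log y ^ 2 ≤ L ^ 2 := by
      have : L * 1 ≤ L * L := mul_le_mul_of_nonneg_left (by linarith) hL0.le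
      rw [sq L]; linarith
    exact (sq_le_sq₀ hΛ.le hL0.le).mp h1
  have h6 : 10 * L ^ 2 ≤ Real.exp (e * L) := by
    rw [Real.exp_neg, ← div_eq_mul_inv, div_lt_iff₀ (Real.exp_pos _)] at hexp
    have h1 : e ^ 2 * (10 * L ^ 2) ≤ e ^ 2 * Real.exp (e * L) := by
      have : (e * L) ^ 2 = e ^ 2 * L ^ 2 := by ring
      linarith
    exact le_of_mul_le_mul_left h1 (by positivity)
  set D := (a + 3 * e) * (1 + e) / A with hD
  have hD0 : 0 ≤ D := by positivity
  have hE : ∀ z : ℕ, EQ (Real.log 2 / Real.log y) (QY y) z ≤ Real.exp (D * L) := by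
    intro z
    refine (g1 z).trans (Real.exp_le_exp.mpr ?_)
    calc Lam y K + (e + 200 / Real.sqrt K) * (y / Real.log y)
        ≤ (a + e) * (y / Real.log y) + (e + e) * (y / Real.log y) := by
          apply add_le_add g2
          apply mul_le_mul_of_nonneg_right _ hN0.le
          linarith
      _ = (a + 3 * e) * (y / Real.log y) := by ring
      _ ≤ (a + 3 * e) * ((1 + e) / A * L) := by
          apply mul_le_mul_of_nonneg_left _ (by positivity)
          rw [div_lt_iff₀ hL0] at hr
          exact hr.le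
      _ = D * L := by rw [hD]; ring
  have hmain := lower_det hL1 hy hyL hD0 he0.le hE h6 k hk c hc1 hc
  refine le_trans ?_ hmain
  have hlA : Real.log A = Real.log a + Real.log (Real.log 2) := by
    rw [hA, Real.log_mul ha0.ne' hl2.ne']
  have hDl : D * Real.log 2 ≤ 1 + 5 * e := by
    have h1 : D * Real.log 2 = (a + 3 * e) * (1 + e) / a := by
      rw [hD, hA]; field_simp
    rw [h1, div_le_iff₀ ha0]
    have h2 : (1 + 5 * e) * a - (a + 3 * e) * (1 + e) = 4 * e * (a - 1) + e * (1 - 3 * e) := by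
      ring
    have h3 : 0 ≤ 4 * e * (a - 1) := mul_nonneg (by positivity) (by linarith)
    have h4 : 0 ≤ e * (1 - 3 * e) := mul_nonneg he0.le (by linarith)
    linarith
  have hel : e * Real.log 2 ≤ e * 1 := mul_le_mul_of_nonneg_left (by linarith) he0.le
  rw [hlogy, hlA]
  linarith

/-- Asymptotic lower bound. -/
theorem lower_asym {ε : ℝ} (hε : 0 < ε) : ∀ᶠ k : ℕ in atTop, ∀ c : ℝ, c < 1 →
    Tendsto (fun n : ℕ => (gk k n : ℝ) / n) atTop (𝓝 c) →
    Real.log (Real.log k) + Real.log (Real.log (Real.log k)) -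
      (1 + Real.log (1 + Real.pi / 2) + Real.log (Real.log 2)) - ε ≤
      -Real.log (1 - c) * (Real.log 2 / Real.log k) := by
  have hlog : Tendsto (fun k : ℕ => Real.log k) atTop atTop :=
    Real.tendsto_log_atTop.comp tendsto_natCast_atTop_atTop
  filter_upwards [hlog.eventually (lower_L hε)] with k hk c hc1 hc
  exact hk k rfl c hc1 hc

end Pool.Agent.H96.LK3
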