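import Pool.Agent.H96.LK3.UpAs
import Pool.Agent.H96.LK3.LowAs

/-!
# LK3 Final: the limit density of `k`-multiple-free sets for large `k`, sharp form
-/

set_option autoImplicit false

namespace Pool.Agent.H96.LK3

open Finset Filter Topology Pool.Agent.H96.KMF

/-- As `k → ∞`, `log (1 / (1 - c_k)) * (log 2 / log k) = log log k + log log log k -
(1 + log (1 + π / 2) + log log 2) + o(1)`. -/
theorem large_k_sharp : ∃ c : ℕ → ℝ,
    (∀ k : ℕ, Tendsto (fun n : ℕ => (gk k n : ℝ) / n) atTop (𝓝 (c k))) ∧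
    (∀ᶠ k : ℕ in atTop, c k < 1) ∧
    Tendsto (fun k : ℕ => -Real.log (1 - c k) * (Real.log 2 / Real.log k) -
      (Real.log (Real.log k) + Real.log (Real.log (Real.log k)))) atTop
      (𝓝 (-(1 + Real.log (1 + Real.pi / 2) + Real.log (Real.log 2)))) := by
  choose c hc _ using fun k => exists_limit k
  refine ⟨c, hc, ?_, ?_⟩
  · filter_upwards [upper_asym one_pos] with k hk
    exact (hk (c k) (hc k)).1
  · rw [Metric.tendsto_nhds]
    intro ε hε
    filter_upwards [upper_asym (half_pos hε), lower_asym (half_pos hε)] with k h1 h2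
    obtain ⟨a1, a2⟩ := h1 (c k) (hc k)
    have a3 := h2 (c k) a1 (hc k)
    rw [Real.dist_eq, abs_lt]
    constructor <;> linarith

end Pool.Agent.H96.LK3
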