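import Pool.Agent.H96.LK3.Constr

/-!
# LK3 LowDet: lower bound for `-log (1 - c_k)`, the inequality with explicit hypotheses

Proof: as `large_lower` of `Pool/Agent/H96/KMF/LargeK.lean`, with `gk_ge_quick` in place of
`gk_ge_jordan`.  `σ = log 2 / log y` (so `p ^ σ ≤ 2` for `p ≤ y`),
`T = k ^ (1 / σ) = exp (L * log y / log 2)`, `J = ⌈L * log y / (log 2) ^ 2⌉₊`, so `T ≤ 2 ^ J` and
`c ≥ 1 - 3 * J * exp (D * L) / T`, hence
`-log (1 - c) ≥ L * log y / log 2 - D * L - log (3 * J)`, and `3 * J ≤ 10 * L ^ 2 ≤ exp (e * L)`.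
-/

set_option autoImplicit false

namespace Pool.Agent.H96.LK3

open Finset Filter Topology Pool.Agent.H96.KMF

theorem lower_det {L y D e : ℝ} (hL1 : 100 ≤ L) (hy : 16 ≤ y) (hyL : Real.log y ≤ L)
    (hD : 0 ≤ D) (he : 0 ≤ e)
    (hE : ∀ z : ℕ, EQ (Real.log 2 / Real.log y) (QY y) z ≤ Real.exp (D * L))
    (h6 : 10 * L ^ 2 ≤ Real.exp (e * L))
    (k : ℕ) (hk : Real.log k = L) (c : ℝ) (hc1 : c < 1)
    (hc : Tendsto (fun n : ℕ => (gk k n : ℝ) / n) atTop (𝓝 c)) :
    Real.log y - (D + e) * Real.log 2 ≤ -Real.log (1 - c) * (Real.log 2 / L) := by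
  have hℓ : 0 < L := by linarith
  have hl2 : 0 < Real.log 2 := Real.log_pos (by norm_num)
  have hl2a := Real.log_two_gt_d9
  have hl2b := Real.log_two_lt_d9
  have hk0 : 0 < k := by
    rcases Nat.eq_zero_or_pos k with rfl | h
    · simp at hk; linarith
    · exact h
  have hkr : (0 : ℝ) < k := by exact_mod_cast hk0
  have hy0 : 0 < y := by linarith
  set M := Real.log y with hM
  have hM4 : 4 * Real.log 2 ≤ M := by
    have : Real.log (2 ^ 4) ≤ Real.log y := Real.log_le_log (by norm_num) (by linarith)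
    rwa [Real.log_pow, show ((4 : ℕ) : ℝ) = 4 by norm_num] at this
  have hM0 : 0 < M := by linarith
  set σ := Real.log 2 / M with hσ
  have hσ0 : 0 < σ := by positivity
  have hQ : ∀ p ∈ QY y, p.Prime ∧ (p : ℝ) ^ σ ≤ 2 := by
    intro p hp
    rw [QY, Finset.mem_filter] at hp
    have h1 := hp.1
    unfold PP at h1
    rw [Nat.mem_primesLE] at h1
    refine ⟨h1.2, ?_⟩
    have h2 : (p : ℝ) ≤ y := (Nat.le_floor_iff hy0.le).mp h1.1
    calc (p : ℝ) ^ σ ≤ y ^ σ := Real.rpow_le_rpow (by positivity) h2 hσ0.le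
      _ = 2 := by
        rw [Real.rpow_def_of_pos hy0, ← hM, hσ, mul_div_cancel₀ _ hM0.ne', Real.exp_log two_pos]
  set T := (k : ℝ) ^ (1 / σ) with hT
  have hTe : T = Real.exp (L * M / Real.log 2) := by
    rw [hT, Real.rpow_def_of_pos hkr, hk, hσ]; congr 1; field_simp
  have hT0 : 0 < T := by rw [hTe]; exact Real.exp_pos _
  set J := ⌈L * M / (Real.log 2) ^ 2⌉₊ with hJ
  have hJ1 : L * M / (Real.log 2) ^ 2 ≤ J := Nat.le_ceil _
  have hJ2 : (J : ℝ) < L * M / (Real.log 2) ^ 2 + 1 := Nat.ceil_lt_add_one (by positivity)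
  have hJ3 : (1 : ℝ) ≤ J := by
    have : (1 : ℝ) ≤ L * M / (Real.log 2) ^ 2 := by
      rw [le_div_iff₀ (by positivity)]
      calc 1 * Real.log 2 ^ 2 ≤ 1 := by
            rw [one_mul]; exact pow_le_one₀ hl2.le (by linarith)
        _ ≤ L * M := by
          calc (1 : ℝ) ≤ 100 * 1 := by norm_num
            _ ≤ L * M := mul_le_mul hL1 (by linarith) (by norm_num) hℓ.le
    linarith
  have h2J : T ≤ 2 ^ J := by
    have e2 : (2 : ℝ) ^ J = Real.exp (J * Real.log 2) := by
      rw [Real.exp_nat_mul, Real.exp_log (by norm_num)]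
    rw [e2, hTe]
    apply Real.exp_le_exp.mpr
    calc L * M / Real.log 2 = (L * M / (Real.log 2) ^ 2) * Real.log 2 := by field_simp
      _ ≤ J * Real.log 2 := mul_le_mul_of_nonneg_right hJ1 hl2.le
  have hgk : ∀ n : ℕ, 1 ≤ n → 1 - 3 * J * Real.exp (D * L) / T ≤ (gk k n : ℝ) / n := by
    intro n hn
    have hnr : (0 : ℝ) < n := by exact_mod_cast hn
    have e1 := gk_ge_quick hσ0 (QY y) hQ k n hk0 hn J
    rw [← hT] at e1
    rw [le_div_iff₀ hnr]
    refine le_trans ?_ e1
    have e2 : (n : ℝ) / 2 ^ J ≤ n / T := div_le_div_of_nonneg_left hnr.le hT0 h2J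
    have e3 : (J : ℝ) * (2 * n * EQ σ (QY y) n / T) ≤ J * (2 * n * Real.exp (D * L) / T) := by
      apply mul_le_mul_of_nonneg_left _ (by positivity)
      apply div_le_div_of_nonneg_right _ hT0.le
      exact mul_le_mul_of_nonneg_left (hE n) (by positivity)
    have e4 : (n : ℝ) / T ≤ n * (J * Real.exp (D * L)) / T := by
      apply div_le_div_of_nonneg_right _ hT0.le
      have h1 : 1 ≤ Real.exp (D * L) := Real.one_le_exp (by positivity)
      have h2 : 1 ≤ J * Real.exp (D * L) := one_le_mul_of_one_le_of_one_le hJ3 h1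
      exact le_mul_of_one_le_right hnr.le h2
    have e5 : (1 - 3 * J * Real.exp (D * L) / T) * n = n - J * (2 * n * Real.exp (D * L) / T) -
        n * (J * Real.exp (D * L)) / T := by ring
    rw [e5]
    linarith
  have hclow : 1 - 3 * J * Real.exp (D * L) / T ≤ c := by
    refine ge_of_tendsto hc ?_
    filter_upwards [eventually_ge_atTop 1] with n hn
    exact hgk n hn
  have hcc : 1 - c ≤ 3 * J * Real.exp (D * L) / T := by linarith
  have hlog := Real.log_le_log (by linarith : 0 < 1 - c) hcc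
  have h3J : Real.log (3 * J) ≤ e * L := by
    rw [Real.log_le_iff_le_exp (by linarith)]
    refine le_trans ?_ h6
    have e1 : L * M / (Real.log 2) ^ 2 ≤ 2.1 * L ^ 2 := by
      rw [div_le_iff₀ (by positivity)]
      have e2 : (0.693 : ℝ) ^ 2 ≤ (Real.log 2) ^ 2 :=
        pow_le_pow_left₀ (by norm_num) (by linarith) 2
      have e3 : L * M ≤ L ^ 2 := by
        rw [sq]; exact mul_le_mul_of_nonneg_left hyL hℓ.le
      have e4 : 0 < L ^ 2 := by positivity
      have e5 : (1 : ℝ) ≤ 2.1 * (Real.log 2) ^ 2 := by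
        norm_num at e2 ⊢
        linarith
      calc L * M ≤ L ^ 2 * 1 := by linarith
        _ ≤ L ^ 2 * (2.1 * (Real.log 2) ^ 2) := mul_le_mul_of_nonneg_left e5 e4.le
        _ = 2.1 * L ^ 2 * Real.log 2 ^ 2 := by ring
    have e6 : (1 : ℝ) ≤ L ^ 2 := one_le_pow₀ (by linarith)
    linarith
  have e6 : Real.log (3 * J * Real.exp (D * L) / T) =
      Real.log (3 * J) + D * L - L * M / Real.log 2 := by
    rw [Real.log_div (by positivity) hT0.ne', Real.log_mul (by positivity) (Real.exp_pos _).ne',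
      Real.log_exp, hTe, Real.log_exp]
  rw [e6] at hlog
  have e7 : L * M / Real.log 2 - (D + e) * L ≤ -Real.log (1 - c) := by linarith
  have hσ' : 0 < Real.log 2 / L := by positivity
  have e8 := mul_le_mul_of_nonneg_right e7 hσ'.le
  refine le_trans ?_ e8
  apply le_of_eq
  field_simp

end Pool.Agent.H96.LK3
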