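import Pool.Agent.H96.LK3.Defs
import Pool.Agent.H91.EHA.SwJ3

/-!
# LK3 Pnt: the prime number theorem `π(y) log y / y → 1`

From `Pool.Agent.H91.EHA.pnt` (`|ψ(y) - y| ≤ C y / (log y)^c`), `Chebyshev.psi_sub_theta_le`,
`Chebyshev.theta_le_psi` and `Chebyshev.primeCounting_sub_theta_div_log_isBigO` (see
`H36/IS/Pnt.lean` and `H96/KMF/ESum.lean` for the use of these).
-/

set_option autoImplicit false

namespace Pool.Agent.H96.LK3

open Finset Filter Topology

private theorem Pnt_psi (y : ℕ) :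
    ∑ n ∈ Icc 1 y, (ArithmeticFunction.vonMangoldt n : ℝ) = Chebyshev.psi y := by
  unfold Chebyshev.psi
  rw [Nat.floor_natCast]
  rfl

private theorem Pnt_nat : Tendsto (fun N : ℕ => Chebyshev.psi N / N) atTop (𝓝 1) := by
  obtain ⟨C, hC, hp'⟩ := Pool.Agent.H91.EHA.pnt 1
  have hp : ∀ y : ℕ, 2 ≤ y → |(∑ n ∈ Icc 1 y, (ArithmeticFunction.vonMangoldt n : ℝ)) - y| ≤
      C * y / Real.log y ^ 1 := hp'
  rw [tendsto_iff_dist_tendsto_zero]
  have h1 : Tendsto (fun N : ℕ => C / Real.log N) atTop (𝓝 0) :=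
    tendsto_const_nhds.div_atTop (Real.tendsto_log_atTop.comp tendsto_natCast_atTop_atTop)
  refine squeeze_zero' (Eventually.of_forall fun _ => dist_nonneg) ?_ h1
  filter_upwards [eventually_ge_atTop 2] with N hN
  have hN0 : (0 : ℝ) < N := by
    have : (2 : ℝ) ≤ N := by exact_mod_cast hN
    linarith
  have h2 := hp N hN
  rw [Pnt_psi, pow_one] at h2
  have h3 : Chebyshev.psi N / N - 1 = (Chebyshev.psi N - N) / N := by
    field_simp
  rw [Real.dist_eq, h3, abs_div, abs_of_pos hN0, div_le_iff₀ hN0]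
  refine h2.trans (le_of_eq ?_)
  ring

private theorem Pnt_real : Tendsto (fun y : ℝ => Chebyshev.psi y / y) atTop (𝓝 1) := by
  have h1 : Tendsto (fun y : ℝ => Chebyshev.psi (⌊y⌋₊ : ℝ) / (⌊y⌋₊ : ℝ)) atTop (𝓝 1) :=
    Pnt_nat.comp tendsto_nat_floor_atTop
  have h2 : Tendsto (fun y : ℝ => (⌊y⌋₊ : ℝ) / y) atTop (𝓝 1) := tendsto_nat_floor_div_atTop
  have h3 := h1.mul h2
  rw [mul_one] at h3
  refine h3.congr' ?_
  filter_upwards [eventually_ge_atTop 1] with y hy
  have hy0 : 0 < ⌊y⌋₊ := Nat.floor_pos.2 hy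
  have hy1 : (0 : ℝ) < (⌊y⌋₊ : ℝ) := by exact_mod_cast hy0
  have h4 : Chebyshev.psi (⌊y⌋₊ : ℝ) = Chebyshev.psi y := by
    unfold Chebyshev.psi
    rw [Nat.floor_natCast]
  rw [h4]
  field_simp

private theorem Pnt_theta : Tendsto (fun y : ℝ => Chebyshev.theta y / y) atTop (𝓝 1) := by
  have h1 : Tendsto (fun y : ℝ => (Chebyshev.psi y - Chebyshev.theta y) / y) atTop (𝓝 0) := by
    have h2 : Tendsto (fun x : ℝ => Real.log x / x ^ (1 / 2 : ℝ)) atTop (𝓝 0) :=
      (isLittleO_log_rpow_atTop (by norm_num : (0 : ℝ) < 1 / 2)).tendsto_div_nhds_zero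
    have h3 := h2.const_mul 2
    rw [mul_zero] at h3
    refine squeeze_zero' ?_ ?_ h3
    · filter_upwards [eventually_ge_atTop 1] with y hy
      exact div_nonneg (sub_nonneg.2 (Chebyshev.theta_le_psi y)) (by linarith)
    · filter_upwards [eventually_ge_atTop 1] with y hy
      have hy0 : (0 : ℝ) < y := by linarith
      have h4 := Chebyshev.psi_sub_theta_le hy
      rw [← Real.sqrt_eq_rpow, div_le_iff₀ hy0]
      refine h4.trans (le_of_eq ?_)
      have hs : √y * √y = y := Real.mul_self_sqrt hy0.le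
      have hs0 : √y ≠ 0 := (Real.sqrt_pos.2 hy0).ne'
      have h5 : 2 * (Real.log y / √y) * y = 2 * Real.log y * (√y * √y) / √y := by
        rw [hs]
        ring
      rw [h5]
      field_simp
  have h6 := Pnt_real.sub h1
  rw [sub_zero] at h6
  refine h6.congr fun y => ?_
  ring

theorem pi_asym : Tendsto (fun y : ℝ => (Nat.primeCounting ⌊y⌋₊ : ℝ) * Real.log y / y) atTop
    (𝓝 1) := by
  have h1 : Tendsto (fun y : ℝ => ((Nat.primeCounting ⌊y⌋₊ : ℝ) -
      Chebyshev.theta y / Real.log y) * (Real.log y / y)) atTop (𝓝 0) := by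
    have h2 := Chebyshev.primeCounting_sub_theta_div_log_isBigO.mul
      (Asymptotics.isBigO_refl (fun y : ℝ => Real.log y / y) atTop)
    have h3 : Tendsto (fun y : ℝ => y / Real.log y ^ 2 * (Real.log y / y)) atTop (𝓝 0) := by
      have h4 : Tendsto (fun y : ℝ => (1 : ℝ) / Real.log y) atTop (𝓝 0) :=
        tendsto_const_nhds.div_atTop Real.tendsto_log_atTop
      refine h4.congr' ?_
      filter_upwards [eventually_gt_atTop 1] with y hy
      have hl := Real.log_pos hy
      have hy0 : (0 : ℝ) < y := by linarith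
      field_simp
    exact h2.trans_tendsto h3
  have h5 := Pnt_theta.add h1
  rw [add_zero] at h5
  refine h5.congr' ?_
  filter_upwards [eventually_gt_atTop 1] with y hy
  have hl := Real.log_pos hy
  have hy0 : (0 : ℝ) < y := by linarith
  field_simp
  ring

end Pool.Agent.H96.LK3
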