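import Pool.Agent.H96.LK3.Vag

/-!
# LK3 SumA: asymptotics of `rb` and of `∑ fa^2`

`rb y K = π(y) + ∑_{y < p ≤ Ky} 2/(1+(p/y)^2)`; the second sum times `log y / y` tends to
`∫_1^K 2/(1+x^2) = 2 arctan K - π/2` (`sum_prime_tendsto`, `integral_one_div_one_add_sq`).
`∑ fa^2 = π(y) + ∑_{y < p ≤ Ky} 4/(1+(p/y)^2)^2`, and
`∫_1^K 4/(1+x^2)^2 = [2x/(1+x^2) + 2 arctan x]_1^K ≤ π/2 - 1` (the primitive is increasing, with
limit `π`, value `1 + π/2` at `1`).
-/

set_option autoImplicit false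

namespace Pool.Agent.H96.LK3

open Finset Filter Topology

private theorem SumA_anti (K : ℝ) : AntitoneOn (fun x : ℝ => 2 / (1 + x ^ 2)) (Set.Icc 1 K) := by
  intro x hx y _ hxy
  have h1 : (0 : ℝ) ≤ x := by linarith [hx.1]
  have h2 : x ^ 2 ≤ y ^ 2 := pow_le_pow_left₀ h1 hxy 2
  show 2 / (1 + y ^ 2) ≤ 2 / (1 + x ^ 2)
  exact div_le_div_of_nonneg_left (by norm_num) (by positivity) (by linarith)

private theorem SumA_anti2 (K : ℝ) :
    AntitoneOn (fun x : ℝ => (2 / (1 + x ^ 2)) ^ 2) (Set.Icc 1 K) := by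
  intro x hx y hy hxy
  exact pow_le_pow_left₀ (by positivity) (SumA_anti K hx hy hxy) 2

/-- the general sum. -/
private theorem SumA_gen {K : ℝ} (hK : 1 ≤ K) {F : ℝ → ℝ} (hF : AntitoneOn F (Set.Icc 1 K)) :
    Tendsto (fun y : ℝ => (Real.log y / y) *
      ∑ p ∈ PP (K * y), (if (p : ℝ) ≤ y then 1 else F ((p : ℝ) / y))) atTop
      (𝓝 (1 + ∫ x in (1 : ℝ)..K, F x)) := by
  refine (pi_asym.add (sum_prime_tendsto one_pos hK hF)).congr' ?_
  filter_upwards [eventually_gt_atTop 1] with y hy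
  have hy0 : (0 : ℝ) < y := by linarith
  have h1 : ∑ p ∈ PP (K * y), (if (p : ℝ) ≤ y then 1 else F ((p : ℝ) / y)) =
      ∑ p ∈ (PP (K * y)).filter (fun p : ℕ => (p : ℝ) ≤ y), (1 : ℝ) +
        ∑ p ∈ (PP (K * y)).filter (fun p : ℕ => ¬ (p : ℝ) ≤ y), F ((p : ℝ) / y) :=
    Finset.sum_ite _ _
  have h2 : (PP (K * y)).filter (fun p : ℕ => (p : ℝ) ≤ y) = Nat.primesLE ⌊y⌋₊ := by
    ext p
    unfold PP
    rw [Finset.mem_filter, Nat.mem_primesLE, Nat.mem_primesLE]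
    constructor
    · rintro ⟨⟨_, hp⟩, h⟩
      exact ⟨Nat.le_floor h, hp⟩
    · rintro ⟨h, hp⟩
      have h3 : (p : ℝ) ≤ y := (Nat.le_floor_iff hy0.le).1 h
      exact ⟨⟨Nat.le_floor (h3.trans (le_mul_of_one_le_left hy0.le hK)), hp⟩, h3⟩
  have h3 : (PP (K * y)).filter (fun p : ℕ => ¬ (p : ℝ) ≤ y) =
      (PP (K * y)).filter (fun p : ℕ => 1 * y < (p : ℝ)) := by
    refine Finset.filter_congr fun p _ => ?_
    rw [one_mul, not_le]
  rw [h1, h2, h3, Finset.sum_const, Nat.primesLE_card_eq_primeCounting, nsmul_eq_mul, mul_one,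
    mul_add]
  congr 1
  ring

private theorem SumA_fa2 (y : ℝ) (p : ℕ) :
    fa y p ^ 2 = if (p : ℝ) ≤ y then 1 else (fun x : ℝ => (2 / (1 + x ^ 2)) ^ 2) ((p : ℝ) / y) := by
  unfold fa
  split_ifs
  · norm_num
  · rfl

private theorem SumA_int (K : ℝ) :
    ∫ x in (1 : ℝ)..K, 2 / (1 + x ^ 2) = 2 * Real.arctan K - Real.pi / 2 := by
  have h1 : ∀ x : ℝ, 2 / (1 + x ^ 2) = 2 * (1 / (1 + x ^ 2)) := fun x => by ring
  simp_rw [h1]
  rw [intervalIntegral.integral_const_mul, integral_one_div_one_add_sq, Real.arctan_one]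
  ring

private theorem SumA_int2 {K : ℝ} (hK : 1 ≤ K) :
    ∫ x in (1 : ℝ)..K, (2 / (1 + x ^ 2)) ^ 2 ≤ Real.pi / 2 - 1 := by
  have hd : ∀ x : ℝ, HasDerivAt (fun x : ℝ => 2 * x / (1 + x ^ 2) + 2 * Real.arctan x)
      ((2 / (1 + x ^ 2)) ^ 2) x := by
    intro x
    have h0 : (1 : ℝ) + x ^ 2 ≠ 0 := by positivity
    have h1 : HasDerivAt (fun x : ℝ => 2 * x) 2 x := by
      simpa using (hasDerivAt_id x).const_mul 2
    have h2 : HasDerivAt (fun x : ℝ => 1 + x ^ 2) (2 * x) x := by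
      simpa using ((hasDerivAt_pow 2 x).const_add 1)
    have h3 := (h1.div h2 h0).add ((Real.hasDerivAt_arctan x).const_mul 2)
    refine h3.congr_deriv ?_
    field_simp
    ring
  have hc : Continuous fun x : ℝ => (2 / (1 + x ^ 2)) ^ 2 := by
    refine Continuous.pow (continuous_const.div (by fun_prop) fun x => ?_) 2
    positivity
  rw [intervalIntegral.integral_eq_sub_of_hasDerivAt (fun x _ => hd x) (hc.intervalIntegrable _ _)]
  have h1 : 2 * K / (1 + K ^ 2) = Real.sin (2 * Real.arctan K) := by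
    rw [Real.sin_two_mul, Real.sin_arctan, Real.cos_arctan]
    have h2 : √(1 + K ^ 2) * √(1 + K ^ 2) = 1 + K ^ 2 := Real.mul_self_sqrt (by positivity)
    have h3 : 2 * (K / √(1 + K ^ 2)) * (1 / √(1 + K ^ 2)) =
        2 * K / (√(1 + K ^ 2) * √(1 + K ^ 2)) := by ring
    rw [h3, h2]
  have h2 : Real.sin (2 * Real.arctan K) ≤ Real.pi - 2 * Real.arctan K := by
    rw [← Real.sin_pi_sub]
    exact Real.sin_le (by linarith [Real.arctan_lt_pi_div_two K])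
  rw [h1, Real.arctan_one]
  norm_num
  linarith

theorem rb_asym {K : ℝ} (hK : 1 ≤ K) {ε : ℝ} (hε : 0 < ε) : ∀ᶠ y : ℝ in atTop,
    |rb y K - (1 + 2 * Real.arctan K - Real.pi / 2) * (y / Real.log y)| ≤
      ε * (y / Real.log y) := by
  have h1 := SumA_gen hK (SumA_anti K)
  rw [SumA_int] at h1
  filter_upwards [(Metric.tendsto_nhds.1 h1) ε hε, eventually_gt_atTop 1] with y hy hy1
  have hy0 : (0 : ℝ) < y := by linarith
  have hl : 0 < Real.log y := Real.log_pos hy1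
  have h2 : rb y K = ∑ p ∈ PP (K * y), (if (p : ℝ) ≤ y then 1 else
      (fun x : ℝ => 2 / (1 + x ^ 2)) ((p : ℝ) / y)) := rfl
  rw [← h2, Real.dist_eq] at hy
  have h3 : rb y K - (1 + 2 * Real.arctan K - Real.pi / 2) * (y / Real.log y) =
      (Real.log y / y * rb y K - (1 + (2 * Real.arctan K - Real.pi / 2))) * (y / Real.log y) := by
    field_simp
    ring
  rw [h3, abs_mul, abs_of_pos (div_pos hy0 hl)]
  exact mul_le_mul_of_nonneg_right hy.le (div_pos hy0 hl).le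

theorem fsq_upper {K : ℝ} (hK : 1 ≤ K) {ε : ℝ} (hε : 0 < ε) : ∀ᶠ y : ℝ in atTop,
    ∑ p ∈ PP (K * y), fa y p ^ 2 ≤ (Real.pi / 2 + ε) * (y / Real.log y) := by
  have h1 := SumA_gen hK (SumA_anti2 K)
  filter_upwards [(Metric.tendsto_nhds.1 h1) ε hε, eventually_gt_atTop 1] with y hy hy1
  have hy0 : (0 : ℝ) < y := by linarith
  have hl : 0 < Real.log y := Real.log_pos hy1
  have h2 : ∑ p ∈ PP (K * y), fa y p ^ 2 = ∑ p ∈ PP (K * y), (if (p : ℝ) ≤ y then 1 else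
      (fun x : ℝ => (2 / (1 + x ^ 2)) ^ 2) ((p : ℝ) / y)) :=
    Finset.sum_congr rfl fun p _ => SumA_fa2 y p
  rw [← h2, Real.dist_eq] at hy
  have h3 := (abs_lt.1 hy).2
  have h4 := SumA_int2 hK
  have h5 : Real.log y / y * ∑ p ∈ PP (K * y), fa y p ^ 2 ≤ Real.pi / 2 + ε := by linarith
  have h6 : ∑ p ∈ PP (K * y), fa y p ^ 2 =
      (Real.log y / y * ∑ p ∈ PP (K * y), fa y p ^ 2) * (y / Real.log y) := by
    field_simp
  rw [h6]
  exact mul_le_mul_of_nonneg_right h5 (div_pos hy0 hl).le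

end Pool.Agent.H96.LK3
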