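import Pool.Agent.H96.LK3.Defs

/-!
# LK3 Tail: product weights on the subsets of a finite set

`W P q A = ∏_{A} q ∏_{P \ A} (1 - q)`; `∑_{A ⊆ P} W P q A ∏_{A} e p = ∏_P (1 + q p (e p - 1))`
(`Finset.prod_add`), and Markov's inequality.
* `W_tail_card`: `e p = exp (-θ)`.
* `W_tail_prod`: `e p = p^θ`.
* `W_family_le`: a family `R` of subsets; the `A ∈ R` with `W A ≤ T` contribute at most `T |R|`,
  the others at most `T^{-η} ∑ W^{1+η} = T^{-η} ∏_P (q^{1+η} + (1-q)^{1+η})`, and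
  `q^{1+η} + (1-q)^{1+η} ≤ exp (-η H q + η^2)` (for `0 < q < 1`, `e^x ≤ 1 + x + x^2/2` for `x ≤ 0`
  and `q log^2 q ≤ 1`; for `q = 0, 1` both sides are clear); take `T = exp (-∑ H + δ)`.
-/

set_option autoImplicit false

namespace Pool.Agent.H96.LK3

open Finset Filter Topology

private theorem tail_sum (P : Finset ℕ) (q e : ℕ → ℝ) :
    ∑ A ∈ P.powerset, W P q A * ∏ p ∈ A, e p = ∏ p ∈ P, (1 + q p * (e p - 1)) := by
  have h : ∏ p ∈ P, (1 + q p * (e p - 1)) = ∏ p ∈ P, (q p * e p + (1 - q p)) :=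
    prod_congr rfl fun p _ => by ring
  rw [h, prod_add]
  refine sum_congr rfl fun A _ => ?_
  unfold W
  rw [prod_mul_distrib]
  ring

private theorem tail_nonneg {P : Finset ℕ} {q : ℕ → ℝ} (hq : ∀ p ∈ P, 0 ≤ q p ∧ q p ≤ 1)
    {A : Finset ℕ} (hA : A ⊆ P) : 0 ≤ W P q A := by
  unfold W
  refine mul_nonneg (prod_nonneg fun p hp => (hq p (hA hp)).1) (prod_nonneg fun p hp => ?_)
  have := (hq p (mem_sdiff.1 hp).1).2
  linarith

/-- Markov's inequality. -/
private theorem tail_markov (P : Finset ℕ) (q : ℕ → ℝ) (hq : ∀ p ∈ P, 0 ≤ q p ∧ q p ≤ 1)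
    (e : ℕ → ℝ) (he : ∀ p ∈ P, 0 ≤ e p) (c : ℝ) (hc : 0 ≤ c) (S : Finset (Finset ℕ))
    (hS : S ⊆ P.powerset) (h : ∀ A ∈ S, 1 ≤ c * ∏ p ∈ A, e p) :
    ∑ A ∈ S, W P q A ≤ c * Real.exp (∑ p ∈ P, q p * (e p - 1)) := by
  have h1 : ∑ A ∈ S, W P q A ≤ ∑ A ∈ S, c * (W P q A * ∏ p ∈ A, e p) := by
    refine sum_le_sum fun A hA => ?_
    have h2 := tail_nonneg hq (mem_powerset.1 (hS hA))
    calc W P q A = W P q A * 1 := (mul_one _).symm
      _ ≤ W P q A * (c * ∏ p ∈ A, e p) := mul_le_mul_of_nonneg_left (h A hA) h2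
      _ = c * (W P q A * ∏ p ∈ A, e p) := by ring
  have h3 : ∑ A ∈ S, c * (W P q A * ∏ p ∈ A, e p) ≤
      ∑ A ∈ P.powerset, c * (W P q A * ∏ p ∈ A, e p) := by
    refine sum_le_sum_of_subset_of_nonneg hS fun A hA _ => ?_
    have h2 := mem_powerset.1 hA
    exact mul_nonneg hc (mul_nonneg (tail_nonneg hq h2) (prod_nonneg fun p hp => he p (h2 hp)))
  refine (h1.trans h3).trans ?_
  rw [← mul_sum, tail_sum]
  refine mul_le_mul_of_nonneg_left ?_ hc
  rw [Real.exp_sum]
  refine prod_le_prod (fun p hp => ?_) fun p hp => ?_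
  · have h4 := hq p hp
    have h5 := mul_nonneg h4.1 (he p hp)
    have : 1 + q p * (e p - 1) = (1 - q p) + q p * e p := by ring
    rw [this]
    linarith [h4.2]
  · have := Real.add_one_le_exp (q p * (e p - 1))
    linarith

theorem W_tail_card (P : Finset ℕ) (q : ℕ → ℝ) (hq : ∀ p ∈ P, 0 ≤ q p ∧ q p ≤ 1) (θ r : ℝ)
    (hθ : 0 ≤ θ) :
    ∑ A ∈ P.powerset.filter (fun A => (A.card : ℝ) < r), W P q A ≤
      Real.exp (θ * r - (1 - Real.exp (-θ)) * ∑ p ∈ P, q p) := by
  have h := tail_markov P q hq (fun _ => Real.exp (-θ)) (fun p _ => (Real.exp_pos _).le)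
    (Real.exp (θ * r)) (Real.exp_pos _).le (P.powerset.filter (fun A => (A.card : ℝ) < r))
    (filter_subset _ _) (fun A hA => by
      rw [prod_const, ← Real.exp_nat_mul, ← Real.exp_add]
      refine Real.one_le_exp ?_
      have h1 := (mem_filter.1 hA).2
      nlinarith)
  refine h.trans_eq ?_
  rw [← Real.exp_add]
  congr 1
  rw [← sum_mul]
  ring

theorem W_tail_prod (P : Finset ℕ) (hP : ∀ p ∈ P, p.Prime) (q : ℕ → ℝ)
    (hq : ∀ p ∈ P, 0 ≤ q p ∧ q p ≤ 1) (θ m : ℝ) (hθ : 0 ≤ θ) (hm : 0 < m) :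
    ∑ A ∈ P.powerset.filter (fun A => m < ((∏ p ∈ A, p : ℕ) : ℝ)), W P q A ≤
      Real.exp (-θ * Real.log m + ∑ p ∈ P, q p * ((p : ℝ) ^ θ - 1)) := by
  have h := tail_markov P q hq (fun p => (p : ℝ) ^ θ)
    (fun p _ => Real.rpow_nonneg (Nat.cast_nonneg p) _)
    (Real.exp (-θ * Real.log m)) (Real.exp_pos _).le
    (P.powerset.filter (fun A => m < ((∏ p ∈ A, p : ℕ) : ℝ)))
    (filter_subset _ _) (fun A hA => by
      have h1 := (mem_filter.1 hA).2
      have h2 : ∏ p ∈ A, (p : ℝ) ^ θ = (((∏ p ∈ A, p : ℕ) : ℝ)) ^ θ := by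
        rw [Real.finset_prod_rpow A (fun p => (p : ℝ)) (fun p _ => Nat.cast_nonneg p)]
        push_cast
        rfl
      have h3 : Real.exp (-θ * Real.log m) = m ^ (-θ) := by
        rw [Real.rpow_def_of_pos hm]
        congr 1
        ring
      rw [h2, h3, Real.rpow_neg hm.le]
      have h4 : m ^ θ ≤ (((∏ p ∈ A, p : ℕ) : ℝ)) ^ θ := Real.rpow_le_rpow hm.le h1.le hθ
      have h5 : 0 < m ^ θ := Real.rpow_pos_of_pos hm _
      rw [inv_mul_eq_div, le_div_iff₀ h5, one_mul]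
      exact h4)
  refine h.trans_eq ?_
  rw [← Real.exp_add]

private theorem tail_exp {x : ℝ} (hx : x ≤ 0) : Real.exp x ≤ 1 + x + x ^ 2 / 2 := by
  have h := Real.quadratic_le_exp_of_nonneg (neg_nonneg.2 hx)
  have h1 : 0 < Real.exp x := Real.exp_pos x
  have h2 : Real.exp x * Real.exp (-x) = 1 := by
    rw [← Real.exp_add]
    simp
  have h3 : 0 < 1 + -x + (-x) ^ 2 / 2 := by nlinarith [sq_nonneg x]
  have h4 : Real.exp x * (1 + -x + (-x) ^ 2 / 2) ≤ 1 :=
    (mul_le_mul_of_nonneg_left h h1.le).trans_eq h2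
  have h5 : 1 ≤ (1 + x + x ^ 2 / 2) * (1 + -x + (-x) ^ 2 / 2) := by
    have : (1 + x + x ^ 2 / 2) * (1 + -x + (-x) ^ 2 / 2) = 1 + (x ^ 2) ^ 2 / 4 := by ring
    rw [this]
    have := sq_nonneg (x ^ 2)
    linarith
  exact le_of_mul_le_mul_right (h4.trans h5) h3

private theorem tail_sq {t : ℝ} (ht : 0 ≤ t) : t ^ 2 ≤ Real.exp t := by
  have h := Real.quadratic_le_exp_of_nonneg (show 0 ≤ t / 2 by positivity)
  have h1 : t ≤ Real.exp (t / 2) := by nlinarith [sq_nonneg (t / 2 - 1)]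
  have h2 : Real.exp t = Real.exp (t / 2) ^ 2 := by
    rw [← Real.exp_nat_mul]
    congr 1
    push_cast
    ring
  rw [h2]
  exact pow_le_pow_left₀ ht h1 2

private theorem tail_rpow {x η : ℝ} (h0 : 0 ≤ x) (h1 : x ≤ 1) (hη : 0 < η) :
    x ^ (1 + η) ≤ x + η * (x * Real.log x) + η ^ 2 / 2 := by
  rcases h0.eq_or_lt with h | h
  · rw [← h, Real.zero_rpow (by linarith)]
    simp only [zero_mul, mul_zero, add_zero, zero_add]
    positivity
  · have h2 : Real.log x ≤ 0 := Real.log_nonpos h0 h1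
    have h3 : x ^ (1 + η) = x * Real.exp (η * Real.log x) := by
      rw [Real.rpow_add h, Real.rpow_one, Real.rpow_def_of_pos h, mul_comm (Real.log x)]
    have h4 := tail_exp (x := η * Real.log x) (mul_nonpos_of_nonneg_of_nonpos hη.le h2)
    have h5 : x * (Real.log x) ^ 2 ≤ 1 := by
      have h6 := tail_sq (t := -Real.log x) (by linarith)
      rw [neg_sq, Real.exp_neg, Real.exp_log h] at h6
      calc x * (Real.log x) ^ 2 ≤ x * x⁻¹ := mul_le_mul_of_nonneg_left h6 h0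
        _ = 1 := mul_inv_cancel₀ h.ne'
    rw [h3]
    calc x * Real.exp (η * Real.log x) ≤ x * (1 + η * Real.log x + (η * Real.log x) ^ 2 / 2) :=
          mul_le_mul_of_nonneg_left h4 h0
      _ = x + η * (x * Real.log x) + η ^ 2 / 2 * (x * (Real.log x) ^ 2) := by ring
      _ ≤ x + η * (x * Real.log x) + η ^ 2 / 2 * 1 := by
          have : 0 ≤ η ^ 2 / 2 := by positivity
          have := mul_le_mul_of_nonneg_left h5 this
          linarith
      _ = _ := by ring

private theorem tail_factor {x η : ℝ} (h0 : 0 ≤ x) (h1 : x ≤ 1) (hη : 0 < η) :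
    x ^ (1 + η) + (1 - x) ^ (1 + η) ≤ Real.exp (-η * Real.binEntropy x + η ^ 2) := by
  have h2 := tail_rpow h0 h1 hη
  have h3 := tail_rpow (x := 1 - x) (by linarith) (by linarith) hη
  have h4 := Real.add_one_le_exp (-η * Real.binEntropy x + η ^ 2)
  refine le_trans ?_ h4
  have h5 : Real.binEntropy x = -(x * Real.log x) - (1 - x) * Real.log (1 - x) := by
    rw [Real.binEntropy, Real.log_inv, Real.log_inv]
    ring
  rw [h5]
  have h6 : -η * (-(x * Real.log x) - (1 - x) * Real.log (1 - x)) + η ^ 2 + 1 =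
      (x + η * (x * Real.log x) + η ^ 2 / 2) +
        ((1 - x) + η * ((1 - x) * Real.log (1 - x)) + η ^ 2 / 2) := by ring
  rw [h6]
  exact add_le_add h2 h3

theorem W_family_le (P : Finset ℕ) (q : ℕ → ℝ) (hq : ∀ p ∈ P, 0 ≤ q p ∧ q p ≤ 1)
    (R : Finset (Finset ℕ)) (hR : R ⊆ P.powerset) (η δ : ℝ) (h0 : 0 < η) (h1 : η ≤ 1) :
    ∑ A ∈ R, W P q A ≤
      Real.exp (-(∑ p ∈ P, Real.binEntropy (q p)) + δ) * R.card +
        Real.exp (-η * δ + η ^ 2 * P.card) := by
  set H : ℝ := ∑ p ∈ P, Real.binEntropy (q p) with hH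
  have hT : 0 < Real.exp (-H + δ) := Real.exp_pos _
  -- the pointwise bound
  have h2 : ∀ A ∈ R, W P q A ≤
      Real.exp (-H + δ) + Real.exp (η * H - η * δ) * (W P q A) ^ (1 + η) := by
    intro A hA
    have h3 := tail_nonneg hq (mem_powerset.1 (hR hA))
    rcases le_or_gt (W P q A) (Real.exp (-H + δ)) with h4 | h4
    · have : 0 ≤ Real.exp (η * H - η * δ) * (W P q A) ^ (1 + η) :=
        mul_nonneg (Real.exp_pos _).le (Real.rpow_nonneg h3 _)
      linarith
    · have h5 : 0 < W P q A := hT.trans h4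
      have h6 : Real.exp (η * H - η * δ) * (W P q A) ^ (1 + η) =
          W P q A * (Real.exp (η * H - η * δ) * (W P q A) ^ η) := by
        rw [Real.rpow_add h5, Real.rpow_one]
        ring
      have h7 : (Real.exp (-H + δ)) ^ η ≤ (W P q A) ^ η := Real.rpow_le_rpow hT.le h4.le h0.le
      have h8 : (Real.exp (-H + δ)) ^ η = Real.exp (-(η * H - η * δ)) := by
        rw [← Real.exp_mul]
        congr 1
        ring
      have h9 : 1 ≤ Real.exp (η * H - η * δ) * (W P q A) ^ η := by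
        rw [h8] at h7
        have h10 := mul_le_mul_of_nonneg_left h7 (Real.exp_pos (η * H - η * δ)).le
        rwa [← Real.exp_add, add_neg_cancel, Real.exp_zero] at h10
      rw [h6]
      have h11 := mul_le_mul_of_nonneg_left h9 h5.le
      rw [mul_one] at h11
      linarith
  have h3 : ∑ A ∈ P.powerset, (W P q A) ^ (1 + η) =
      ∏ p ∈ P, ((q p) ^ (1 + η) + (1 - q p) ^ (1 + η)) := by
    rw [prod_add]
    refine sum_congr rfl fun A hA => ?_
    have h4 := mem_powerset.1 hA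
    unfold W
    rw [Real.mul_rpow (prod_nonneg fun p hp => (hq p (h4 hp)).1)
      (prod_nonneg fun p hp => by linarith [(hq p (mem_sdiff.1 hp).1).2]),
      Real.finset_prod_rpow A q (fun p hp => (hq p (h4 hp)).1),
      Real.finset_prod_rpow (P \ A) (fun p => 1 - q p)
        (fun p hp => by linarith [(hq p (mem_sdiff.1 hp).1).2])]
  have h4 : ∑ A ∈ R, (W P q A) ^ (1 + η) ≤ Real.exp (-η * H + η ^ 2 * P.card) := by
    calc ∑ A ∈ R, (W P q A) ^ (1 + η) ≤ ∑ A ∈ P.powerset, (W P q A) ^ (1 + η) :=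
          sum_le_sum_of_subset_of_nonneg hR fun A hA _ =>
            Real.rpow_nonneg (tail_nonneg hq (mem_powerset.1 hA)) _
      _ = ∏ p ∈ P, ((q p) ^ (1 + η) + (1 - q p) ^ (1 + η)) := h3
      _ ≤ ∏ p ∈ P, Real.exp (-η * Real.binEntropy (q p) + η ^ 2) := by
          refine prod_le_prod (fun p hp => ?_) fun p hp => tail_factor (hq p hp).1 (hq p hp).2 h0
          have h5 := hq p hp
          exact add_nonneg (Real.rpow_nonneg h5.1 _) (Real.rpow_nonneg (by linarith [h5.2]) _)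
      _ = Real.exp (-η * H + η ^ 2 * P.card) := by
          rw [← Real.exp_sum]
          congr 1
          rw [sum_add_distrib, ← mul_sum, sum_const, nsmul_eq_mul, hH]
          ring
  calc ∑ A ∈ R, W P q A ≤
        ∑ A ∈ R, (Real.exp (-H + δ) + Real.exp (η * H - η * δ) * (W P q A) ^ (1 + η)) :=
        sum_le_sum h2
    _ = Real.exp (-H + δ) * R.card + Real.exp (η * H - η * δ) * ∑ A ∈ R, (W P q A) ^ (1 + η) := by
        rw [sum_add_distrib, sum_const, nsmul_eq_mul, ← mul_sum]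
        ring
    _ ≤ Real.exp (-H + δ) * R.card +
          Real.exp (η * H - η * δ) * Real.exp (-η * H + η ^ 2 * P.card) := by
        have := mul_le_mul_of_nonneg_left h4 (Real.exp_pos (η * H - η * δ)).le
        linarith
    _ = Real.exp (-H + δ) * R.card + Real.exp (-η * δ + η ^ 2 * P.card) := by
        rw [← Real.exp_add]
        congr 2
        ring

end Pool.Agent.H96.LK3
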