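import Pool.Agent.H96.LK3.UpDet
import Pool.Agent.H96.LK3.SumA
import Pool.Agent.H96.LK3.SumB
import Pool.Agent.H96.LK3.Asy

/-!
# LK3 UpAs: asymptotic upper bound for `-log (1 - c_k)`
-/

set_option autoImplicit false

namespace Pool.Agent.H96.LK3

open Finset Filter Topology Pool.Agent.H96.KMF

lemma exists_K {e : ℝ} (he : 0 < e) : ∃ K : ℝ, 1 ≤ K ∧
    2.56 ≤ 1 + 2 * Real.arctan K - Real.pi / 2 ∧ 1 + 2 * Real.arctan K - Real.pi / 2 ≤ 3 ∧
    Real.log (1 + Real.pi / 2) - e ≤ Real.log (1 + 2 * Real.arctan K - Real.pi / 2) := by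
  have hpi1 := Real.pi_gt_d2
  have hpi2 := Real.pi_lt_d2
  have h1 : Tendsto Real.arctan atTop (𝓝 (Real.pi / 2)) :=
    Real.tendsto_arctan_atTop.mono_right nhdsWithin_le_nhds
  have h2 : Tendsto (fun K : ℝ => 1 + 2 * Real.arctan K - Real.pi / 2) atTop
      (𝓝 (1 + Real.pi / 2)) := by
    have := ((h1.const_mul 2).const_add 1).sub_const (Real.pi / 2)
    rwa [show 1 + 2 * (Real.pi / 2) - Real.pi / 2 = 1 + Real.pi / 2 by ring] at this
  have h3 := h2.log (by positivity)
  obtain ⟨K, a1, a2, a3⟩ := ((h2.eventually_const_lt (u := 2.56) (by linarith)).and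
    ((h3.eventually_const_lt (u := Real.log (1 + Real.pi / 2) - e) (by linarith)).and
      (eventually_ge_atTop (1 : ℝ)))).exists
  have := Real.arctan_lt_pi_div_two K
  exact ⟨K, a3, a1.le, by linarith, a2.le⟩

lemma upper_L {ε : ℝ} (hε : 0 < ε) : ∀ᶠ L : ℝ in atTop, ∀ k : ℕ, Real.log k = L → ∀ c : ℝ,
    Tendsto (fun n : ℕ => (gk k n : ℝ) / n) atTop (𝓝 c) →
    c < 1 ∧ -Real.log (1 - c) * (Real.log 2 / L) ≤ Real.log L + Real.log (Real.log L) -
      (1 + Real.log (1 + Real.pi / 2) + Real.log (Real.log 2)) + ε := by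
  set e := min (ε / 16) (1 / 100) with he
  have he0 : 0 < e := lt_min (by positivity) (by norm_num)
  have he1 : e ≤ 1 / 100 := min_le_right _ _
  have heε : 16 * e ≤ ε := by
    have : e ≤ ε / 16 := min_le_left _ _
    linarith
  obtain ⟨K, hK, hc1, hc2, hc3⟩ := exists_K he0
  set cK := 1 + 2 * Real.arctan K - Real.pi / 2 with hcK
  have hl2 : 0 < Real.log 2 := Real.log_pos (by norm_num)
  have hcK0 : 0 < cK := by linarith
  have h1e : 0 < 1 - e := by linarith
  set A := (1 - e) * cK * Real.log 2 with hA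
  have hA0 : 0 < A := by positivity
  have e8 : 0 < e / 8 := by positivity
  have hlogL : Tendsto (fun L : ℝ => Real.log L) atTop atTop := Real.tendsto_log_atTop
  have hr := (yy_ratio hA0).eventually_const_lt (u := (1 - e / 8) / A)
    (by apply div_lt_div_of_pos_right _ hA0; linarith)
  have hs := (yy_small (K := K) hA0 (by linarith)).eventually_lt_const (u := e ^ 2 / 36)
    (by positivity)
  filter_upwards [eventually_ge_atTop (100 : ℝ), (yy_tendsto hA0).eventually_ge_atTop 16,
    (yy_tendsto hA0).eventually (rb_asym hK e8), (yy_tendsto hA0).eventually (fsq_upper hK e8),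
    (yy_tendsto hA0).eventually (Lam_lower hK e8), hr, hlogL.eventually_ge_atTop A, hs,
    eventually_ge_atTop (60 * K / e ^ 2)] with L hL1 hy f1 f2 f3 hr hAL hs hK60 k hk c hc
  have hL0 : 0 < L := by linarith
  set y := yy A L with hyd
  have hy0 : 0 < y := by linarith
  have hlogy : Real.log y = Real.log L + Real.log (Real.log L) - Real.log A :=
    log_yy hA0 (by linarith)
  have hΛ : 0 < Real.log y := Real.log_pos (by linarith)
  have hk1 : 1 ≤ k := by
    rcases Nat.eq_zero_or_pos k with h | h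
    · rw [h] at hk; simp at hk; linarith
    · exact h
  -- f5
  have f5 : (1 - e / 8) * L ≤ (1 - e) * cK * Real.log 2 * (y / Real.log y) := by
    rw [← hA]
    rw [div_lt_div_iff₀ hA0 hL0] at hr
    linarith
  have f5' : (1 - e) * cK * Real.log 2 * (y / Real.log y) ≤ L := by
    rw [← hA, ← mul_div_assoc, div_le_iff₀ hΛ]
    have h1 : A * y = L * Real.log L := by rw [hyd, yy]; field_simp
    rw [h1, hlogy]
    apply mul_le_mul_of_nonneg_left _ hL0.le
    have : Real.log A ≤ Real.log (Real.log L) := Real.log_le_log hA0 hAL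
    linarith
  have g3 : 36 * Real.log (K * y) ^ 2 ≤ e ^ 2 * L := by
    rw [div_lt_iff₀ hL0] at hs
    linarith
  have g4 : 60 * K ≤ e ^ 2 * L := by
    rw [div_le_iff₀ (by positivity)] at hK60
    linarith
  have hKy : y ≤ K * y := le_mul_of_one_le_left hy0.le hK
  have hM : Real.log y ≤ Real.log (K * y) := Real.log_le_log hy0 hKy
  set s := Real.sqrt L with hsq
  have hs2 : s * s = L := Real.mul_self_sqrt hL0.le
  have hs10 : 10 ≤ s := by
    rw [hsq]; apply Real.le_sqrt_of_sq_le; linarith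
  have h6M : 6 * Real.log (K * y) ≤ e * s := by
    have hM0 : 0 ≤ Real.log (K * y) := by linarith
    rw [← sq_le_sq₀ (by positivity) (by positivity)]
    calc (6 * Real.log (K * y)) ^ 2 = 36 * Real.log (K * y) ^ 2 := by ring
      _ ≤ e ^ 2 * L := g3
      _ = (e * s) ^ 2 := by rw [← hs2]; ring
  have h6s : 6 * s ≤ e * L / Real.log y := by
    rw [le_div_iff₀ hΛ]
    calc 6 * s * Real.log y ≤ 6 * s * Real.log (K * y) :=
          mul_le_mul_of_nonneg_left hM (by positivity)
      _ = s * (6 * Real.log (K * y)) := by ring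
      _ ≤ s * (e * s) := mul_le_mul_of_nonneg_left h6M (by positivity)
      _ = e * (s * s) := by ring
      _ = e * L := by rw [hs2]
  have g0 : 2 ≤ e * L / Real.log y := by linarith
  have g1 : 18 * L ≤ (e * L / Real.log y - 2) ^ 2 := by
    have h1 : (6 * s - 2) ^ 2 ≤ (e * L / Real.log y - 2) ^ 2 :=
      pow_le_pow_left₀ (by linarith) (by linarith) 2
    have h2 : (6 * s - 2) ^ 2 = 36 * L - 24 * s + 4 := by rw [← hs2]; ring
    have h3 : 10 * s ≤ L := by rw [← hs2]; exact mul_le_mul_of_nonneg_right hs10 (by positivity)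
    linarith
  have g5 : Real.log 8 + Real.log (K * y) ≤ e * L := by
    have h1 : Real.log 8 ≤ 7 := by
      have := Real.log_le_sub_one_of_pos (by norm_num : (0 : ℝ) < 8)
      linarith
    have h2 : 6000 ≤ e * L := by
      have h3 : 60 ≤ e * (e * L) := by
        calc (60 : ℝ) ≤ 60 * K := by linarith
          _ ≤ e ^ 2 * L := g4
          _ = _ := by ring
      have h4 : e * (e * L) ≤ 1 / 100 * (e * L) :=
        mul_le_mul_of_nonneg_right he1 (by positivity)
      linarith
    have h3 : e * s ≤ e * L := by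
      apply mul_le_mul_of_nonneg_left _ he0.le
      rw [← hs2]; exact le_mul_of_one_le_left (by positivity) (by linarith)
    linarith
  obtain ⟨u1, u2⟩ := upper_det he0 he1 hK hc1 hc2 k hk1 hk hL1 hy rfl f1 f2 f3 f5 f5' g0 g1 g3 g4
    g5 c hc
  refine ⟨u1, u2.trans ?_⟩
  have hlA : Real.log A = Real.log (1 - e) + Real.log cK + Real.log (Real.log 2) := by
    rw [hA, Real.log_mul (by positivity) hl2.ne', Real.log_mul h1e.ne' hcK0.ne']
  have h1e' : -(2 * e) ≤ Real.log (1 - e) := by
    have h1 := Real.one_sub_inv_le_log_of_pos h1e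
    have h2 : (1 - e)⁻¹ ≤ 1 + 2 * e := by
      rw [inv_le_comm₀ h1e (by linarith)]
      rw [inv_le_iff_one_le_mul₀ (by linarith)]
      nlinarith
    linarith
  rw [hlogy, hlA]
  linarith

/-- Asymptotic upper bound. -/
theorem upper_asym {ε : ℝ} (hε : 0 < ε) : ∀ᶠ k : ℕ in atTop, ∀ c : ℝ,
    Tendsto (fun n : ℕ => (gk k n : ℝ) / n) atTop (𝓝 c) →
    c < 1 ∧ -Real.log (1 - c) * (Real.log 2 / Real.log k) ≤
      Real.log (Real.log k) + Real.log (Real.log (Real.log k)) -
      (1 + Real.log (1 + Real.pi / 2) + Real.log (Real.log 2)) + ε := by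
  have hlog : Tendsto (fun k : ℕ => Real.log k) atTop atTop :=
    Real.tendsto_log_atTop.comp tendsto_natCast_atTop_atTop
  filter_upwards [hlog.eventually (upper_L hε)] with k hk c hc
  exact hk k rfl c hc

end Pool.Agent.H96.LK3
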