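import Pool.Agent.H96.LK3.UpMain

/-!
# LK3 UpDet: upper bound for `-log (1 - c_k)`, the inequality with explicit hypotheses
-/

set_option autoImplicit false

namespace Pool.Agent.H96.LK3

open Finset Filter Topology Pool.Agent.H96.KMF

set_option maxHeartbeats 1000000 in
/-- Upper bound for `-log (1 - c_k)` with explicit hypotheses. -/
theorem upper_det {e K y N L cK : ℝ} (he0 : 0 < e) (he1 : e ≤ 1 / 100) (hK : 1 ≤ K)
    (hcK : 2.56 ≤ cK) (hcK' : cK ≤ 3) (k : ℕ) (hk : 1 ≤ k) (hL : Real.log k = L) (hL1 : 100 ≤ L)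
    (hy : 16 ≤ y) (hN : N = y / Real.log y)
    (f1 : |rb y K - cK * N| ≤ e / 8 * N)
    (f2 : ∑ p ∈ PP (K * y), fa y p ^ 2 ≤ (Real.pi / 2 + e / 8) * N)
    (f3 : (cK - e / 8) * N ≤ Lam y K)
    (f5 : (1 - e / 8) * L ≤ (1 - e) * cK * Real.log 2 * N)
    (f5' : (1 - e) * cK * Real.log 2 * N ≤ L)
    (g0 : 2 ≤ e * L / Real.log y) (g1 : 18 * L ≤ (e * L / Real.log y - 2) ^ 2)
    (g3 : 36 * Real.log (K * y) ^ 2 ≤ e ^ 2 * L) (g4 : 60 * K ≤ e ^ 2 * L)
    (g5 : Real.log 8 + Real.log (K * y) ≤ e * L)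
    (c : ℝ) (hc : Tendsto (fun n : ℕ => (gk k n : ℝ) / n) atTop (𝓝 c)) :
    c < 1 ∧ -Real.log (1 - c) * (Real.log 2 / L) ≤ Real.log y - 1 + 6 * e := by
  have hkr : (0 : ℝ) < k := by exact_mod_cast hk
  have hl2 : 0 < Real.log 2 := Real.log_pos (by norm_num)
  have hl2a := Real.log_two_gt_d9
  have hl2b := Real.log_two_lt_d9
  have hpi1 := Real.pi_gt_d2
  have hpi2 := Real.pi_lt_d2
  have hy0 : 0 < y := by linarith
  have hLy4 : 4 * Real.log 2 ≤ Real.log y := by
    have : Real.log (2 ^ 4) ≤ Real.log y := Real.log_le_log (by norm_num) (by linarith)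
    rwa [Real.log_pow, show ((4 : ℕ) : ℝ) = 4 by norm_num] at this
  have hΛ : 0 < Real.log y := by linarith
  have hN0 : 0 < N := by rw [hN]; positivity
  have hL0 : 0 < L := by linarith
  set r0 := L / Real.log 2 with hr0
  have hr0L : r0 * Real.log 2 = L := by rw [hr0]; field_simp
  have hr0a : L ≤ r0 := by
    rw [hr0, le_div_iff₀ hl2]; exact mul_le_of_le_one_right hL0.le (by linarith)
  have hr0b : r0 ≤ 1.45 * L := by
    rw [hr0, div_le_iff₀ hl2]
    calc L ≤ L * (1.45 * Real.log 2) := le_mul_of_one_le_right hL0.le (by linarith)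
      _ = _ := by ring
  set w := e * L / Real.log y with hw
  have hwr : w ≤ e / 4 * r0 := by
    rw [hw, div_le_iff₀ hΛ]
    calc e * L = e / 4 * r0 * (4 * Real.log 2) := by rw [← hr0L]; ring
      _ ≤ e / 4 * r0 * Real.log y := by
        apply mul_le_mul_of_nonneg_left hLy4
        have : 0 < r0 := by linarith
        positivity
  set r2 := r0 + w with hr2
  have hr2a : r2 ≤ 1.5 * L := by
    have : w ≤ 0.01 * r0 := by
      refine hwr.trans ?_
      apply mul_le_mul_of_nonneg_right _ (by linarith)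
      linarith
    rw [hr2]
    linarith
  have hr2b : r0 ≤ r2 := by rw [hr2]; linarith
  have hr20 : 0 < r2 := by linarith
  have hrb := abs_le.mp f1
  -- `rb ≥ r2`
  have hNlow : (1 - e / 8) * r0 ≤ (1 - e) * cK * N := by
    have : (1 - e / 8) * r0 * Real.log 2 ≤ (1 - e) * cK * N * Real.log 2 := by
      calc (1 - e / 8) * r0 * Real.log 2 = (1 - e / 8) * L := by rw [← hr0L]; ring
        _ ≤ _ := f5
        _ = _ := by ring
    exact le_of_mul_le_mul_right this hl2
  have hrb1 : (1 - e / 8) * (cK * N) ≤ rb y K := by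
    have e1 : (1 - e / 8) * (cK * N) = cK * N - e / 8 * (cK * N) := by ring
    have e2 : e / 8 * N ≤ e / 8 * (cK * N) :=
      mul_le_mul_of_nonneg_left (le_mul_of_one_le_left hN0.le (by linarith)) (by positivity)
    linarith [hrb.1]
  have hrb2 : r2 ≤ rb y K := by
    have e1 : (1 + e / 4) * r0 ≤ rb y K := by
      have e2 : (1 - e) * ((1 + e / 4) * r0) ≤ (1 - e) * rb y K := by
        calc (1 - e) * ((1 + e / 4) * r0) ≤ (1 - e / 8) * ((1 - e / 8) * r0) := by
              have : (1 - e) * (1 + e / 4) ≤ (1 - e / 8) * (1 - e / 8) := by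
                have h1 : (1 - e / 8) * (1 - e / 8) =
                  (1 - e) * (1 + e / 4) + (e / 2 + 17 / 64 * e ^ 2) := by ring
                have h2 : 0 ≤ e / 2 + 17 / 64 * e ^ 2 := by positivity
                linarith
              calc (1 - e) * ((1 + e / 4) * r0) = ((1 - e) * (1 + e / 4)) * r0 := by ring
                _ ≤ ((1 - e / 8) * (1 - e / 8)) * r0 :=
                    mul_le_mul_of_nonneg_right this (by linarith)
                _ = _ := by ring
          _ ≤ (1 - e / 8) * ((1 - e) * cK * N) :=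
              mul_le_mul_of_nonneg_left hNlow (by linarith)
          _ = (1 - e) * ((1 - e / 8) * (cK * N)) := by ring
          _ ≤ _ := mul_le_mul_of_nonneg_left hrb1 (by linarith)
      exact le_of_mul_le_mul_left e2 (by linarith)
    rw [hr2]; linarith
  have hrb0 : 0 < rb y K := by linarith
  set c0 := r2 / rb y K with hc0
  have hc00 : 0 < c0 := by positivity
  have hc01 : c0 ≤ 1 := by rw [hc0, div_le_one hrb0]; exact hrb2
  have hc0rb : c0 * rb y K = r2 := by rw [hc0]; field_simp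
  -- tail of the number of elements
  set r := r0 + 2 with hr
  have h3 : 4 * (k : ℝ) ≤ (2 : ℝ) ^ r := by
    apply le_of_eq
    rw [hr, Real.rpow_add (by norm_num), Real.rpow_def_of_pos (by norm_num) r0]
    rw [show Real.log 2 * r0 = L by rw [← hr0L]; ring, ← hL, Real.exp_log hkr]
    norm_num
    ring
  set θ1 := (w - 2) / r2 with hθ1
  have hθ10 : 0 ≤ θ1 := div_nonneg (by linarith) hr20.le
  have h1 : θ1 * r - (1 - Real.exp (-θ1)) * (c0 * rb y K) ≤ -3 := by
    rw [hc0rb]
    have e1 : Real.exp (-θ1) ≤ 1 - θ1 + θ1 ^ 2 / 2 := exp_neg_le hθ10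
    have e2 : θ1 * r2 = w - 2 := by rw [hθ1]; field_simp
    have e3 : (1 - Real.exp (-θ1)) * r2 ≥ (θ1 - θ1 ^ 2 / 2) * r2 :=
      mul_le_mul_of_nonneg_right (by linarith) hr20.le
    have e4 : (θ1 - θ1 ^ 2 / 2) * r2 = θ1 * r2 - θ1 * (w - 2) / 2 := by
      rw [← e2]; ring
    have e5 : θ1 * r = θ1 * r2 - θ1 * (w - 2) := by rw [hr, hr2]; ring
    have e6 : 6 ≤ θ1 * (w - 2) := by
      rw [hθ1, div_mul_eq_mul_div, le_div_iff₀ hr20]
      have : (w - 2) * (w - 2) = (w - 2) ^ 2 := by ring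
      linarith
    linarith
  -- tail of the product
  have hKy1 : y ≤ K * y := le_mul_of_one_le_left hy0.le hK
  have hlK : 0 < Real.log (K * y) := Real.log_pos (by linarith)
  set δ1 := e * L with hδ1
  have hδ10 : 0 < δ1 := by positivity
  set θ2 := δ1 / (2 * r2 * Real.log (K * y) ^ 2) with hθ2
  have hθ20 : 0 ≤ θ2 := by positivity
  have hlKy : Real.log y ≤ Real.log (K * y) := Real.log_le_log hy0 hKy1
  have hθ2' : θ2 * Real.log (K * y) ≤ 1 := by
    rw [hθ2, div_mul_eq_mul_div, div_le_one (by positivity)]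
    have e1 : δ1 ≤ 2 * r2 * Real.log (K * y) := by
      have h2 : 2 ≤ Real.log (K * y) := by linarith
      calc e * L ≤ 1 * L := mul_le_mul_of_nonneg_right (by linarith) hL0.le
        _ ≤ 2 * r2 * 1 := by linarith
        _ ≤ _ := mul_le_mul_of_nonneg_left (by linarith) (by linarith)
    calc δ1 * Real.log (K * y) ≤ 2 * r2 * Real.log (K * y) * Real.log (K * y) :=
          mul_le_mul_of_nonneg_right e1 hlK.le
      _ = _ := by ring
  have h2 : -θ2 * δ1 + θ2 ^ 2 * Real.log (K * y) ^ 2 * (c0 * rb y K) ≤ -3 := by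
    rw [hc0rb]
    have e1 : θ2 * (2 * r2 * Real.log (K * y) ^ 2) = δ1 := by rw [hθ2]; field_simp
    have e2 : θ2 ^ 2 * Real.log (K * y) ^ 2 * r2 = θ2 * δ1 / 2 := by rw [← e1]; ring
    rw [e2]
    have e3 : 6 ≤ θ2 * δ1 := by
      rw [hθ2, div_mul_eq_mul_div, le_div_iff₀ (by positivity)]
      calc 6 * (2 * r2 * Real.log (K * y) ^ 2) = r2 * (12 * Real.log (K * y) ^ 2) := by ring
        _ ≤ (1.5 * L) * (12 * Real.log (K * y) ^ 2) :=
            mul_le_mul_of_nonneg_right hr2a (by positivity)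
        _ = L / 2 * (36 * Real.log (K * y) ^ 2) := by ring
        _ ≤ L / 2 * (e ^ 2 * L) := mul_le_mul_of_nonneg_left g3 (by positivity)
        _ = (e * L) * (e * L) / 2 := by ring
        _ ≤ (e * L) * (e * L) := by linarith [mul_self_nonneg (e * L)]
    linarith
  -- entropy tail
  have hcard1 : rb y K ≤ (PP (K * y)).card := by
    unfold rb
    calc ∑ p ∈ PP (K * y), fa y p ≤ ∑ p ∈ PP (K * y), (1 : ℝ) :=
          Finset.sum_le_sum fun p _ => fa_le_one hy0 p
      _ = _ := by simp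
  have hcard2 : ((PP (K * y)).card : ℝ) ≤ 5 * K * N := by
    have e1 := pi_le_five (x := K * y) (by linarith)
    have e2 : ((PP (K * y)).card : ℝ) = Nat.primeCounting ⌊K * y⌋₊ := by
      unfold PP; rw [Nat.primesLE_card_eq_primeCounting]
    rw [e2]
    refine e1.trans ?_
    rw [hN]
    calc 5 * (K * y) / Real.log (K * y) ≤ 5 * (K * y) / Real.log y :=
          div_le_div_of_nonneg_left (by positivity) hΛ hlKy
      _ = _ := by ring
  have hNL : N ≤ L := by
    have e1 : N ≤ (1 - e) * cK * Real.log 2 * N := by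
      have : 1 ≤ (1 - e) * cK * Real.log 2 := by
        have a1 : (0.99 : ℝ) * 2.56 ≤ (1 - e) * cK :=
          mul_le_mul (by linarith) hcK (by norm_num) (by linarith)
        calc (1 : ℝ) ≤ (0.99 * 2.56) * 0.69 := by norm_num
          _ ≤ (1 - e) * cK * Real.log 2 := mul_le_mul a1 (by linarith) (by norm_num)
            (le_trans (by norm_num) a1)
      exact le_mul_of_one_le_left hN0.le this
    linarith
  set n0 : ℝ := ((PP (K * y)).card : ℝ) with hn0
  have hn00 : 0 < n0 := by linarith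
  set η := δ1 / (2 * n0) with hη
  have hη0 : 0 < η := by positivity
  have hη1 : η ≤ 1 := by
    rw [hη, div_le_one (by positivity), hδ1]
    have : e * L ≤ 1 * L := mul_le_mul_of_nonneg_right (by linarith) hL0.le
    linarith
  have h6 : -η * δ1 + η ^ 2 * n0 ≤ -3 := by
    have e1 : η * (2 * n0) = δ1 := by rw [hη]; field_simp
    have e2 : η ^ 2 * n0 = η * δ1 / 2 := by rw [← e1]; ring
    rw [e2]
    have e3 : 6 ≤ η * δ1 := by
      rw [hη, div_mul_eq_mul_div, le_div_iff₀ (by positivity)]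
      calc 6 * (2 * n0) = 12 * n0 := by ring
        _ ≤ 12 * (5 * K * N) := by linarith
        _ = 60 * K * N := by ring
        _ ≤ 60 * K * L := mul_le_mul_of_nonneg_left hNL (by positivity)
        _ ≤ e ^ 2 * L * L := mul_le_mul_of_nonneg_right g4 hL0.le
        _ = δ1 * δ1 := by rw [hδ1]; ring
    linarith
  have h7 : 0 ≤ 1.13 * rb y K - (1.13 + Real.log 2) * ∑ p ∈ PP (K * y), fa y p ^ 2 := by
    have e1 : (1.13 + Real.log 2) * ∑ p ∈ PP (K * y), fa y p ^ 2 ≤
        (1.13 + Real.log 2) * ((Real.pi / 2 + e / 8) * N) :=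
      mul_le_mul_of_nonneg_left f2 (by linarith)
    have e2 : (1.13 + Real.log 2) * (Real.pi / 2 + e / 8) ≤ 1.13 * ((1 - e / 8) * cK) := by
      have a1 : (1.13 + Real.log 2) * (Real.pi / 2 + e / 8) ≤ 1.82315 * (1.575 + 0.00125) :=
        mul_le_mul (by linarith) (by linarith) (by positivity) (by norm_num)
      have a2 : (0.99875 : ℝ) * 2.56 ≤ (1 - e / 8) * cK :=
        mul_le_mul (by linarith) hcK (by norm_num) (by linarith)
      norm_num at a1 a2 ⊢
      linarith
    have e3 := mul_le_mul_of_nonneg_right e2 hN0.le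
    have e4 := mul_le_mul_of_nonneg_left hrb1 (by norm_num : (0 : ℝ) ≤ 1.13)
    linarith
  obtain ⟨u1, u2⟩ := UpDet_main hK (by linarith) k c hc hc00.le hc01 hδ10.le h3 hθ10 h1 hθ20
    hθ2' h2 hη0 hη1 h6 h7
  refine ⟨u1, ?_⟩
  -- final computation
  have hc0N : (1 - e / 4) * r0 ≤ c0 * Lam y K := by
    have e1 : c0 * ((cK - e / 8) * N) ≤ c0 * Lam y K := mul_le_mul_of_nonneg_left f3 hc00.le
    have e2 : rb y K ≤ (1 + e / 8) * (cK * N) := by
      have a1 : e / 8 * N ≤ e / 8 * (cK * N) :=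
        mul_le_mul_of_nonneg_left (le_mul_of_one_le_left hN0.le (by linarith)) (by positivity)
      have a2 : (1 + e / 8) * (cK * N) = cK * N + e / 8 * (cK * N) := by ring
      linarith [hrb.2]
    have e3 : r0 ≤ c0 * ((1 + e / 8) * (cK * N)) := by
      calc r0 ≤ r2 := hr2b
        _ = c0 * rb y K := hc0rb.symm
        _ ≤ _ := mul_le_mul_of_nonneg_left e2 hc00.le
    have e4 : (1 - e / 8) * (cK * N) ≤ (cK - e / 8) * N := by
      have a1 : e / 8 * N ≤ e / 8 * (cK * N) :=
        mul_le_mul_of_nonneg_left (le_mul_of_one_le_left hN0.le (by linarith)) (by positivity)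
      have a2 : (1 - e / 8) * (cK * N) = cK * N - e / 8 * (cK * N) := by ring
      have a3 : (cK - e / 8) * N = cK * N - e / 8 * N := by ring
      linarith
    have e5 : (1 - e / 4) * (1 + e / 8) ≤ 1 - e / 8 := by
      have : (1 - e / 4) * (1 + e / 8) = 1 - e / 8 - e ^ 2 / 32 := by ring
      have h2 : 0 ≤ e ^ 2 / 32 := by positivity
      linarith
    have hcN : 0 < c0 * (cK * N) := by
      have : 0 < cK := by linarith
      positivity
    calc (1 - e / 4) * r0 ≤ (1 - e / 4) * (c0 * ((1 + e / 8) * (cK * N))) :=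
          mul_le_mul_of_nonneg_left e3 (by linarith)
      _ = ((1 - e / 4) * (1 + e / 8)) * (c0 * (cK * N)) := by ring
      _ ≤ (1 - e / 8) * (c0 * (cK * N)) := mul_le_mul_of_nonneg_right e5 hcN.le
      _ = c0 * ((1 - e / 8) * (cK * N)) := by ring
      _ ≤ c0 * ((cK - e / 8) * N) := mul_le_mul_of_nonneg_left e4 hc00.le
      _ ≤ _ := e1
  have hfin : -Real.log (1 - c) ≤ r0 * Real.log y - (1 - e / 4) * r0 + 4 * (e * L) := by
    have e1 : c0 * (rb y K * Real.log y - Lam y K) = r2 * Real.log y - c0 * Lam y K := by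
      rw [← hc0rb]; ring
    have e2 : r2 * Real.log y = r0 * Real.log y + e * L := by
      rw [hr2, add_mul, hw, div_mul_cancel₀ _ hΛ.ne', hδ1]
    rw [e1, e2] at u2
    linarith
  have hσ : 0 < Real.log 2 / L := by positivity
  have e8 := mul_le_mul_of_nonneg_right hfin hσ.le
  refine e8.trans ?_
  have e9 : (r0 * Real.log y - (1 - e / 4) * r0 + 4 * (e * L)) * (Real.log 2 / L) =
      Real.log y - (1 - e / 4) + 4 * e * Real.log 2 := by
    rw [hr0]; field_simp
  rw [e9]
  have e10 : e * Real.log 2 ≤ e * 0.7 := mul_le_mul_of_nonneg_left (by linarith) he0.le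
  linarith

end Pool.Agent.H96.LK3
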