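import Pool.Agent.H96.LK3.Conv
import Pool.Agent.H96.LK3.EntI

/-!
# LK3 UpMain: upper bound for `-log (1 - c_k)`, the main inequality
-/

set_option autoImplicit false

namespace Pool.Agent.H96.LK3

open Finset Filter Topology Pool.Agent.H96.KMF

lemma mem_PP {X : ℝ} {p : ℕ} : p ∈ PP X ↔ p ≤ ⌊X⌋₊ ∧ p.Prime := by
  unfold PP; rw [Nat.mem_primesLE]

lemma fa_nonneg (y : ℝ) (p : ℕ) : 0 ≤ fa y p := by
  unfold fa; split_ifs <;> positivity

lemma fa_le_one {y : ℝ} (hy : 0 < y) (p : ℕ) : fa y p ≤ 1 := by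
  unfold fa
  split_ifs with h
  · exact le_rfl
  · push Not at h
    rw [div_le_one (by positivity)]
    have h1 : 1 ≤ (p : ℝ) / y := by rw [le_div_iff₀ hy]; linarith
    nlinarith

/-- `exp (-t) ≤ 1 - t + t ^ 2 / 2` for `0 ≤ t`. -/
lemma exp_neg_le {t : ℝ} (ht : 0 ≤ t) : Real.exp (-t) ≤ 1 - t + t ^ 2 / 2 := by
  have hq := Real.quadratic_le_exp_of_nonneg ht
  have h0 : 0 < 1 + t + t ^ 2 / 2 := by positivity
  rw [Real.exp_neg, inv_eq_one_div, div_le_iff₀ (Real.exp_pos t)]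
  have h1 : 0 ≤ 1 - t + t ^ 2 / 2 := by nlinarith [sq_nonneg (t - 1)]
  calc (1 : ℝ) ≤ (1 - t + t ^ 2 / 2) * (1 + t + t ^ 2 / 2) := by
        have : (1 - t + t ^ 2 / 2) * (1 + t + t ^ 2 / 2) = 1 + t ^ 4 / 4 := by ring
        rw [this]
        have : 0 ≤ t ^ 4 := by positivity
        linarith
    _ ≤ _ := mul_le_mul_of_nonneg_left hq h1

lemma UpDet_main {K y δ1 δ2 c0 r θ1 θ2 η : ℝ} (hK : 1 ≤ K) (hy : 2 ≤ y) (k : ℕ)
    (c : ℝ) (hc : Tendsto (fun n : ℕ => (gk k n : ℝ) / n) atTop (𝓝 c))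
    (hc0 : 0 ≤ c0) (hc1 : c0 ≤ 1) (hδ1 : 0 ≤ δ1)
    (h3 : 4 * (k : ℝ) ≤ (2 : ℝ) ^ r) (hθ1 : 0 ≤ θ1)
    (h1 : θ1 * r - (1 - Real.exp (-θ1)) * (c0 * rb y K) ≤ -3)
    (hθ2 : 0 ≤ θ2) (hθ2' : θ2 * Real.log (K * y) ≤ 1)
    (h2 : -θ2 * δ1 + θ2 ^ 2 * Real.log (K * y) ^ 2 * (c0 * rb y K) ≤ -3)
    (h4 : 0 < η) (h5 : η ≤ 1) (h6 : -η * δ2 + η ^ 2 * (PP (K * y)).card ≤ -3)
    (h7 : 0 ≤ 1.13 * rb y K - (1.13 + Real.log 2) * ∑ p ∈ PP (K * y), fa y p ^ 2) :
    c < 1 ∧ -Real.log (1 - c) ≤ c0 * (rb y K * Real.log y - Lam y K) + δ1 + δ2 +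
      Real.log 8 + Real.log (K * y) := by
  have hy0 : 0 < y := by linarith
  have hKy : 2 ≤ K * y := by nlinarith
  set P := PP (K * y) with hP
  set q : ℕ → ℝ := fun p => c0 * fa y p with hq
  have hPp : ∀ p ∈ P, p.Prime := fun p hp => (mem_PP.mp hp).2
  have hPr : ∀ p ∈ P, (1 : ℝ) < p ∧ (p : ℝ) ≤ K * y := by
    intro p hp
    refine ⟨by exact_mod_cast (hPp p hp).one_lt, ?_⟩
    exact (Nat.le_floor_iff (by linarith)).mp (mem_PP.mp hp).1
  have hq01 : ∀ p ∈ P, 0 ≤ q p ∧ q p ≤ 1 := fun p _ =>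
    ⟨mul_nonneg hc0 (fa_nonneg y p), mul_le_one₀ hc1 (fa_nonneg y p) (fa_le_one hy0 p)⟩
  have hqs : ∑ p ∈ P, q p = c0 * rb y K := by
    rw [hq, ← Finset.mul_sum]; rfl
  set lm := ∑ p ∈ P, q p * Real.log p + δ1 with hlm
  set m := Real.exp lm with hm
  set E := c0 * ∑ p ∈ P, Real.binEntropy (fa y p / 2) with hE
  have he3 : Real.exp (-3) ≤ 1 / 8 := by
    rw [Real.exp_neg, inv_eq_one_div]
    apply one_div_le_one_div_of_le (by norm_num)
    have e1 : (2.7 : ℝ) ^ 3 ≤ Real.exp 3 := by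
      have := Real.exp_one_gt_d9
      rw [show (3 : ℝ) = ((3 : ℕ) : ℝ) * 1 by norm_num, Real.exp_nat_mul]
      exact pow_le_pow_left₀ (by norm_num) (by linarith) 3
    norm_num at e1 ⊢
    linarith
  have t1 : ∑ A ∈ P.powerset.filter (fun A => (A.card : ℝ) < r), W P q A ≤ 1 / 8 := by
    refine (W_tail_card P q hq01 θ1 r hθ1).trans (le_trans ?_ he3)
    apply Real.exp_le_exp.mpr
    rw [hqs]; exact h1
  have t2 : ∑ A ∈ P.powerset.filter (fun A => m < ((∏ p ∈ A, p : ℕ) : ℝ)), W P q A ≤ 1 / 8 := by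
    refine (W_tail_prod P hPp q hq01 θ2 m hθ2 (Real.exp_pos _)).trans (le_trans ?_ he3)
    apply Real.exp_le_exp.mpr
    rw [hm, Real.log_exp]
    have e1 : ∑ p ∈ P, q p * ((p : ℝ) ^ θ2 - 1) ≤
        ∑ p ∈ P, (θ2 * (q p * Real.log p) + θ2 ^ 2 * Real.log (K * y) ^ 2 * q p) := by
      refine Finset.sum_le_sum fun p hp => ?_
      obtain ⟨a1, a2⟩ := hPr p hp
      have a3 : 0 ≤ Real.log p := Real.log_nonneg a1.le
      have a4 : Real.log p ≤ Real.log (K * y) := Real.log_le_log (by linarith) a2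
      have a5 : (p : ℝ) ^ θ2 = Real.exp (θ2 * Real.log p) := by
        rw [Real.rpow_def_of_pos (by linarith), mul_comm]
      have a6 : θ2 * Real.log p ≤ θ2 * Real.log (K * y) := mul_le_mul_of_nonneg_left a4 hθ2
      have a7 : 0 ≤ θ2 * Real.log p := mul_nonneg hθ2 a3
      have a8 := Real.abs_exp_sub_one_sub_id_le (x := θ2 * Real.log p)
        (by rw [abs_of_nonneg a7]; linarith)
      have a9 := (abs_le.mp a8).2
      have a10 : (p : ℝ) ^ θ2 - 1 ≤ θ2 * Real.log p + θ2 ^ 2 * Real.log (K * y) ^ 2 := by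
        rw [a5]
        have : (θ2 * Real.log p) ^ 2 ≤ (θ2 * Real.log (K * y)) ^ 2 :=
          pow_le_pow_left₀ a7 a6 2
        rw [mul_pow θ2 (Real.log (K * y))] at this
        linarith
      have a11 := mul_le_mul_of_nonneg_left a10 (hq01 p hp).1
      linarith
    rw [Finset.sum_add_distrib, ← Finset.mul_sum, ← Finset.mul_sum, hqs] at e1
    rw [hlm]
    have e2 : -θ2 * (∑ p ∈ P, q p * Real.log p + δ1) = -(θ2 * ∑ p ∈ P, q p * Real.log p) +
        -θ2 * δ1 := by ring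
    rw [e2]
    linarith
  have t8 : E ≤ ∑ p ∈ P, Real.binEntropy (q p / 2) := by
    rw [hE, Finset.mul_sum]
    refine Finset.sum_le_sum fun p _ => ?_
    have a1 := fa_nonneg y p
    have a2 := fa_le_one hy0 p
    have := ent_scale hc0 hc1 (x := fa y p / 2) (by linarith) (by linarith)
    rw [show q p / 2 = c0 * (fa y p / 2) by rw [hq]; ring]
    exact this
  have t7 : E ≤ ∑ p ∈ P, Real.binEntropy (q p) := by
    refine t8.trans ?_
    have e1 : ∑ p ∈ P, (1.13 * q p - (1.13 + Real.log 2) * q p ^ 2) ≤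
        ∑ p ∈ P, (Real.binEntropy (q p) - Real.binEntropy (q p / 2)) :=
      Finset.sum_le_sum fun p hp => ent_minor (hq01 p hp).1 (hq01 p hp).2
    have s1 : ∑ p ∈ P, 1.13 * q p = 1.13 * (c0 * rb y K) := by rw [← Finset.mul_sum, hqs]
    have s2 : ∑ p ∈ P, (1.13 + Real.log 2) * q p ^ 2 = (1.13 + Real.log 2) * ∑ p ∈ P, q p ^ 2 :=
      (Finset.mul_sum _ _ _).symm
    rw [Finset.sum_sub_distrib, Finset.sum_sub_distrib, s1, s2] at e1
    have hl2 : 0 < Real.log 2 := Real.log_pos (by norm_num)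
    have e2 : ∑ p ∈ P, q p ^ 2 ≤ c0 * ∑ p ∈ P, fa y p ^ 2 := by
      rw [Finset.mul_sum]
      refine Finset.sum_le_sum fun p _ => ?_
      have : q p ^ 2 = c0 * (c0 * fa y p ^ 2) := by rw [hq]; ring
      rw [this]
      apply mul_le_mul_of_nonneg_left _ hc0
      exact mul_le_of_le_one_left (by positivity) hc1
    have e3 : 0 ≤ c0 * (1.13 * rb y K - (1.13 + Real.log 2) * ∑ p ∈ P, fa y p ^ 2) :=
      mul_nonneg hc0 h7
    have e4 : (1.13 + Real.log 2) * ∑ p ∈ P, q p ^ 2 ≤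
        (1.13 + Real.log 2) * (c0 * ∑ p ∈ P, fa y p ^ 2) :=
      mul_le_mul_of_nonneg_left e2 (by linarith)
    linarith
  have hlm0 : 0 ≤ lm := by
    rw [hlm]
    refine add_nonneg (Finset.sum_nonneg fun p hp => mul_nonneg (hq01 p hp).1 ?_) hδ1
    exact Real.log_nonneg (hPr p hp).1.le
  have hX : 2 ≤ ⌊K * y⌋₊ := Nat.le_floor (by exact_mod_cast hKy)
  have hmain := conv P hPp ⌊K * y⌋₊ (by omega) (fun p hp => (mem_PP.mp hp).1) k m
    (Real.exp (E - δ2) / 8) (by rw [hm]; exact Real.one_le_exp hlm0) (by positivity)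
    (fun S hS => core P hPp q hq01 k S hS r m η δ2 E t1 t2 h3 h4 h5 h6 t7 t8) c hc
  have hXr : (0 : ℝ) < (⌊K * y⌋₊ : ℝ) := by exact_mod_cast (by omega : 0 < ⌊K * y⌋₊)
  have hXle : (⌊K * y⌋₊ : ℝ) ≤ K * y := Nat.floor_le (by linarith)
  have hm0 : 0 < m := Real.exp_pos _
  have hpos : 0 < 1 - c := lt_of_lt_of_le (by positivity) hmain
  refine ⟨by linarith, ?_⟩
  have hlog := Real.log_le_log (by positivity) hmain
  rw [Real.log_div (by positivity) (by positivity), Real.log_div (by positivity) (by norm_num),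
    Real.log_exp, Real.log_mul hXr.ne' hm0.ne', hm, Real.log_exp] at hlog
  have hlX : Real.log (⌊K * y⌋₊ : ℝ) ≤ Real.log (K * y) := Real.log_le_log hXr hXle
  have hid : ∑ p ∈ P, q p * Real.log p - E = c0 * (rb y K * Real.log y - Lam y K) := by
    have e1 : ∑ p ∈ P, (fa y p * Real.log p - Real.binEntropy (fa y p / 2)) =
        ∑ p ∈ P, (fa y p * Real.log y - la y p) :=
      Finset.sum_congr rfl fun p hp => fa_ident hy0 (hPp p hp).one_lt.le
    rw [Finset.sum_sub_distrib, Finset.sum_sub_distrib, ← Finset.sum_mul] at e1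
    have e2 : ∑ p ∈ P, q p * Real.log p = c0 * ∑ p ∈ P, fa y p * Real.log p := by
      rw [Finset.mul_sum]; refine Finset.sum_congr rfl fun p _ => ?_
      rw [hq]; ring
    rw [e2, hE, ← mul_sub, e1]
    rfl
  rw [hlm] at hlog
  linarith

end Pool.Agent.H96.LK3
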