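import Pool.Agent.H96.LK3.Pnt

/-!
# LK3 Vag: sums of a monotone function over the primes in `(ay, by]`

`(log y / y) ∑_{ay < p ≤ by} F(p/y) → ∫_a^b F` for `F` antitone on `[a, b]`, `a > 0`.

Proof: for `0 < u ≤ v` the number of primes in `(uy, vy]` times `log y / y` tends to `v - u`
(`pi_asym` at `uy` and `vy`, `log (uy) / log y → 1`).  Divide `[a, b]` into `m` equal parts
`a = x_0 < ... < x_m = b`; on the primes of `(x_i y, x_{i+1} y]` one has
`F x_{i+1} ≤ F (p/y) ≤ F x_i`; so the limsup and liminf lie between the right and the left Riemann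
sum, whose difference is `(b - a) (F a - F b) / m`, and the integral lies between them too.
(Formalised by repeated halving of the interval.)
-/

set_option autoImplicit false

namespace Pool.Agent.H96.LK3

open Finset Filter Topology

lemma Vag_one {v : ℝ} (hv : 0 < v) :
    Tendsto (fun y : ℝ => (Real.log y / y) * ((PP (v * y)).card : ℝ)) atTop (𝓝 v) := by
  have h1 : Tendsto (fun y : ℝ => (Nat.primeCounting ⌊v * y⌋₊ : ℝ) * Real.log (v * y) / (v * y))
      atTop (𝓝 1) := pi_asym.comp (tendsto_id.const_mul_atTop hv)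
  have h2 : Tendsto (fun y : ℝ => Real.log y / Real.log (v * y)) atTop (𝓝 1) := by
    have h3 : Tendsto (fun y : ℝ => Real.log v / Real.log y) atTop (𝓝 0) :=
      Real.tendsto_log_atTop.const_div_atTop _
    have h4 : Tendsto (fun y : ℝ => (Real.log v / Real.log y + 1)⁻¹) atTop (𝓝 1) := by
      have := (h3.add_const 1).inv₀ (by norm_num)
      simpa using this
    refine h4.congr' ?_
    filter_upwards [eventually_gt_atTop 1] with y hy
    have hy0 : y ≠ 0 := by positivity
    have hl : Real.log y ≠ 0 := (Real.log_pos hy).ne'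
    rw [Real.log_mul hv.ne' hy0, div_add_one hl, inv_div]
  have h5 : Tendsto (fun y : ℝ => v * ((Nat.primeCounting ⌊v * y⌋₊ : ℝ) * Real.log (v * y) / (v * y))
      * (Real.log y / Real.log (v * y))) atTop (𝓝 v) := by
    have := (h1.const_mul v).mul h2
    simpa using this
  refine h5.congr' ?_
  have h6 : Tendsto (fun y : ℝ => Real.log (v * y)) atTop atTop :=
    Real.tendsto_log_atTop.comp (tendsto_id.const_mul_atTop hv)
  filter_upwards [eventually_gt_atTop 0, h6.eventually_gt_atTop 0] with y hy hl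
  have hl' : Real.log (v * y) ≠ 0 := hl.ne'
  have hc : (PP (v * y)).card = Nat.primeCounting ⌊v * y⌋₊ := by simp [PP]
  rw [hc]
  field_simp

lemma Vag_filter {u v y : ℝ} :
    (PP (v * y)).filter (fun p : ℕ => u * y < (p : ℝ)) = PP (v * y) \ PP (u * y) := by
  ext p
  simp only [PP, Finset.mem_filter, Finset.mem_sdiff, Nat.mem_primesLE, not_and]
  constructor
  · rintro ⟨⟨h1, h2⟩, h3⟩
    refine ⟨⟨h1, h2⟩, fun h4 => ?_⟩
    exfalso
    rcases le_or_gt 0 (u * y) with h0 | h0
    · exact absurd ((Nat.le_floor_iff h0).1 h4) (not_le.2 h3)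
    · rw [Nat.floor_of_nonpos h0.le] at h4
      exact absurd h4 (not_le.2 h2.pos)
  · rintro ⟨⟨h1, h2⟩, h3⟩
    refine ⟨⟨h1, h2⟩, ?_⟩
    by_contra h4
    exact h3 (Nat.le_floor (not_lt.1 h4)) h2

lemma Vag_sub {u v y : ℝ} (huv : u ≤ v) (hy : 0 < y) : PP (u * y) ⊆ PP (v * y) := by
  intro p hp
  simp only [PP, Nat.mem_primesLE] at hp ⊢
  exact ⟨hp.1.trans (Nat.floor_le_floor (by gcongr)), hp.2⟩

lemma Vag_cnt {u v : ℝ} (hu : 0 < u) (huv : u ≤ v) :
    Tendsto (fun y : ℝ => (Real.log y / y) *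
      (((PP (v * y)).filter (fun p : ℕ => u * y < (p : ℝ))).card : ℝ)) atTop (𝓝 (v - u)) := by
  have h1 := (Vag_one (hu.trans_le huv)).sub (Vag_one hu)
  refine h1.congr' ?_
  filter_upwards [eventually_gt_atTop 0] with y hy
  rw [Vag_filter, card_sdiff_of_subset (Vag_sub huv hy),
    Nat.cast_sub (card_le_card (Vag_sub huv hy))]
  ring

lemma Vag_split {F : ℝ → ℝ} {a c b y : ℝ} (hac : a ≤ c) (hcb : c ≤ b) (hy : 0 < y) :
    ∑ p ∈ (PP (b * y)).filter (fun p : ℕ => a * y < (p : ℝ)), F ((p : ℝ) / y) =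
    ∑ p ∈ (PP (c * y)).filter (fun p : ℕ => a * y < (p : ℝ)), F ((p : ℝ) / y) +
    ∑ p ∈ (PP (b * y)).filter (fun p : ℕ => c * y < (p : ℝ)), F ((p : ℝ) / y) := by
  rw [Vag_filter, Vag_filter, Vag_filter, ← sum_union]
  · congr 1
    have h1 := Vag_sub hac hy
    have h2 := Vag_sub hcb hy
    ext p
    simp only [Finset.mem_union, Finset.mem_sdiff]
    have := @h1 p
    have := @h2 p
    tauto
  · rw [disjoint_left]
    intro p hp
    simp only [Finset.mem_sdiff] at hp ⊢
    tauto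

lemma Vag_int {F : ℝ → ℝ} {a b : ℝ} (hab : a ≤ b) (hF : AntitoneOn F (Set.Icc a b)) :
    IntervalIntegrable F MeasureTheory.volume a b := by
  apply AntitoneOn.intervalIntegrable
  rwa [Set.uIcc_of_le hab]

lemma Vag_base {F : ℝ → ℝ} {a b : ℝ} (ha : 0 < a) (hab : a ≤ b)
    (hF : AntitoneOn F (Set.Icc a b)) {ε : ℝ} (hε : 0 < ε) :
    ∀ᶠ y : ℝ in atTop, |(Real.log y / y) *
      ∑ p ∈ (PP (b * y)).filter (fun p : ℕ => a * y < (p : ℝ)), F ((p : ℝ) / y) -
      ∫ x in a..b, F x| ≤ (b - a) * (F a - F b) + ε := by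
  have hA : a ∈ Set.Icc a b := ⟨le_rfl, hab⟩
  have hB : b ∈ Set.Icc a b := ⟨hab, le_rfl⟩
  have i1 : (b - a) * F b ≤ ∫ x in a..b, F x := by
    have := intervalIntegral.integral_mono_on hab
      (intervalIntegrable_const (c := F b)) (Vag_int hab hF)
      (fun x hx => hF hx hB hx.2)
    simpa using this
  have i2 : ∫ x in a..b, F x ≤ (b - a) * F a := by
    have := intervalIntegral.integral_mono_on hab (Vag_int hab hF)
      (intervalIntegrable_const (c := F a))
      (fun x hx => hF hA hx hx.1)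
    simpa using this
  have t1 := (Vag_cnt ha hab).mul_const (F a)
  have t2 := (Vag_cnt ha hab).mul_const (F b)
  filter_upwards [eventually_gt_atTop 1, t1.eventually_le_const (show (b - a) * F a <
    (b - a) * F a + ε by linarith), t2.eventually_const_le (show (b - a) * F b - ε < (b - a) * F b
    by linarith)] with y hy h1 h2
  have hy0 : 0 < y := by positivity
  have hl : 0 ≤ Real.log y / y := div_nonneg (Real.log_nonneg hy.le) hy0.le
  have hm : ∀ p ∈ (PP (b * y)).filter (fun p : ℕ => a * y < (p : ℝ)),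
      ((p : ℝ) / y) ∈ Set.Icc a b := by
    intro p hp
    simp only [PP, Finset.mem_filter, Nat.mem_primesLE] at hp
    have hp' : (p : ℝ) ≤ b * y := by
      have := hp.1.1
      rwa [Nat.le_floor_iff (mul_nonneg (ha.le.trans hab) hy0.le)] at this
    constructor
    · rw [le_div_iff₀ hy0]; exact hp.2.le
    · rw [div_le_iff₀ hy0]; exact hp'
  have s1 : ∑ p ∈ (PP (b * y)).filter (fun p : ℕ => a * y < (p : ℝ)), F ((p : ℝ) / y) ≤
      (((PP (b * y)).filter (fun p : ℕ => a * y < (p : ℝ))).card : ℝ) * F a := by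
    rw [← nsmul_eq_mul]
    exact sum_le_card_nsmul _ _ _ (fun p hp => hF hA (hm p hp) (hm p hp).1)
  have s2 : (((PP (b * y)).filter (fun p : ℕ => a * y < (p : ℝ))).card : ℝ) * F b ≤
      ∑ p ∈ (PP (b * y)).filter (fun p : ℕ => a * y < (p : ℝ)), F ((p : ℝ) / y) := by
    rw [← nsmul_eq_mul]
    exact card_nsmul_le_sum _ _ _ (fun p hp => hF (hm p hp) hB (hm p hp).2)
  have s3 := mul_le_mul_of_nonneg_left s1 hl
  have s4 := mul_le_mul_of_nonneg_left s2 hl
  rw [abs_le]
  constructor <;> nlinarith [s3, s4, h1, h2, i1, i2]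

lemma Vag_half {F : ℝ → ℝ} (n : ℕ) : ∀ {a b : ℝ}, 0 < a → a ≤ b →
    AntitoneOn F (Set.Icc a b) → ∀ {ε : ℝ}, 0 < ε →
    ∀ᶠ y : ℝ in atTop, |(Real.log y / y) *
      ∑ p ∈ (PP (b * y)).filter (fun p : ℕ => a * y < (p : ℝ)), F ((p : ℝ) / y) -
      ∫ x in a..b, F x| ≤ (b - a) * (F a - F b) / 2 ^ n + ε := by
  induction n with
  | zero =>
    intro a b ha hab hF ε hε
    simpa using Vag_base ha hab hF hε
  | succ n ih =>
    intro a b ha hab hF ε hε
    set c := (a + b) / 2 with hc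
    have hac : a ≤ c := by linarith
    have hcb : c ≤ b := by linarith
    have F1 : AntitoneOn F (Set.Icc a c) := hF.mono (Set.Icc_subset_Icc le_rfl hcb)
    have F2 : AntitoneOn F (Set.Icc c b) := hF.mono (Set.Icc_subset_Icc hac le_rfl)
    have e1 := ih ha hac F1 (half_pos hε)
    have e2 := ih (ha.trans_le hac) hcb F2 (half_pos hε)
    have e3 : ∫ x in a..b, F x = (∫ x in a..c, F x) + ∫ x in c..b, F x :=
      (intervalIntegral.integral_add_adjacent_intervals (Vag_int hac F1) (Vag_int hcb F2)).symm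
    filter_upwards [eventually_gt_atTop 0, e1, e2] with y hy h1 h2
    rw [Vag_split hac hcb hy, e3]
    have e4 : (b - a) * (F a - F b) / 2 ^ (n + 1) + ε =
        ((c - a) * (F a - F c) / 2 ^ n + ε / 2) + ((b - c) * (F c - F b) / 2 ^ n + ε / 2) := by
      have : c - a = (b - a) / 2 := by rw [hc]; ring
      have : b - c = (b - a) / 2 := by rw [hc]; ring
      rw [‹c - a = (b - a) / 2›, ‹b - c = (b - a) / 2›, pow_succ]
      field_simp
      ring
    rw [e4]
    refine le_trans (le_of_eq ?_) ((abs_add_le _ _).trans (add_le_add h1 h2))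
    congr 1
    ring

theorem sum_prime_tendsto {F : ℝ → ℝ} {a b : ℝ} (ha : 0 < a) (hab : a ≤ b)
    (hF : AntitoneOn F (Set.Icc a b)) :
    Tendsto (fun y : ℝ => (Real.log y / y) *
      ∑ p ∈ (PP (b * y)).filter (fun p : ℕ => a * y < (p : ℝ)), F ((p : ℝ) / y)) atTop
      (𝓝 (∫ x in a..b, F x)) := by
  rw [Metric.tendsto_nhds]
  intro ε hε
  have h1 : Tendsto (fun n : ℕ => (b - a) * (F a - F b) * (1 / 2 : ℝ) ^ n) atTop (𝓝 0) := by
    have := (tendsto_pow_atTop_nhds_zero_of_lt_one (r := (1 / 2 : ℝ)) (by norm_num)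
      (by norm_num)).const_mul ((b - a) * (F a - F b))
    simpa using this
  obtain ⟨n, hn⟩ := (h1.eventually_lt_const (half_pos hε)).exists
  filter_upwards [Vag_half n ha hab hF (half_pos (half_pos hε))] with y hy
  rw [Real.dist_eq]
  have : (b - a) * (F a - F b) / 2 ^ n = (b - a) * (F a - F b) * (1 / 2 : ℝ) ^ n := by
    rw [one_div, inv_pow, div_eq_mul_inv]
  rw [this] at hy
  linarith

end Pool.Agent.H96.LK3
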